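import Pool.Agent.H83.OCG.Time

/-!
# Near samples: coarser labels, macroscopic distances

`nr p L θ k' i`: the probability that two samples of one line and of one window of the scale `i`
are nearer than `2 ^ (-(i + k'))`. If the sum over the scales is small, then two samples are not
nearer than `2 ^ (-i')` for `i'` far beyond `i` (`ta_of_nr`); the sum is nearly monotone in the
label (`nr_coarse`).
-/

set_option autoImplicit false

namespace Pool.OCG

open Finset Real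
open Pool.Agent.H49.Ent Pool.Agent.H32.Dense Pool.STK Pool.KAF

variable {Ω S S' G Λ Λ' : Type} [Fintype Ω]

/-- Two samples of one line and of one window of the scale `i` are near. -/
noncomputable def nr (p : Ω → ℝ) (L : Ω → Λ) (θ : Ω → ℝ) (k' i : ℕ) : ℝ :=
  Pr (dbl p (kp L θ i)) {w | |θ w.2 - θ w.1| < (2 : ℝ) ^ (-((i : ℤ) + k'))}

theorem nr_nonneg {p : Ω → ℝ} (hp : ∀ ω, 0 ≤ p ω) (L : Ω → Λ) (θ : Ω → ℝ) (k' i : ℕ) :
    0 ≤ nr p L θ k' i := Pr_nonneg' (fun w => glue_nonneg hp hp w) _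

theorem nr_le_one {p : Ω → ℝ} (hp : IsLaw p) (L : Ω → Λ) (θ : Ω → ℝ) (k' i : ℕ) :
    nr p L θ k' i ≤ 1 := Pool.KAF.Pr_le_one (Pool.OC.isLaw_dbl hp (kp L θ i)) _

theorem Ex_rt {p : Ω → ℝ} (L : Ω → Λ) (θ : Ω → ℝ) {i j : ℕ} (hij : i ≤ j) :
    Ex p (rt p L θ i j) = Pr (dbl p (kp L θ i)) {w | tl θ j w.2 = tl θ j w.1} := by
  rw [Pool.M5T.Pr_dbl]
  unfold Ex
  refine Finset.sum_congr rfl fun ω _ => ?_
  congr 1
  exact (rt_eq L θ hij ω).symm

theorem rt_le_nr {p : Ω → ℝ} (hp : ∀ ω, 0 ≤ p ω) (L : Ω → Λ) (θ : Ω → ℝ) (k' i : ℕ) :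
    Ex p (rt p L θ i (i + k')) ≤ nr p L θ k' i := by
  rw [Ex_rt L θ (by omega)]
  unfold nr
  refine Pr_mono' (fun w => glue_nonneg hp hp w) fun w _ hw => ?_
  have h : ⌊(2 : ℝ) ^ (i + k') * θ w.2⌋ = ⌊(2 : ℝ) ^ (i + k') * θ w.1⌋ := hw
  have h1 := Int.abs_sub_lt_one_of_floor_eq_floor h
  rw [← mul_sub, abs_mul, abs_of_pos (by positivity : (0 : ℝ) < 2 ^ (i + k'))] at h1
  show |θ w.2 - θ w.1| < (2 : ℝ) ^ (-((i : ℤ) + k'))
  have h2 : (2 : ℝ) ^ (-((i : ℤ) + k')) = ((2 : ℝ) ^ (i + k'))⁻¹ := by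
    rw [zpow_neg]
    congr 1
  rw [h2, ← one_div, lt_div_iff₀ (by positivity), mul_comm]
  exact h1

/-- Macroscopic distances from the sum over the scales. -/
theorem ta_of_nr {p : Ω → ℝ} (hp : IsLaw p) (L : Ω → Λ) (θ : Ω → ℝ) {k' i i' : ℕ}
    (hi : i + k' ≤ i') :
    ((i' : ℝ) - k' - i) * Pr (dbl p (kp L θ i)) {w | |θ w.2 - θ w.1| < (2 : ℝ) ^ (-(i' : ℤ))} ≤
      3 * ∑ v ∈ Finset.Ico i (i' - k'), nr p L θ k' v := by
  have h0 := hp.nonneg
  have h1 := near_rt hp L θ (i := i) (j := i') (by omega)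
  have h2 : ∀ v ∈ Finset.Ico i (i' - k'), Ex p (rt p L θ i i') ≤ nr p L θ k' v := by
    intro v hv
    have hv := Finset.mem_Ico.1 hv
    refine le_trans (Ex_mono h0 fun ω hω => ?_) (rt_le_nr h0 L θ k' v)
    rw [rt_mul h0 L θ i v i' hω, rt_mul h0 L θ v (v + k') i' hω]
    have e1 := rt_le_one h0 L θ hv.1 hω
    have e2 := rt_le_one h0 L θ (by omega : v + k' ≤ i') hω
    have e3 := rt_nonneg h0 L θ i v ω
    have e4 := rt_nonneg h0 L θ v (v + k') ω
    have e5 := rt_nonneg h0 L θ (v + k') i' ω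
    calc rt p L θ i v ω * (rt p L θ v (v + k') ω * rt p L θ (v + k') i' ω) ≤
        1 * (rt p L θ v (v + k') ω * 1) :=
          mul_le_mul e1 (mul_le_mul_of_nonneg_left e2 e4) (mul_nonneg e4 e5) zero_le_one
      _ = _ := by ring
  have h3 := Finset.card_nsmul_le_sum _ _ _ h2
  rw [nsmul_eq_mul, Nat.card_Ico] at h3
  have h4 : ((i' - k' - i : ℕ) : ℝ) = (i' : ℝ) - k' - i := by
    rw [Nat.cast_sub (by omega), Nat.cast_sub (by omega)]
  rw [h4] at h3
  have h5 : 0 ≤ (i' : ℝ) - k' - i := by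
    rw [← h4]
    exact Nat.cast_nonneg _
  have h6 := mul_le_mul_of_nonneg_left h1 h5
  linarith

/-! ### coarser labels -/

/-- The collision probability as a sum over the values. -/
theorem col_eq {p : Ω → ℝ} (κ : Ω → S) (g : Ω → G) [DecidableEq S] [DecidableEq G] :
    Pr (dbl p κ) {w | g w.2 = g w.1} = ∑ x ∈ univ.image κ ×ˢ univ.image g,
      law p (fun ω => (κ ω, g ω)) x ^ 2 / law p κ x.1 := by
  classical
  rw [Pool.M5T.Pr_dbl]
  have h1 : ∀ ω, Pr (Pool.Agent.H49.Ent.cond p κ (κ ω)) {ω' | (ω, ω') ∈ {w : Ω × Ω | g w.2 = g w.1}} =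
      law p (fun ω => (κ ω, g ω)) (κ ω, g ω) / law p κ (κ ω) := by
    intro ω
    rw [Pool.KAF.Pr_eq]
    unfold Pool.Agent.H49.Ent.cond
    generalize law p κ (κ ω) = q
    unfold law
    rw [Finset.sum_div]
    refine Finset.sum_congr rfl fun ω' _ => ?_
    simp only [Set.mem_ofPred_eq, Prod.mk.injEq]
    by_cases h1 : g ω' = g ω
    · by_cases h2 : κ ω' = κ ω
      · simp [h1, h2]
      · simp [h1, h2]
    · simp [h1]
  have h1' : Ex p (fun ω => Pr (Pool.Agent.H49.Ent.cond p κ (κ ω))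
      {ω' | (ω, ω') ∈ {w : Ω × Ω | g w.2 = g w.1}}) =
      ∑ ω, p ω * (law p (fun ω => (κ ω, g ω)) (κ ω, g ω) / law p κ (κ ω)) := by
    unfold Ex
    exact Finset.sum_congr rfl fun ω _ => by rw [← h1 ω]
  rw [h1']
  have h2 := sum_mul_eq_sum_image p (fun ω => (κ ω, g ω))
    (fun x : S × G => law p (fun ω => (κ ω, g ω)) x / law p κ x.1)
  rw [show (∑ ω, p ω * (law p (fun ω => (κ ω, g ω)) (κ ω, g ω) / law p κ (κ ω))) = _ from h2]
  refine Finset.sum_subset_zero_on_sdiff ?_ ?_ ?_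
  · intro x hx
    obtain ⟨ω, -, rfl⟩ := Finset.mem_image.1 hx
    exact Finset.mem_product.2 ⟨Finset.mem_image_of_mem _ (Finset.mem_univ _),
      Finset.mem_image_of_mem _ (Finset.mem_univ _)⟩
  · intro x hx
    have h3 := law_eq_zero_of_notMem p (fun ω => (κ ω, g ω)) (Finset.mem_sdiff.1 hx).2
    rw [h3]
    simp
  · intro x _
    ring

/-- Collisions are less likely for coarser labels. -/
theorem col_coarse {p : Ω → ℝ} (hp : ∀ ω, 0 ≤ p ω) {κ : Ω → S} {κ' : Ω → S'} (g : Ω → G)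
    (h : Det p κ κ') : Pr (dbl p κ') {w | g w.2 = g w.1} ≤ Pr (dbl p κ) {w | g w.2 = g w.1} := by
  classical
  -- the coarser label as a function
  obtain ⟨f, hf⟩ : ∃ f : S → Option S', ∀ ω, 0 < p ω → some (κ' ω) = f (κ ω) := by
    refine ⟨fun a => if h : ∃ ω, 0 < p ω ∧ κ ω = a then some (κ' h.choose) else none,
      fun ω hω => ?_⟩
    have hex : ∃ ω', 0 < p ω' ∧ κ ω' = κ ω := ⟨ω, hω, rfl⟩
    dsimp only
    rw [dif_pos hex]
    exact congrArg some (h ω _ hω hex.choose_spec.1 hex.choose_spec.2.symm)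
  rw [col_eq, col_eq, Finset.sum_product_right, Finset.sum_product_right]
  refine Finset.sum_le_sum fun x _ => ?_
  set T := (univ.image κ).filter (fun z => 0 < law p κ z) with hT
  have hz : ∑ z ∈ univ.image κ, law p (fun ω => (κ ω, g ω)) (z, x) ^ 2 / law p κ z =
      ∑ z ∈ T, law p (fun ω => (κ ω, g ω)) (z, x) ^ 2 / law p κ z := by
    symm
    refine Finset.sum_subset (Finset.filter_subset _ _) fun z hz hz' => ?_
    have h1 : law p κ z = 0 := by
      have h2 := law_nonneg hp κ z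
      by_contra h3
      exact hz' (Finset.mem_filter.2 ⟨hz, lt_of_le_of_ne h2 (Ne.symm h3)⟩)
    rw [h1, div_zero]
  show ∑ z' ∈ univ.image κ', law p (fun ω => (κ' ω, g ω)) (z', x) ^ 2 / law p κ' z' ≤
    ∑ z ∈ univ.image κ, law p (fun ω => (κ ω, g ω)) (z, x) ^ 2 / law p κ z
  rw [hz]
  have hfib : ∑ z' ∈ univ.image κ', ∑ z ∈ T.filter (fun z => f z = some z'),
      law p (fun ω => (κ ω, g ω)) (z, x) ^ 2 / law p κ z ≤
      ∑ z ∈ T, law p (fun ω => (κ ω, g ω)) (z, x) ^ 2 / law p κ z := by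
    rw [← Finset.sum_biUnion]
    · refine Finset.sum_le_sum_of_subset_of_nonneg ?_ fun z _ _ =>
        div_nonneg (sq_nonneg _) (law_nonneg hp κ z)
      intro z hz
      obtain ⟨z', -, h1⟩ := Finset.mem_biUnion.1 hz
      exact (Finset.mem_filter.1 h1).1
    · intro a _ b _ hab
      refine Finset.disjoint_left.2 fun z h1 h2 => hab ?_
      have h3 := (Finset.mem_filter.1 h1).2
      have h4 := (Finset.mem_filter.1 h2).2
      rw [h3] at h4
      exact Option.some.inj h4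
  refine le_trans (Finset.sum_le_sum fun z' _ => ?_) hfib
  -- masses
  have hm : ∀ {U : Type} [DecidableEq U] (u : Ω → U) (y : U),
      law p (fun ω => (κ' ω, u ω)) (z', y) =
      ∑ z ∈ T.filter (fun z => f z = some z'), law p (fun ω => (κ ω, u ω)) (z, y) := by
    intro U _ u y
    unfold law
    rw [Finset.sum_comm]
    refine Finset.sum_congr rfl fun ω _ => ?_
    rcases (hp ω).eq_or_lt with h0 | h0
    · rw [← h0]
      simp
    by_cases h1 : κ' ω = z'
    · by_cases h2 : u ω = y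
      · rw [if_pos (Prod.ext h1 h2 : (fun ω => (κ' ω, u ω)) ω = (z', y)),
          Finset.sum_eq_single (κ ω)]
        · rw [if_pos (Prod.ext rfl h2 : (fun ω => (κ ω, u ω)) ω = (κ ω, y))]
        · intro z _ hz
          rw [if_neg (fun h => hz (Prod.ext_iff.1 h).1.symm)]
        · intro h3
          refine absurd (Finset.mem_filter.2 ⟨Finset.mem_filter.2 ⟨Finset.mem_image_of_mem _
            (Finset.mem_univ ω), law_pos hp κ h0⟩, ?_⟩) h3
          rw [← hf ω h0, h1]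
      · rw [if_neg (fun h => h2 (Prod.ext_iff.1 h).2)]
        refine (Finset.sum_eq_zero fun z _ => ?_).symm
        rw [if_neg (fun h => h2 (Prod.ext_iff.1 h).2)]
    · rw [if_neg (fun h => h1 (Prod.ext_iff.1 h).1)]
      refine (Finset.sum_eq_zero fun z hz => ?_).symm
      rw [if_neg]
      intro h2
      have h3 := (Finset.mem_filter.1 hz).2
      have h4 : κ ω = z := (Prod.ext_iff.1 h2).1
      rw [← h4, ← hf ω h0] at h3
      exact h1 (Option.some.inj h3)
  have hm1 := hm g x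
  have hm2 : law p κ' z' = ∑ z ∈ T.filter (fun z => f z = some z'), law p κ z := by
    have h1 := hm (fun _ => ()) ()
    have h2 : law p (fun ω => (κ' ω, ())) (z', ()) = law p κ' z' := by
      unfold law
      refine Finset.sum_congr rfl fun ω _ => ?_
      simp
    have h3 : ∀ z, law p (fun ω => (κ ω, ())) (z, ()) = law p κ z := by
      intro z
      unfold law
      refine Finset.sum_congr rfl fun ω _ => ?_
      simp
    rw [h2] at h1
    rw [h1]
    exact Finset.sum_congr rfl fun z _ => h3 z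
  rw [hm1, hm2]
  exact Finset.sq_sum_div_le_sum_sq_div _ _ fun z hz =>
    (Finset.mem_filter.1 (Finset.mem_filter.1 hz).1).2

/-- Near samples for coarser labels. -/
theorem nr_coarse {p : Ω → ℝ} (hp : IsLaw p) {L : Ω → Λ} {L' : Ω → Λ'} (h : Det p L L')
    (θ : Ω → ℝ) (k' i : ℕ) : nr p L' θ k' i ≤ 3 * nr p L θ k' i := by
  have h1 := near_rt hp L' θ (i := i) (j := i + k') (by omega)
  have h2 : Ex p (rt p L' θ i (i + k')) ≤ Ex p (rt p L θ i (i + k')) := by
    rw [Ex_rt L' θ (by omega), Ex_rt L θ (by omega)]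
    refine col_coarse hp.nonneg (tl θ (i + k')) ?_
    intro ω ω' hω hω' e
    exact Prod.ext (h ω ω' hω hω' (Prod.ext_iff.1 e).1) (Prod.ext_iff.1 e).2
  have h3 := rt_le_nr hp.nonneg L θ k' i
  unfold nr at h3 ⊢
  push_cast at h1
  linarith

/-! ### equal variables -/

/-- Two copies with another label with the same classes. -/
theorem dbl_congr {p : Ω → ℝ} {κ : Ω → S} {κ' : Ω → S'} (h : ∀ ω ω', κ ω = κ ω' ↔ κ' ω = κ' ω') :
    dbl p κ = dbl p κ' := by
  classical
  funext w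
  unfold dbl glue
  by_cases h1 : κ w.1 = κ w.2
  · have h2 : law p κ (κ w.1) = law p κ' (κ' w.1) := by
      unfold law
      refine Finset.sum_congr rfl fun ω _ => ?_
      by_cases h3 : κ ω = κ w.1
      · rw [if_pos h3, if_pos ((h _ _).1 h3)]
      · rw [if_neg h3, if_neg (fun h4 => h3 ((h _ _).2 h4))]
    rw [if_pos h1, if_pos ((h _ _).1 h1), h2]
  · rw [if_neg h1, if_neg (fun h4 => h1 ((h _ _).2 h4))]

/-- Two copies with another label, equal on the support. -/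
theorem dbl_congr_supp {p : Ω → ℝ} (hp : ∀ ω, 0 ≤ p ω) {κ κ' : Ω → S}
    (h : ∀ ω, 0 < p ω → κ ω = κ' ω) : dbl p κ = dbl p κ' := by
  classical
  funext w
  unfold dbl glue
  rcases (hp w.1).eq_or_lt with h0 | h0
  · rw [← h0]
    simp
  rcases (hp w.2).eq_or_lt with h0' | h0'
  · rw [← h0']
    simp
  have h2 : law p κ (κ w.1) = law p κ' (κ' w.1) := by
    unfold law
    refine Finset.sum_congr rfl fun ω _ => ?_
    rcases (hp ω).eq_or_lt with h3 | h3
    · rw [← h3]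
      simp
    · rw [h ω h3, h _ h0]
  rw [h _ h0, h _ h0', ← h2, h _ h0]

theorem nr_congr {p : Ω → ℝ} (hp : ∀ ω, 0 ≤ p ω) (L : Ω → Λ) {θ θ' : Ω → ℝ}
    (h : ∀ ω, 0 < p ω → θ ω = θ' ω) (k' i : ℕ) : nr p L θ k' i = nr p L θ' k' i := by
  have h1 : dbl p (kp L θ i) = dbl p (kp L θ' i) := by
    refine dbl_congr_supp hp fun ω hω => ?_
    unfold kp tl
    rw [h ω hω]
  unfold nr
  rw [h1]
  refine le_antisymm ?_ ?_
  · refine Pr_mono' (fun w => glue_nonneg hp hp w) fun w hw hE => ?_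
    obtain ⟨a, b, -⟩ := (glue_pos_iff hp hp w).1 hw
    have hE' : |θ w.2 - θ w.1| < (2 : ℝ) ^ (-((i : ℤ) + k')) := hE
    rw [h _ a, h _ b] at hE'
    exact hE'
  · refine Pr_mono' (fun w => glue_nonneg hp hp w) fun w hw hE => ?_
    obtain ⟨a, b, -⟩ := (glue_pos_iff hp hp w).1 hw
    have hE' : |θ' w.2 - θ' w.1| < (2 : ℝ) ^ (-((i : ℤ) + k')) := hE
    rw [← h _ a, ← h _ b] at hE'
    exact hE'

end Pool.OCG
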