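import Pool.Agent.H83.OCG.Time2

/-!
# Near samples for coarser labels: any real variable
-/

set_option autoImplicit false

namespace Pool.OCG

open Finset Real
open Pool.Agent.H49.Ent Pool.Agent.H32.Dense Pool.STK Pool.KAF

variable {Ω S S' : Type} [Fintype Ω]

/-- Near samples of a real variable: at most three times as likely for a coarser label. -/
theorem near_coarse {p : Ω → ℝ} (hp : IsLaw p) {κ : Ω → S} {κ' : Ω → S'} (h : Det p κ κ')
    (f : Ω → ℝ) {δ : ℝ} (hδ : 0 < δ) :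
    Pr (dbl p κ') {w | |f w.2 - f w.1| < δ} ≤ 3 * Pr (dbl p κ) {w | |f w.2 - f w.1| < δ} := by
  have h0 := hp.nonneg
  have h1 : Pr (dbl p κ') {w | |f w.2 - f w.1| < δ} ≤
      Pr (dbl p κ') {w | |⌊f w.2 / δ⌋ - ⌊f w.1 / δ⌋| ≤ 1} := by
    refine Pr_mono' (fun w => glue_nonneg h0 h0 w) fun w _ hw => ?_
    have h2 : |f w.2 - f w.1| < δ := hw
    have h3 : |f w.2 / δ - f w.1 / δ| < 1 := by
      rw [← sub_div, abs_div, abs_of_pos hδ, div_lt_one hδ]
      exact h2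
    show |⌊f w.2 / δ⌋ - ⌊f w.1 / δ⌋| ≤ 1
    generalize f w.2 / δ = x at h3 ⊢
    generalize f w.1 / δ = y at h3 ⊢
    rw [abs_lt] at h3
    have e1 := Int.floor_le x
    have e2 := Int.lt_floor_add_one x
    have e3 := Int.floor_le y
    have e4 := Int.lt_floor_add_one y
    rw [abs_le]
    constructor
    · have : (⌊y⌋ : ℝ) < ⌊x⌋ + 2 := by linarith
      have h5 : ⌊y⌋ < ⌊x⌋ + 2 := by exact_mod_cast this
      omega
    · have : (⌊x⌋ : ℝ) < ⌊y⌋ + 2 := by linarith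
      have h5 : ⌊x⌋ < ⌊y⌋ + 2 := by exact_mod_cast this
      omega
  have h2 := near3 hp κ' (fun ω => ⌊f ω / δ⌋)
  have h3 := col_coarse h0 (fun ω => ⌊f ω / δ⌋) h
  have h4 : Pr (dbl p κ) {w | ⌊f w.2 / δ⌋ = ⌊f w.1 / δ⌋} ≤
      Pr (dbl p κ) {w | |f w.2 - f w.1| < δ} := by
    refine Pr_mono' (fun w => glue_nonneg h0 h0 w) fun w _ hw => ?_
    have h5 : ⌊f w.2 / δ⌋ = ⌊f w.1 / δ⌋ := hw
    have h6 := Int.abs_sub_lt_one_of_floor_eq_floor h5
    rw [← sub_div, abs_div, abs_of_pos hδ, div_lt_one hδ] at h6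
    exact h6
  linarith

/-- Near samples for labels with the same classes on the support. -/
theorem near_mono {p : Ω → ℝ} (hp : IsLaw p) (κ : Ω → S) (f : Ω → ℝ) {δ δ' : ℝ} (h : δ ≤ δ') :
    Pr (dbl p κ) {w | |f w.2 - f w.1| < δ} ≤ Pr (dbl p κ) {w | |f w.2 - f w.1| < δ'} :=
  Pr_mono' (fun w => glue_nonneg hp.nonneg hp.nonneg w) fun w _ hw =>
    (show |f w.2 - f w.1| < δ from hw).trans_le h

end Pool.OCG
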