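import Pool.Agent.H83.OCG.Geo
import Pool.Agent.H59.OC.OCB

/-!
# Theorem OC for arbitrary time laws, in the mean over the context

Copies of the proofs of helper59 (`oc_one`, `ocb_thm`) with the weaker hypothesis on the time.
-/

set_option autoImplicit false

namespace Pool.OCG

open Finset Real
open Pool.Agent.H49.Ent Pool.Agent.H32.Dense Pool.STK Pool.KA Pool.OC Pool.K2S

variable {Ω Λ Θ β S T U V : Type} [Fintype Ω]

/-- **(OCB)** Theorem OC for one law, in the mean over the values of the context `b`, with the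
hypothesis `nr` on the time. -/
def OCBTStmt : Prop :=
  ∀ c ca : ℝ, 0 < c → 0 < ca → ∃ x₀ κ ε ι₃ εT : ℝ, 0 < x₀ ∧ 0 < κ ∧ κ ≤ 1 ∧ 0 < ε ∧ 0 < ι₃ ∧
    0 < εT ∧ ∀ k' : ℕ, ∃ (ϖ ι : ℝ) (X₀ : ℕ), 0 < ϖ ∧ 0 < ι ∧
    ∀ (Ω β Λ Θ : Type) [Fintype Ω] (p : Ω → ℝ) (b : Ω → β) (L : Ω → Λ) (T : Ω → Θ)
      (y om be m0 th S nu : Ω → ℝ) (X : ℕ), OCData p b L T y om be m0 th S nu → X₀ ≤ X →
      Pool.KVA.MI p T L b ≤ ι * X →
      ∑ i ∈ range X, nr p (fun ω => (L ω, b ω)) th k' i ≤ εT * X →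
      CH p (Uni.dg X nu) (fun ω => (b ω, T ω)) -
        CH p (Uni.dg X nu) (fun ω => ((Uni.dg X y ω, (Uni.dg X om ω, Uni.dg X be ω)),
          (b ω, T ω))) ≤ ι * X →
      (1 - ι₃) * X * Real.log 2 ≤ CH p (Uni.dg X y) (fun ω => (Uni.dg X om ω, b ω)) →
      ca * X * Real.log 2 ≤ CH p (Uni.dg X om) b →
      (∀ j : ℕ, (j + 1) * ⌊κ * X⌋₊ ≤ X → ∀ E : Ω → Prop, ϖ ≤ Pe p E →
        CH (Pool.Agent.H49.Ent.cond p E True) (Uni.dg ((j + 1) * ⌊κ * X⌋₊) nu)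
          (fun ω => (Uni.dg (j * ⌊κ * X⌋₊) nu ω, (b ω, T ω))) ≤
          (1 - c) * ⌊κ * X⌋₊ * Real.log 2) →
      Pool.KAF.Pr (dbl p (fun ω => (L ω, b ω))) {w | |S w.1 - S w.2| < (2 : ℝ) ^ (-(x₀ * X))} ≤ ε →
      False

/-- Near samples in the mean over a label. -/
theorem Ex_nr {p : Ω → ℝ} (hp : ∀ ω, 0 ≤ p ω) (L : Ω → Λ) (b : Ω → β) (θ : Ω → ℝ) (k' i : ℕ) :
    Ex p (fun ω => nr (Pool.Agent.H49.Ent.cond p b (b ω)) L θ k' i) =
      nr p (fun ω => (L ω, b ω)) θ k' i := by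
  unfold nr
  rw [Uni.Ex_Pr_dbl hp (kp L θ i) b (fun _ => {w | |θ w.2 - θ w.1| < (2 : ℝ) ^ (-((i : ℤ) + k'))})]
  rw [dbl_congr (κ := fun ω => (kp L θ i ω, b ω)) (κ' := kp (fun ω => (L ω, b ω)) θ i)]
  · rfl
  · intro ω ω'
    unfold kp
    simp only [Prod.mk.injEq]
    tauto

open Uni

theorem oc_one {x₀ κ ϖ ι ι₃ εT ε c ca : ℝ} {X₀ k' : ℕ}
    (hOC : ∀ d : Dat, d.OK 2 → X₀ ≤ d.X → OCG.H1 d ι → OCG.TBt d k' εT → d.H2 ι → d.H3 ι₃ →
      d.H4 ca → d.H5 c κ ϖ → d.H6 x₀ ε → False)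
    {q : Ω → ℝ} {L : Ω → Λ} {T : Ω → Θ} {y om be m0 th S nu : Ω → ℝ}
    (hd : OCData q (fun _ => ()) L T y om be m0 th S nu) {X : ℕ} (hX : X₀ ≤ X)
    (hXι : 8 * Real.log 2 ≤ ι * X) (hXι' : 4 ≤ ι₃ * X)
    (h1 : Pool.KVA.MI q T L (fun _ => ()) ≤ ι * X)
    (h1' : ∑ i ∈ range X, OCG.nr q L th k' i ≤ εT * X)
    (h2 : CH q (dg X nu) T - CH q (dg X nu) (fun ω => ((dg X y ω, (dg X om ω, dg X be ω)), T ω)) ≤
      ι / 2 * X)
    (h3 : (1 - ι₃ / 2) * X * Real.log 2 ≤ CH q (dg X y) (dg X om))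
    (h4 : ca * X * Real.log 2 ≤ H q (dg X om))
    (h6 : Pool.KAF.Pr (dbl q L) {w | |S w.1 - S w.2| < 4 * (2 : ℝ) ^ (-(x₀ * X))} ≤ ε) :
    ∃ j : ℕ, (j + 1) * ⌊κ * X⌋₊ ≤ X ∧ ∃ E : Ω → Prop, ϖ ≤ Pe q E ∧
      (1 - c) * ⌊κ * X⌋₊ * Real.log 2 <
        CH (Pool.Agent.H49.Ent.cond q E True) (dg ((j + 1) * ⌊κ * X⌋₊) nu)
          (fun ω => (dg (j * ⌊κ * X⌋₊) nu ω, T ω)) := by
  classical
  by_contra hcon
  push Not at hcon
  have hq := hd.law
  have h0 := hq.nonneg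
  have det : ∀ {x : Ω → ℝ}, Det q (fun ω => ((), L ω)) x → Det q L x := fun h ω ω' a b e =>
    h ω ω' a b (Prod.ext rfl e)
  have detT : ∀ {x : Ω → ℝ}, Det q (fun ω => ((), T ω)) x → Det q T x := fun h ω ω' a b e =>
    h ω ω' a b (Prod.ext rfl e)
  obtain ⟨fy, hfy⟩ := exists_fun (det hd.dy)
  obtain ⟨fom, hfom⟩ := exists_fun (det hd.dom)
  obtain ⟨fbe, hfbe⟩ := exists_fun (det hd.dbe)
  obtain ⟨fm, hfm⟩ := exists_fun (det hd.dm0)
  obtain ⟨fth, hfth⟩ := exists_fun (detT hd.dth)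
  obtain ⟨fS, hfS⟩ := exists_fun (detT hd.dS)
  have h2X : (0 : ℝ) < 2 ^ X := by positivity
  have bnd : ∀ x : ℝ, |x - ⌊x⌋| ≤ 1 := fun x => by
    rw [abs_le]
    have := Int.floor_le x
    have := Int.lt_floor_add_one x
    constructor <;> linarith
  -- the values on the support
  have eth : ∀ ω, 0 < q ω → (mkD q L T fy fom fbe fth fS nu X).th (T ω) = th ω := by
    intro ω hω
    show (if 0 ≤ fth (T ω) ∧ fth (T ω) < 1 then fth (T ω) else 0) = th ω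
    rw [← hfth ω hω, if_pos (hd.hth ω hω)]
  have eS : ∀ ω, 0 < q ω → (mkD q L T fy fom fbe fth fS nu X).S (T ω) = S ω / 4 := by
    intro ω hω
    show (if |fS (T ω)| ≤ 4 then fS (T ω) / 4 else 0) = S ω / 4
    rw [← hfS ω hω, if_pos (hd.hS ω hω)]
  have ey : ∀ ω, 0 < q ω → (mkD q L T fy fom fbe fth fS nu X).yR (L ω) =
      ⌊(2 : ℝ) ^ X * (4 * y ω)⌋ / 2 ^ X := by
    intro ω hω
    show (⌊(2 : ℝ) ^ X * (4 * fy (L ω))⌋ : ℝ) / 2 ^ X = _
    rw [← hfy ω hω]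
  have eom : ∀ ω, 0 < q ω → (mkD q L T fy fom fbe fth fS nu X).omR (L ω) =
      ⌊(2 : ℝ) ^ X * (4 * om ω)⌋ / 2 ^ X := by
    intro ω hω
    show (⌊(2 : ℝ) ^ X * (4 * fom (L ω))⌋ : ℝ) / 2 ^ X = _
    rw [← hfom ω hω]
  have ebe : ∀ ω, 0 < q ω → (mkD q L T fy fom fbe fth fS nu X).beR (L ω) =
      ⌊(2 : ℝ) ^ X * be ω⌋ / 2 ^ X := by
    intro ω hω
    show (⌊(2 : ℝ) ^ X * fbe (L ω)⌋ : ℝ) / 2 ^ X = _
    rw [← hfbe ω hω]
  have sz : ∀ x : ℝ, 0 ≤ x → x < 4 → |(⌊(2 : ℝ) ^ X * x⌋ : ℝ) / 2 ^ X| ≤ 2 ^ 2 := by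
    intro x hx hx'
    have a1 : (0 : ℝ) ≤ ⌊(2 : ℝ) ^ X * x⌋ := by
      exact_mod_cast Int.floor_nonneg.2 (by positivity)
    rw [abs_of_nonneg (div_nonneg a1 h2X.le), div_le_iff₀ h2X]
    have a2 := Int.floor_le ((2 : ℝ) ^ X * x)
    have a3 : (2 : ℝ) ^ X * x ≤ 2 ^ X * 4 := mul_le_mul_of_nonneg_left hx'.le h2X.le
    linarith only [a2, a3]
  have hok : (mkD q L T fy fom fbe fth fS nu X).OK 2 := by
    refine ⟨hq, ?_, ?_, ?_, ?_, ?_, ?_, ?_⟩
    · intro ω hω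
      rw [show (mkD q L T fy fom fbe fth fS nu X).L ω = L ω from rfl, ey ω hω]
      obtain ⟨a1, a2⟩ := hd.hy ω hω
      exact sz _ (by linarith only [a1]) (by linarith only [a2])
    · intro ω hω
      rw [show (mkD q L T fy fom fbe fth fS nu X).L ω = L ω from rfl, eom ω hω]
      obtain ⟨a1, a2⟩ := hd.hom ω hω
      exact sz _ (by linarith only [a1]) (by linarith only [a2])
    · intro ω hω
      rw [show (mkD q L T fy fom fbe fth fS nu X).L ω = L ω from rfl, ebe ω hω]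
      obtain ⟨a1, a2⟩ := hd.hbe ω hω
      exact sz _ a1 (by linarith only [a2])
    · intro ω ω' a b e
      have e1 : L ω = L ω' := (Prod.ext_iff.mp e).1
      have e2 : T ω = T ω' := (Prod.ext_iff.mp e).2
      show ⌊(2 : ℝ) ^ X * nu ω⌋ = ⌊(2 : ℝ) ^ X * nu ω'⌋
      rw [hd.hnu ω a, hd.hnu ω' b, hfy ω a, hfy ω' b, hfom ω a, hfom ω' b, hfbe ω a, hfbe ω' b,
        hfm ω a, hfm ω' b, hfth ω a, hfth ω' b, hfS ω a, hfS ω' b, e1, e2]
    · intro t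
      show 0 ≤ (if 0 ≤ fth t ∧ fth t < 1 then fth t else 0) ∧
        (if 0 ≤ fth t ∧ fth t < 1 then fth t else 0) < 1
      by_cases h : 0 ≤ fth t ∧ fth t < 1
      · rw [if_pos h]
        exact h
      · rw [if_neg h]
        exact ⟨le_rfl, one_pos⟩
    · intro t
      show |(if |fS t| ≤ 4 then fS t / 4 else 0)| ≤ 1
      by_cases h : |fS t| ≤ 4
      · rw [if_pos h, abs_div, abs_of_pos (by norm_num : (0 : ℝ) < 4),
          div_le_one (by norm_num)]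
        exact h
      · rw [if_neg h, abs_zero]
        exact zero_le_one
    · intro ω ω' a b e
      have e1 : L ω = L ω' := e
      show |((⌊(2 : ℝ) ^ X * nu ω'⌋ : ℝ) - ⌊(2 : ℝ) ^ X * nu ω⌋) - 2 ^ X *
        (((mkD q L T fy fom fbe fth fS nu X).th (T ω') -
          (mkD q L T fy fom fbe fth fS nu X).th (T ω)) *
          (mkD q L T fy fom fbe fth fS nu X).beR (L ω) -
        ((mkD q L T fy fom fbe fth fS nu X).S (T ω') -
          (mkD q L T fy fom fbe fth fS nu X).S (T ω)) *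
          (mkD q L T fy fom fbe fth fS nu X).yR (L ω) -
        ((mkD q L T fy fom fbe fth fS nu X).S (T ω') *
          (mkD q L T fy fom fbe fth fS nu X).th (T ω') -
          (mkD q L T fy fom fbe fth fS nu X).S (T ω) *
          (mkD q L T fy fom fbe fth fS nu X).th (T ω)) *
          (mkD q L T fy fom fbe fth fS nu X).omR (L ω))| ≤ 8
      rw [eth ω a, eth ω' b, eS ω a, eS ω' b, ey ω a, eom ω a, ebe ω a]
      have c1 := hd.hnu ω a
      have c2 := hd.hnu ω' b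
      have d1 : y ω' = y ω := by rw [hfy ω a, hfy ω' b, e1]
      have d2 : om ω' = om ω := by rw [hfom ω a, hfom ω' b, e1]
      have d3 : be ω' = be ω := by rw [hfbe ω a, hfbe ω' b, e1]
      have d4 : m0 ω' = m0 ω := by rw [hfm ω a, hfm ω' b, e1]
      rw [d1, d2, d3, d4] at c2
      obtain ⟨t1, t1'⟩ := hd.hth ω a
      obtain ⟨t2, t2'⟩ := hd.hth ω' b
      have s1 := hd.hS ω a
      have s2 := hd.hS ω' b
      have n1 := bnd ((2 : ℝ) ^ X * nu ω)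
      have n2 := bnd ((2 : ℝ) ^ X * nu ω')
      have n3 := bnd ((2 : ℝ) ^ X * be ω)
      have n4 := bnd ((2 : ℝ) ^ X * (4 * y ω))
      have n5 := bnd ((2 : ℝ) ^ X * (4 * om ω))
      exact hZ_aux h2X c1 c2 t1 t1' t2 t2' s1 s2 n1 n2 n3 n4 n5
  have gy : ∀ ω, 0 < q ω → (mkD q L T fy fom fbe fth fS nu X).y (L ω) = dg X (fun v => 4 * y v) ω :=
    fun ω hω => by
      show ⌊(2 : ℝ) ^ X * (4 * fy (L ω))⌋ = ⌊(2 : ℝ) ^ X * (4 * y ω)⌋
      rw [← hfy ω hω]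
  have gom : ∀ ω, 0 < q ω → (mkD q L T fy fom fbe fth fS nu X).om (L ω) =
      dg X (fun v => 4 * om v) ω :=
    fun ω hω => by
      show ⌊(2 : ℝ) ^ X * (4 * fom (L ω))⌋ = ⌊(2 : ℝ) ^ X * (4 * om ω)⌋
      rw [← hfom ω hω]
  have gbe : ∀ ω, 0 < q ω → (mkD q L T fy fom fbe fth fS nu X).be (L ω) = dg X be ω :=
    fun ω hω => by
      show ⌊(2 : ℝ) ^ X * fbe (L ω)⌋ = ⌊(2 : ℝ) ^ X * be ω⌋
      rw [← hfbe ω hω]
  have four : ∀ (x : Ω → ℝ) (ω : Ω), dg X (fun v => 4 * x v) ω / 4 = dg X x ω := by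
    intro x ω
    show ⌊(2 : ℝ) ^ X * (4 * x ω)⌋ / 4 = ⌊(2 : ℝ) ^ X * x ω⌋
    have e : (2 : ℝ) ^ X * (4 * x ω) = 4 * (2 ^ X * x ω) := by ring
    rw [e]
    exact floor_four_div _
  have four' : ∀ (x : Ω → ℝ) (ω : Ω), dg X (fun v => 4 * x v) ω ∈
      Finset.Ico (4 * dg X x ω) (4 * dg X x ω + 4) := by
    intro x ω
    rw [Finset.mem_Ico]
    have h := floor_four ((2 : ℝ) ^ X * x ω)
    have e : (4 : ℝ) * (2 ^ X * x ω) = 2 ^ X * (4 * x ω) := by ring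
    rw [e] at h
    exact h
  have card4 : ∀ x : ℤ, (Finset.Ico (4 * x) (4 * x + 4)).card = 4 := by
    intro x
    rw [Int.card_Ico]
    have : 4 * x + 4 - 4 * x = 4 := by ring
    rw [this]
    rfl
  refine hOC _ hok hX h1 ?_ ?_ ?_ ?_ ?_ ?_
  · -- the time
    refine le_trans (le_of_eq ?_) h1'
    exact Finset.sum_congr rfl fun i _ => OCG.nr_congr h0 L (fun ω hω => eth ω hω) k' i
  · -- H2
    show Pool.KVA.MI q (dg X nu) (fun ω => ((mkD q L T fy fom fbe fth fS nu X).y (L ω),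
      (mkD q L T fy fom fbe fth fS nu X).om (L ω), (mkD q L T fy fom fbe fth fS nu X).be (L ω)))
      T ≤ ι * X
    have k1 := CH_chain h0 (dg X nu) (fun ω => ((mkD q L T fy fom fbe fth fS nu X).y (L ω),
      (mkD q L T fy fom fbe fth fS nu X).om (L ω), (mkD q L T fy fom fbe fth fS nu X).be (L ω))) T
    have k2 : CH q (dg X nu) (fun ω => (((mkD q L T fy fom fbe fth fS nu X).y (L ω),
        (mkD q L T fy fom fbe fth fS nu X).om (L ω),
        (mkD q L T fy fom fbe fth fS nu X).be (L ω)), T ω)) =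
        CH q (dg X nu) (fun ω => ((dg X (fun v => 4 * y v) ω, (dg X (fun v => 4 * om v) ω,
          dg X be ω)), T ω)) := by
      refine CH_eq_of h0 (fun _ _ => rfl) fun ω hω => ?_
      rw [gy ω hω, gom ω hω, gbe ω hω]
    have k3 := CH_le_add h0 (dg X nu) (fun ω => (dg X (fun v => 4 * y v) ω,
      (dg X (fun v => 4 * om v) ω, dg X be ω)))
      (fun ω => ((dg X y ω, (dg X om ω, dg X be ω)), T ω))
    have k4 : CH q (dg X nu) (fun ω => ((dg X (fun v => 4 * y v) ω,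
        (dg X (fun v => 4 * om v) ω, dg X be ω)),
        ((dg X y ω, (dg X om ω, dg X be ω)), T ω))) ≤
        CH q (dg X nu) (fun ω => ((dg X (fun v => 4 * y v) ω, (dg X (fun v => 4 * om v) ω,
          dg X be ω)), T ω)) :=
      CH_mono_cond h0 fun ω ω' _ _ e => Prod.ext (Prod.ext_iff.mp e).1
        (Prod.ext_iff.mp (Prod.ext_iff.mp e).2).2
    have k5 : CH q (fun ω => (dg X (fun v => 4 * y v) ω,
        (dg X (fun v => 4 * om v) ω, dg X be ω)))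
        (fun ω => ((dg X y ω, (dg X om ω, dg X be ω)), T ω)) ≤ 4 * Real.log 2 := by
      refine (CH_le_card h0 hq.sum_one _ _ (fun v => (Finset.Ico (4 * v.1.1) (4 * v.1.1 + 4)) ×ˢ
        ((Finset.Ico (4 * v.1.2.1) (4 * v.1.2.1 + 4)) ×ˢ ({v.1.2.2} : Finset ℤ))) ?_).trans ?_
      · intro ω _
        rw [Finset.mem_product, Finset.mem_product, Finset.mem_singleton]
        exact ⟨four' y ω, four' om ω, rfl⟩
      · refine le_of_eq ?_
        simp only [Finset.card_product, card4, Finset.card_singleton]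
        rw [Ex_const hq.sum_one]
        have : (((4 * (4 * 1) : ℕ)) : ℝ) = 2 ^ 4 := by norm_num
        rw [this, Real.log_pow]
        push_cast
        ring
    unfold Pool.KVA.MI
    rw [k1, k2]
    linarith only [hXι, h2, k3, k4, k5]
  · -- H3
    show (1 - ι₃) * X * Real.log 2 ≤ CH q (fun ω => (mkD q L T fy fom fbe fth fS nu X).y (L ω))
      (fun ω => (mkD q L T fy fom fbe fth fS nu X).om (L ω))
    rw [CH_eq_of h0 gy gom]
    have k1 : CH q (dg X y) (dg X (fun v => 4 * om v)) ≤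
        CH q (dg X (fun v => 4 * y v)) (dg X (fun v => 4 * om v)) :=
      CH_mono_left h0 fun ω ω' _ _ e => by
        have e' : dg X (fun v => 4 * y v) ω = dg X (fun v => 4 * y v) ω' := (Prod.ext_iff.mp e).1
        rw [← four y ω, ← four y ω', e']
    have k2 := CH_le_add h0 (dg X y) (dg X (fun v => 4 * om v)) (dg X om)
    have k3 : CH q (dg X y) (fun ω => (dg X (fun v => 4 * om v) ω, dg X om ω)) ≤
        CH q (dg X y) (dg X (fun v => 4 * om v)) :=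
      CH_mono_cond h0 fun ω ω' _ _ e => (Prod.ext_iff.mp e).1
    have k4 : CH q (dg X (fun v => 4 * om v)) (dg X om) ≤ 2 * Real.log 2 := by
      refine (CH_le_card h0 hq.sum_one _ _ (fun v => Finset.Ico (4 * v) (4 * v + 4)) ?_).trans ?_
      · intro ω _
        exact four' om ω
      · refine le_of_eq ?_
        simp only [card4]
        rw [Ex_const hq.sum_one]
        have : ((4 : ℕ) : ℝ) = 2 ^ 2 := by norm_num
        rw [this, Real.log_pow]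
        push_cast
        ring
    have k5 : 0 < Real.log 2 := Real.log_pos (by norm_num)
    have k6 : 4 * Real.log 2 ≤ ι₃ * X * Real.log 2 := mul_le_mul_of_nonneg_right hXι' k5.le
    linarith only [h3, k1, k2, k3, k4, k6]
  · -- H4
    show ca * X * Real.log 2 ≤ H q (fun ω => (mkD q L T fy fom fbe fth fS nu X).om (L ω))
    refine h4.trans (H_mono h0 fun ω ω' a b e => ?_)
    have e' : dg X (fun v => 4 * om v) ω = dg X (fun v => 4 * om v) ω' := by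
      rw [← gom ω a, ← gom ω' b]
      exact e
    rw [← four om ω, ← four om ω', e']
  · -- H5
    intro j hj E hE
    have k1 := hcon j hj (fun ω => ω ∈ E) hE
    refine le_trans (le_of_eq ?_) k1
    have hj' : j * ⌊κ * X⌋₊ ≤ X := le_trans (Nat.mul_le_mul_right _ (Nat.le_succ j)) hj
    have r1 : (mkD q L T fy fom fbe fth fS nu X).row ((j + 1) * ⌊κ * X⌋₊) =
        dg ((j + 1) * ⌊κ * X⌋₊) nu := by
      funext ω
      exact floor_row hj (nu ω)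
    have r2 : (mkD q L T fy fom fbe fth fS nu X).row (j * ⌊κ * X⌋₊) = dg (j * ⌊κ * X⌋₊) nu := by
      funext ω
      exact floor_row hj' (nu ω)
    show CH (Pool.Agent.H49.Ent.cond q (fun ω => ω ∈ E) True)
      ((mkD q L T fy fom fbe fth fS nu X).row ((j + 1) * ⌊κ * X⌋₊))
      (fun ω => ((mkD q L T fy fom fbe fth fS nu X).row (j * ⌊κ * X⌋₊) ω, T ω)) = _
    rw [r1, r2]
  · -- H6
    refine le_trans ?_ h6
    refine Pr_le_of (fun w => glue_nonneg h0 h0 w) fun w hw hE => ?_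
    obtain ⟨a, b, -⟩ := (glue_pos_iff h0 h0 w).1 hw
    have hE' : |(mkD q L T fy fom fbe fth fS nu X).S (T w.1) -
      (mkD q L T fy fom fbe fth fS nu X).S (T w.2)| < (2 : ℝ) ^ (-(x₀ * X)) := hE
    rw [eS _ a, eS _ b, ← sub_div, abs_div, abs_of_pos (by norm_num : (0 : ℝ) < 4),
      div_lt_iff₀ (by norm_num)] at hE'
    show |S w.1 - S w.2| < 4 * (2 : ℝ) ^ (-(x₀ * X))
    linarith only [hE']


theorem ocbt_thm : OCBTStmt := by
  classical
  intro c ca hc hca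
  have hl2 : 0 < Real.log 2 := Real.log_pos (by norm_num)
  have hl21 : Real.log 2 ≤ 1 := by
    have := Real.log_two_lt_d9
    linarith only [hl2, this]
  obtain ⟨ca1, hca1⟩ : ∃ ca1, ca1 = min ca 1 := ⟨_, rfl⟩
  have hca1p : 0 < ca1 := by rw [hca1]; exact lt_min hca one_pos
  have hca1c : ca1 ≤ ca := by rw [hca1]; exact min_le_left _ _
  obtain ⟨x₁, κ, ε₀, ι₃, εT, hx₁, hκ, hκ1, hε₀, hι₃, hεT, hOC'⟩ :=
    oct_thm 2 c (ca1 / 2) hc (by positivity)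
  refine ⟨x₁ / 2, κ, ε₀ * ca1 / 64, ι₃ * ca1 / 64, εT * ca1 / 64, by positivity, hκ, hκ1,
    by positivity, by positivity, by positivity, ?_⟩
  intro k'
  obtain ⟨ϖ₀, ι₀, X₁, hϖ₀, hι₀, hOC'⟩ := hOC' k'
  obtain ⟨M, hM⟩ := exists_nat_gt (8 / ι₀ + 4 / ι₃ + 4 / x₁ + 2 / κ + 1)
  refine ⟨ϖ₀ * (ca1 / 4) * (κ / 2), ι₀ * ca1 / 64, max X₁ M, by positivity, by positivity, ?_⟩
  intro Ω β Λ Θ _ p b L T y om be m0 th S nu X hd hX h1 h1' h2 h3 h4 h5 h6
  have hXX : X₁ ≤ X := (le_max_left _ _).trans hX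
  have hXM : (M : ℝ) ≤ X := by exact_mod_cast (le_max_right _ _).trans hX
  have hp := hd.law
  have h0 := hp.nonneg
  have q1 : 0 < 8 / ι₀ := by positivity
  have q0 : 0 < 4 / ι₃ := by positivity
  have q2 : 0 < 4 / x₁ := by positivity
  have q3 : 0 < 2 / κ := by positivity
  have hXpos : (0 : ℝ) < X := by linarith only [hM, hXM, q1, q0, q2, q3]
  have r1 : 8 ≤ ι₀ * X := by
    have : 8 / ι₀ ≤ X := by linarith only [hM, hXM, q0, q2, q3]
    rw [div_le_iff₀ hι₀] at this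
    linarith only [this]
  have r0 : 4 ≤ ι₃ * X := by
    have : 4 / ι₃ ≤ X := by linarith only [hM, hXM, q1, q2, q3]
    rw [div_le_iff₀ hι₃] at this
    linarith only [this]
  have r2 : 4 ≤ x₁ * X := by
    have : 4 / x₁ ≤ X := by linarith only [hM, hXM, q1, q0, q3]
    rw [div_le_iff₀ hx₁] at this
    linarith only [this]
  have r3 : 2 ≤ κ * X := by
    have : 2 / κ ≤ X := by linarith only [hM, hXM, q1, q0, q2]
    rw [div_le_iff₀ hκ] at this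
    linarith only [this]
  -- the number of blocks
  obtain ⟨h, hh⟩ : ∃ h, h = ⌊κ * X⌋₊ := ⟨_, rfl⟩
  have hh1 : (h : ℝ) ≤ κ * X := by rw [hh]; exact Nat.floor_le (by positivity)
  have hh2 : κ * X / 2 ≤ h := by
    have : κ * X < h + 1 := by rw [hh]; exact Nat.lt_floor_add_one _
    linarith only [r3, this]
  have hhpos : 0 < h := by
    have : (0 : ℝ) < h := by linarith only [r3, hh2]
    exact_mod_cast this
  -- the laws of the contexts
  obtain ⟨cd, hcd⟩ : ∃ cd : β → Ω → ℝ, cd = fun z => Pool.Agent.H49.Ent.cond p b z := ⟨_, rfl⟩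
  have hcl : ∀ ω, 0 < p ω → IsLaw (cd (b ω)) := fun ω hω => by
    rw [hcd]; exact Uni.isLaw_cond' h0 b (law_pos h0 b hω)
  have hcp : ∀ ω, 0 < p ω → ∀ v, 0 < cd (b ω) v → 0 < p v := fun ω hω v hv => by
    rw [hcd] at hv
    exact ((cond_pos_iff h0 b (b ω) v).1 hv).1
  obtain ⟨F1, hF1⟩ : ∃ F1 : β → ℝ, F1 = fun z => Pool.KVA.MI (cd z) T L (fun _ => ()) :=
    ⟨_, rfl⟩
  obtain ⟨F2, hF2⟩ : ∃ F2 : β → ℝ, F2 = fun z => ∑ i ∈ range X, nr (cd z) L th k' i := ⟨_, rfl⟩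
  obtain ⟨F3, hF3⟩ : ∃ F3 : β → ℝ, F3 = fun z => CH (cd z) (Uni.dg X nu) T -
    CH (cd z) (Uni.dg X nu) (fun ω => ((Uni.dg X y ω, (Uni.dg X om ω, Uni.dg X be ω)), T ω)) :=
    ⟨_, rfl⟩
  obtain ⟨F4, hF4⟩ : ∃ F4 : β → ℝ, F4 = fun z => X * Real.log 2 -
    CH (cd z) (Uni.dg X y) (Uni.dg X om) := ⟨_, rfl⟩
  obtain ⟨F6, hF6⟩ : ∃ F6 : β → ℝ, F6 = fun z => Pool.KAF.Pr (dbl (cd z) L)
    {w | |S w.1 - S w.2| < 4 * (2 : ℝ) ^ (-(x₁ * X))} := ⟨_, rfl⟩
  obtain ⟨Gf, hGf⟩ : ∃ Gf : β → ℝ, Gf = fun z => CH (cd z) (Uni.dg X om) (fun _ => ()) :=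
    ⟨_, rfl⟩
  -- the means
  have m1 : Ex p (fun ω => F1 (b ω)) ≤ ι₀ * ca1 / 64 * X := by
    rw [hF1, hcd]
    exact (le_of_eq (Uni.Ex_MI h0 b T L)).trans h1
  have m2 : Ex p (fun ω => F2 (b ω)) ≤ εT * ca1 / 64 * X := by
    rw [hF2, hcd]
    refine le_trans (le_of_eq ?_) h1'
    have e1 : Ex p (fun ω => ∑ i ∈ range X, nr (Pool.Agent.H49.Ent.cond p b (b ω)) L th k' i) =
        ∑ i ∈ range X, Ex p (fun ω => nr (Pool.Agent.H49.Ent.cond p b (b ω)) L th k' i) := by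
      unfold Ex
      rw [Finset.sum_comm]
      refine Finset.sum_congr rfl fun ω _ => ?_
      rw [Finset.mul_sum]
    rw [e1]
    exact Finset.sum_congr rfl fun i _ => Ex_nr h0 L b th k' i
  have m3 : Ex p (fun ω => F3 (b ω)) ≤ ι₀ * ca1 / 64 * X := by
    rw [hF3, hcd]
    refine le_trans (le_of_eq ?_) h2
    show Ex p (fun ω => CH (Pool.Agent.H49.Ent.cond p b (b ω)) (Uni.dg X nu) T -
      CH (Pool.Agent.H49.Ent.cond p b (b ω)) (Uni.dg X nu)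
        (fun ω => ((Uni.dg X y ω, (Uni.dg X om ω, Uni.dg X be ω)), T ω))) = _
    rw [Ex_sub, Uni.Ex_swap h0, Uni.Ex_swap' h0 b (Uni.dg X nu)
      (fun ω => (Uni.dg X y ω, (Uni.dg X om ω, Uni.dg X be ω))) T]
  have m4 : Ex p (fun ω => F4 (b ω)) ≤ ι₃ * ca1 / 64 * X * Real.log 2 := by
    rw [hF4, hcd]
    have e1 : Ex p (fun ω => X * Real.log 2 - CH (Pool.Agent.H49.Ent.cond p b (b ω))
        (Uni.dg X y) (Uni.dg X om)) =
        X * Real.log 2 - CH p (Uni.dg X y) (fun ω => (Uni.dg X om ω, b ω)) := by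
      rw [Ex_sub, Ex_const hp.sum_one, Pool.KX.JBG.Ex_CH h0 (Uni.dg X y) (Uni.dg X om) b]
    refine (le_of_eq e1).trans ?_
    linarith only [h3]
  have m6 : Ex p (fun ω => F6 (b ω)) ≤ ε₀ * ca1 / 64 := by
    rw [hF6, hcd]
    refine (le_of_eq (Uni.Ex_Pr_dbl h0 L b
      (fun _ => {w | |S w.1 - S w.2| < 4 * (2 : ℝ) ^ (-(x₁ * X))}))).trans ?_
    refine le_trans ?_ h6
    refine Uni.Pr_le_of (fun w => glue_nonneg h0 h0 w) fun w _ hw => ?_
    have hw' : |S w.1 - S w.2| < 4 * (2 : ℝ) ^ (-(x₁ * X)) := hw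
    refine hw'.trans_le ?_
    have e1 : (4 : ℝ) * (2 : ℝ) ^ (-(x₁ * X)) = (2 : ℝ) ^ (2 + -(x₁ * X)) := by
      rw [Real.rpow_add (by norm_num)]
      norm_num
    rw [e1]
    refine Real.rpow_le_rpow_of_exponent_le (by norm_num) ?_
    linarith only [r2]
  have mG : ca1 * X * Real.log 2 ≤ Ex p (fun ω => Gf (b ω)) := by
    rw [hGf, hcd]
    refine le_trans ?_ (le_of_eq (Uni.Ex_unit h0 b (Uni.dg X om)).symm)
    refine le_trans ?_ h4
    exact mul_le_mul_of_nonneg_right (mul_le_mul_of_nonneg_right hca1c hXpos.le) hl2.le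
  -- the signs
  have n1 : ∀ ω, 0 < p ω → 0 ≤ F1 (b ω) := fun ω hω => by
    rw [hF1]
    have := CH_subadd (hcl ω hω).nonneg T L (fun _ => ())
    show 0 ≤ CH (cd (b ω)) T (fun _ => ()) + CH (cd (b ω)) L (fun _ => ()) -
      CH (cd (b ω)) (fun v => (T v, L v)) (fun _ => ())
    linarith only [this]
  have n2 : ∀ ω, 0 < p ω → 0 ≤ F2 (b ω) := fun ω hω => by
    rw [hF2]
    exact Finset.sum_nonneg fun i _ => nr_nonneg (hcl ω hω).nonneg L th k' i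
  have n3 : ∀ ω, 0 < p ω → 0 ≤ F3 (b ω) := fun ω hω => by
    rw [hF3]
    have : CH (cd (b ω)) (Uni.dg X nu)
        (fun v => ((Uni.dg X y v, (Uni.dg X om v, Uni.dg X be v)), T v)) ≤
        CH (cd (b ω)) (Uni.dg X nu) T :=
      CH_mono_cond (hcl ω hω).nonneg fun _ _ _ _ e => (Prod.ext_iff.mp e).2
    show 0 ≤ CH (cd (b ω)) (Uni.dg X nu) T - CH (cd (b ω)) (Uni.dg X nu)
      (fun v => ((Uni.dg X y v, (Uni.dg X om v, Uni.dg X be v)), T v))
    linarith only [this]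
  have n4 : ∀ ω, 0 < p ω → 0 ≤ F4 (b ω) := fun ω hω => by
    rw [hF4]
    have := Uni.dg_card (hcl ω hω) X (x := y) (fun v hv => hd.hy v (hcp ω hω v hv))
      (Uni.dg X om)
    show 0 ≤ X * Real.log 2 - CH (cd (b ω)) (Uni.dg X y) (Uni.dg X om)
    linarith only [this]
  have n6 : ∀ ω, 0 < p ω → 0 ≤ F6 (b ω) := fun ω hω => by
    rw [hF6]
    exact law_nonneg (fun w => glue_nonneg (hcl ω hω).nonneg (hcl ω hω).nonneg w) _ _
  have nG : ∀ ω, 0 < p ω → Gf (b ω) ≤ X * Real.log 2 := fun ω hω => by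
    rw [hGf]
    exact Uni.dg_card (hcl ω hω) X (x := om) (fun v hv => hd.hom v (hcp ω hω v hv)) _
  -- the good values
  obtain ⟨G, hG⟩ : ∃ G : β → Prop, G = fun z => F1 z ≤ ι₀ * X ∧ F2 z ≤ εT * X ∧
    F3 z ≤ ι₀ / 2 * X ∧ F4 z ≤ ι₃ / 2 * X * Real.log 2 ∧ F6 z ≤ ε₀ ∧
    ca1 / 2 * X * Real.log 2 ≤ Gf z := ⟨_, rfl⟩
  have hXl : 0 < X * Real.log 2 := by positivity
  have hGmass : ca1 / 4 ≤ Pe p (fun ω => G (b ω)) := by
    have p1 : Pe p (fun ω => ι₀ * X < F1 (b ω)) ≤ ca1 / 64 := by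
      refine (Uni.Pe_markov hp (fun ω => F1 (b ω)) n1 (by positivity)).trans ?_
      rw [div_le_iff₀ (by positivity)]
      linarith only [m1]
    have p2 : Pe p (fun ω => εT * X < F2 (b ω)) ≤ ca1 / 64 := by
      refine (Uni.Pe_markov hp (fun ω => F2 (b ω)) n2 (by positivity)).trans ?_
      rw [div_le_iff₀ (by positivity)]
      linarith only [m2]
    have p3 : Pe p (fun ω => ι₀ / 2 * X < F3 (b ω)) ≤ ca1 / 32 := by
      refine (Uni.Pe_markov hp (fun ω => F3 (b ω)) n3 (by positivity)).trans ?_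
      rw [div_le_iff₀ (by positivity)]
      linarith only [m3]
    have p4 : Pe p (fun ω => ι₃ / 2 * X * Real.log 2 < F4 (b ω)) ≤ ca1 / 32 := by
      refine (Uni.Pe_markov hp (fun ω => F4 (b ω)) n4 (by positivity)).trans ?_
      rw [div_le_iff₀ (by positivity)]
      linarith only [m4]
    have p6 : Pe p (fun ω => ε₀ < F6 (b ω)) ≤ ca1 / 64 := by
      refine (Uni.Pe_markov hp (fun ω => F6 (b ω)) n6 (by positivity)).trans ?_
      rw [div_le_iff₀ (by positivity)]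
      linarith only [m6]
    have pG : ca1 / 2 ≤ Pe p (fun ω => ca1 / 2 * X * Real.log 2 ≤ Gf (b ω)) := by
      refine le_trans (le_of_eq ?_) (Uni.Pe_reverse hp (fun ω => Gf (b ω)) hXl nG mG
        (by positivity))
      field_simp
      ring
    have hcov : Pe p (fun ω => ca1 / 2 * X * Real.log 2 ≤ Gf (b ω)) ≤
        Pe p (fun ω => G (b ω) ∨ (ι₀ * X < F1 (b ω) ∨ (εT * X < F2 (b ω) ∨
          (ι₀ / 2 * X < F3 (b ω) ∨ (ι₃ / 2 * X * Real.log 2 < F4 (b ω) ∨ ε₀ < F6 (b ω)))))) := by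
      refine Uni.Pe_le_of h0 fun ω _ hω => ?_
      by_cases c1 : ι₀ * X < F1 (b ω)
      · exact Or.inr (Or.inl c1)
      by_cases c2 : εT * X < F2 (b ω)
      · exact Or.inr (Or.inr (Or.inl c2))
      by_cases c3 : ι₀ / 2 * X < F3 (b ω)
      · exact Or.inr (Or.inr (Or.inr (Or.inl c3)))
      by_cases c4 : ι₃ / 2 * X * Real.log 2 < F4 (b ω)
      · exact Or.inr (Or.inr (Or.inr (Or.inr (Or.inl c4))))
      by_cases c6 : ε₀ < F6 (b ω)
      · exact Or.inr (Or.inr (Or.inr (Or.inr (Or.inr c6))))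
      left
      rw [hG]
      exact ⟨not_lt.mp c1, not_lt.mp c2, not_lt.mp c3, not_lt.mp c4, not_lt.mp c6, hω⟩
    have k1 := Uni.Pe_or_le h0 (fun ω => G (b ω)) (fun ω => (ι₀ * X < F1 (b ω) ∨
      (εT * X < F2 (b ω) ∨ (ι₀ / 2 * X < F3 (b ω) ∨
      (ι₃ / 2 * X * Real.log 2 < F4 (b ω) ∨ ε₀ < F6 (b ω))))))
    have k2 := Uni.Pe_or_le h0 (fun ω => ι₀ * X < F1 (b ω)) (fun ω =>
      (εT * X < F2 (b ω) ∨ (ι₀ / 2 * X < F3 (b ω) ∨
      (ι₃ / 2 * X * Real.log 2 < F4 (b ω) ∨ ε₀ < F6 (b ω)))))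
    have k3 := Uni.Pe_or_le h0 (fun ω => εT * X < F2 (b ω)) (fun ω =>
      (ι₀ / 2 * X < F3 (b ω) ∨ (ι₃ / 2 * X * Real.log 2 < F4 (b ω) ∨ ε₀ < F6 (b ω))))
    have k4 := Uni.Pe_or_le h0 (fun ω => ι₀ / 2 * X < F3 (b ω)) (fun ω =>
      (ι₃ / 2 * X * Real.log 2 < F4 (b ω) ∨ ε₀ < F6 (b ω)))
    have k5 := Uni.Pe_or_le h0 (fun ω => ι₃ / 2 * X * Real.log 2 < F4 (b ω))
      (fun ω => ε₀ < F6 (b ω))
    linarith only [hca1p, p1, p2, p3, p4, p6, pG, hcov, k1, k2, k3, k4, k5]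
  -- the events
  obtain ⟨n, hn⟩ : ∃ n, n = X / h := ⟨_, rfl⟩
  have hex : ∀ z, G z → 0 < law p b z → ∃ (r : Fin n) (E : Ω → Prop),
      ϖ₀ ≤ Pe (Pool.Agent.H49.Ent.cond p b z) E ∧
      (1 - c) * h * Real.log 2 < CH (Pool.Agent.H49.Ent.cond (Pool.Agent.H49.Ent.cond p b z) E True)
        (Uni.dg (((r : ℕ) + 1) * h) nu) (fun ω => (Uni.dg ((r : ℕ) * h) nu ω, T ω)) := by
    intro z hz hlz
    rw [hG] at hz
    obtain ⟨g1, g2, g3, g4, g6, gG⟩ := hz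
    rw [hF1, hcd] at g1
    rw [hF2, hcd] at g2
    rw [hF3, hcd] at g3
    rw [hF4, hcd] at g4
    rw [hF6, hcd] at g6
    rw [hGf, hcd] at gG
    have hq := Uni.isLaw_cond' h0 b hlz
    obtain ⟨j, hj, E, hE1, hE2⟩ := OCG.oc_one hOC' (Uni.OCData.cond hd hlz) hXX
      (by
        have : 8 * Real.log 2 ≤ 8 * 1 := mul_le_mul_of_nonneg_left hl21 (by norm_num)
        linarith only [hl21, r1])
      r0 g1 g2 g3
      (by
        have : X * Real.log 2 - CH (Pool.Agent.H49.Ent.cond p b z) (Uni.dg X y) (Uni.dg X om) ≤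
          ι₃ / 2 * X * Real.log 2 := g4
        linarith only [g4])
      (gG.trans (Pool.KX.JBG.CH_le_H' hq.nonneg hq.sum_one (Uni.dg X om) (fun _ => ()))) g6
    rw [← hh] at hj hE2
    have hjn : j < n := by
      rw [hn]
      exact (Nat.le_div_iff_mul_le hhpos).2 hj
    exact ⟨⟨j, hjn⟩, E, hE1, hE2⟩
  obtain ⟨r, A, hA1, hA2⟩ := Uni.union_event hp b G hϖ₀ (by positivity : 0 < ca1 / 4)
    ((1 - c) * h * Real.log 2) (fun (r : Fin n) => Uni.dg (((r : ℕ) + 1) * h) nu)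
    (fun (r : Fin n) ω => (Uni.dg ((r : ℕ) * h) nu ω, T ω)) hGmass hex
  have hrX : ((r : ℕ) + 1) * h ≤ X := by
    have h1 : (r : ℕ) + 1 ≤ X / h := by
      rw [← hn]
      exact r.2
    exact (Nat.le_div_iff_mul_le hhpos).1 h1
  have hnr : (0 : ℝ) < n := by
    have : 0 < n := lt_of_le_of_lt (Nat.zero_le _) r.2
    exact_mod_cast this
  have hn2 : (n : ℝ) ≤ 2 / κ := by
    have e1 : n * h ≤ X := by rw [hn]; exact Nat.div_mul_le_self X h
    have e2 : (n : ℝ) * h ≤ X := by exact_mod_cast e1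
    rw [le_div_iff₀ hκ]
    have e3 : (n : ℝ) * (κ * X / 2) ≤ X := (mul_le_mul_of_nonneg_left hh2 hnr.le).trans e2
    have e4 : (n : ℝ) * κ * X ≤ 2 * X := by linarith only [e3]
    exact le_of_mul_le_mul_right e4 hXpos
  have hPeA : ϖ₀ * (ca1 / 4) * (κ / 2) ≤ Pe p A := by
    refine le_trans ?_ hA1
    rw [le_div_iff₀ hnr]
    have e1 : (n : ℝ) * κ ≤ 2 := by
      rw [le_div_iff₀ hκ] at hn2
      exact hn2
    have e2 : ϖ₀ * (ca1 / 4) * ((n : ℝ) * κ) ≤ ϖ₀ * (ca1 / 4) * 2 :=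
      mul_le_mul_of_nonneg_left e1 (by positivity)
    linarith only [e2]
  have hfin := h5 (r : ℕ) (by rw [← hh]; exact hrX) A hPeA
  rw [← hh] at hfin
  have hqA : IsLaw (Pool.Agent.H49.Ent.cond p A True) :=
    isLaw_cond hp (lt_of_lt_of_le (by positivity) hPeA)
  have hsw : CH (Pool.Agent.H49.Ent.cond p A True) (Uni.dg (((r : ℕ) + 1) * h) nu)
      (fun ω => ((Uni.dg ((r : ℕ) * h) nu ω, T ω), b ω)) =
      CH (Pool.Agent.H49.Ent.cond p A True) (Uni.dg (((r : ℕ) + 1) * h) nu)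
      (fun ω => (Uni.dg ((r : ℕ) * h) nu ω, (b ω, T ω))) := by
    refine CH_congr hqA.nonneg ?_ ?_ ?_ ?_
    · intro ω ω' _ _ e
      exact (Prod.ext_iff.mp e).1
    · intro ω ω' _ _ e
      exact (Prod.ext_iff.mp e).1
    · intro ω ω' _ _ e
      have e1 := Prod.ext_iff.mp e
      have e2 := Prod.ext_iff.mp e1.1
      exact Prod.ext e2.1 (Prod.ext e1.2 e2.2)
    · intro ω ω' _ _ e
      have e1 := Prod.ext_iff.mp e
      have e2 := Prod.ext_iff.mp e1.2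
      exact Prod.ext (Prod.ext e1.1 e2.2) e2.1
  linarith only [hA2, hfin, hsw]

end Pool.OCG
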