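import Pool.Agent.H83.OCG.Rows
import Pool.Agent.H83.OCG.Time2
import Pool.Agent.H97.OC.Thm

/-!
# Theorem OC for arbitrary time laws

`OCTStmt`: theorem OC (`Pool.OC.oc_thm`) where the hypothesis that the digits of the time are full
given the line is replaced by a much weaker one: in the mean over the scales `i`, two samples of
one line and of one window of the scale `i` are not nearer than `2 ^ (-(i + k'))`, outside
probability `εT`. The number `εT` is chosen before `k'`, and so are the constants of the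
hypotheses (H3) and (H6) and the length `κ` of the blocks of (H5). `OCGStmt`: the same if most
windows of `K` digits of the time are live (the conditional law of the next `K` digits given the
line and the past of the time has no atom `> 1 - c'`).
-/

set_option autoImplicit false

namespace Pool.OCG

open Finset Real
open Pool.Agent.H49.Ent Pool.Agent.H32.Dense Pool.STK Pool.KAF Pool.OC

/-- The sum over the scales of the probabilities that two samples of one line and of one window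
of the scale `i` are nearer than `2 ^ (-(i + k'))`. -/
def TBt (d : Dat) (k' : ℕ) (ε : ℝ) : Prop :=
  ∑ i ∈ range d.X, nr d.P d.L (fun ω => d.th (d.T ω)) k' i ≤ ε * d.X

/-- Most windows of the time are live given the line. -/
def LVd (d : Dat) (K : ℕ) (c η : ℝ) : Prop := LV d.P d.L (fun ω => d.th (d.T ω)) d.X K c η

/-- The time distances from the sum over the scales. -/
theorem tim_gen (ε κ₂ : ℝ) (hε : 0 < ε) (hκ : 0 < κ₂) : ∃ ε₀ : ℝ, 0 < ε₀ ∧ ∀ k' : ℕ, ∃ X₀ : ℕ,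
    ∀ d : Dat, IsLaw d.P → X₀ ≤ d.X → TBt d k' ε₀ →
      TA d ⌊κ₂ * d.X⌋₊ ε ∧ TB d ⌊κ₂ * d.X⌋₊ k' ε := by
  refine ⟨ε * κ₂ / 64, by positivity, ?_⟩
  intro k'
  obtain ⟨X₀, hX₀⟩ := exists_nat_ge ((64 + 64 * k') / κ₂)
  refine ⟨X₀, fun d hd hX hL => ?_⟩
  have h0 := hd.nonneg
  set n : ℕ := ⌊κ₂ * d.X⌋₊ with hn
  have hX0 : (0 : ℝ) ≤ d.X := Nat.cast_nonneg _
  have hngt : κ₂ * d.X < n + 1 := Nat.lt_floor_add_one _
  have hXX : (64 + 64 * k') / κ₂ ≤ (d.X : ℝ) := hX₀.trans (by exact_mod_cast hX)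
  rw [div_le_iff₀ hκ] at hXX
  have hk0 : (0 : ℝ) ≤ k' := Nat.cast_nonneg _
  have hXp : (0 : ℝ) < κ₂ * d.X := by linarith only [hXX]
  have hnn : ∀ v, 0 ≤ nr d.P d.L (fun ω => d.th (d.T ω)) k' v := fun v => nr_nonneg h0 _ _ _ _
  constructor
  · intro i i' hi hi'
    have hg : (κ₂ * d.X / 16 : ℝ) ≤ (i' : ℝ) - k' - i := by
      have e1 : n < 4 * (i' - i) + 4 := by omega
      have e2 : (n : ℝ) < 4 * ((i' - i : ℕ) : ℝ) + 4 := by exact_mod_cast e1
      rw [Nat.cast_sub (by omega)] at e2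
      linarith only [hngt, hXX, e2]
    have hik : i + k' ≤ i' := by
      have : (i + k' : ℝ) ≤ i' := by
        have : 0 ≤ κ₂ * d.X / 16 := by positivity
        linarith only [hXX, hg]
      exact_mod_cast this
    have key := ta_of_nr hd d.L (fun ω => d.th (d.T ω)) hik
    have h1 : ∑ v ∈ Finset.Ico i (i' - k'), nr d.P d.L (fun ω => d.th (d.T ω)) k' v ≤
        ε * κ₂ / 64 * d.X := by
      refine le_trans (Finset.sum_le_sum_of_subset_of_nonneg ?_ fun v _ _ => hnn v) hL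
      intro v hv
      have := (Finset.mem_Ico.1 hv).2
      exact Finset.mem_range.2 (by omega)
    set P0 := Pr (dbl d.P (kp d.L (fun ω => d.th (d.T ω)) i))
      {w | |d.th (d.T w.2) - d.th (d.T w.1)| < (2 : ℝ) ^ (-(i' : ℤ))} with hP0
    have hP00 : 0 ≤ P0 := Pr_nonneg' (fun w => glue_nonneg h0 h0 w) _
    have h2 : κ₂ * d.X / 16 * P0 ≤ 3 * (ε * κ₂ / 64 * d.X) :=
      (mul_le_mul_of_nonneg_right hg hP00).trans (key.trans (by linarith only [h1]))
    show P0 ≤ ε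
    have h3 : κ₂ * d.X * P0 ≤ κ₂ * d.X * ε := by
      have : 0 ≤ κ₂ * d.X * ε := by positivity
      linarith only [h2, this]
    exact le_of_mul_le_mul_left h3 hXp
  · intro a b hab hb
    have hg : (κ₂ * d.X / 16 : ℝ) ≤ (b : ℝ) - a := by
      have e1 : n < 8 * (b - a) + 8 := by omega
      have e2 : (n : ℝ) < 8 * ((b - a : ℕ) : ℝ) + 8 := by exact_mod_cast e1
      rw [Nat.cast_sub (by omega)] at e2
      linarith only [hngt, hXX, e2]
    have h1 : ∑ v ∈ Finset.Ico a b, nr d.P d.L (fun ω => d.th (d.T ω)) k' v ≤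
        ε * κ₂ / 64 * d.X := by
      refine le_trans (Finset.sum_le_sum_of_subset_of_nonneg ?_ fun v _ _ => hnn v) hL
      intro v hv
      have := (Finset.mem_Ico.1 hv).2
      exact Finset.mem_range.2 (by omega)
    refine le_trans h1 ?_
    have h2 := mul_le_mul_of_nonneg_left hg hε.le
    have h3 : 0 ≤ ε * (κ₂ * d.X) := by positivity
    linarith only [h2, h3]

/-- Live windows give time distances. -/
theorem tbt_of_lv (ε : ℝ) (hε : 0 < ε) (K : ℕ) (c : ℝ) (hK : 1 ≤ K) (hc0 : 0 < c) (hc1 : c ≤ 1) :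
    ∃ k' X₀ : ℕ, ∀ (Ω Λ : Type) [Fintype Ω] (p : Ω → ℝ) (L : Ω → Λ) (θ : Ω → ℝ) (X : ℕ),
      IsLaw p → X₀ ≤ X → LV p L θ X K c (ε / 18) → ∑ i ∈ range X, nr p L θ k' i ≤ ε * X := by
  obtain ⟨M, hM⟩ : ∃ M : ℕ, (1 - c) ^ M < ε / 9 :=
    exists_pow_lt_of_lt_one (by positivity) (by linarith only [hc0])
  set M' : ℕ := M + 1 with hM'
  have hMM : (1 - c) ^ M' ≤ ε / 9 :=
    (pow_le_pow_of_le_one (by linarith only [hc1]) (by linarith only [hc0]) (by omega : M ≤ M')).trans hM.le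
  set k' : ℕ := (2 * M' + 1) * K with hk'
  obtain ⟨X₀, hX₀⟩ := exists_nat_ge (3 * k' / ε)
  refine ⟨k', X₀, fun Ω Λ _ p L θ X hp hX hL => ?_⟩
  have hXX : 3 * k' / ε ≤ (X : ℝ) := hX₀.trans (by exact_mod_cast hX)
  rw [div_le_iff₀ hε] at hXX
  have key := tb_gen hp L θ hK hc0.le hc1 hL (by omega : 1 ≤ M') (Nat.zero_le X) le_rfl
  have hX0 : (0 : ℝ) ≤ X := Nat.cast_nonneg _
  rw [Finset.range_eq_Ico]
  refine le_trans key ?_
  rw [← hk']
  have e1 : 3 * (1 - c) ^ M' * ((X : ℝ) - (0 : ℕ)) ≤ ε / 3 * X := by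
    push_cast
    rw [sub_zero]
    exact mul_le_mul_of_nonneg_right (by linarith only [hMM]) hX0
  linarith only [hXX, e1]

/-- GEO: heavy rows which are not hit are impossible. -/
def GEOStmt : Prop :=
  ∀ (A : ℕ) (ca u : ℝ), 0 < ca → 0 < u → u ≤ 1 → ∃ κ₂ κ π₁ x₀ ε ι₃ εT : ℝ, 0 < κ₂ ∧
    0 < κ ∧ κ ≤ 1 ∧ 0 < π₁ ∧ 0 < x₀ ∧ 0 < ε ∧ 0 < ι₃ ∧ 0 < εT ∧ ∀ k' : ℕ,
      ∃ (k k₁ : ℕ) (e : ℝ), 0 < e ∧ ∀ δ : ℝ, 0 < δ → ∃ (ι : ℝ) (X₀ : ℕ), 0 < ι ∧
      ∀ d : Dat, d.OK A → X₀ ≤ d.X → H1 d ι → TA d ⌊κ₂ * d.X⌋₊ εT → TB d ⌊κ₂ * d.X⌋₊ k' εT →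
        d.H3 ι₃ → d.H4 ca → d.H6 x₀ ε →
        ∀ J : d.Om → Set ℕ, J1 d J ⌊κ * d.X⌋₊ u π₁ → RowOK d J k k₁ e δ → False

/-- **GEO.** The geometric part from its rows. -/
theorem geo_of (hQ : QNTStmt) (hA : OCG.RWAStmt) (hB : OCG.RWBStmt) (hSA : SPRAStmt)
    (hN : NLCStmt) (hM : NMXStmt) (hAL : ALSStmt) (hL : LAMStmt) (hSB : OCG.SPRBStmt)
    (hF : Pool.OC.FINStmt) : OCG.GEOStmt := by
  intro A ca u hca hu hu1
  obtain ⟨ε8B, κ2B, h8B, hκ2B, hSB⟩ := hSB u ca hu hu1 hca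
  obtain ⟨ε8F, h8F, hF⟩ := hF u ca hu hu1 hca
  obtain ⟨ε9L, h9L, hL⟩ := hL u ε8F hu h8F
  obtain ⟨ε8A, h8A, hAL⟩ := hAL u (min ε9L ε8F) hu hu1 (lt_min h9L h8F)
  -- the common small number
  set εs : ℝ := min (min ε8A ε8B) (min ε8F ε9L) / 4 with hεs
  have hs0 : 0 < εs := by
    have := lt_min (lt_min h8A h8B) (lt_min h8F h9L)
    rw [hεs]; linarith only [this]
  have hsA : 4 * εs ≤ ε8A := by
    rw [hεs]; linarith only [min_le_left (min ε8A ε8B) (min ε8F ε9L), min_le_left ε8A ε8B]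
  have hsB : 4 * εs ≤ ε8B := by
    rw [hεs]; linarith only [min_le_left (min ε8A ε8B) (min ε8F ε9L), min_le_right ε8A ε8B]
  have hsF : 4 * εs ≤ ε8F := by
    rw [hεs]; linarith only [min_le_right (min ε8A ε8B) (min ε8F ε9L), min_le_left ε8F ε9L]
  have hsL : 4 * εs ≤ ε9L := by
    rw [hεs]; linarith only [min_le_right (min ε8A ε8B) (min ε8F ε9L), min_le_right ε8F ε9L]
  set ε₄ : ℝ := u * εs / 16 with hε4
  have h40 : 0 < ε₄ := by rw [hε4]; positivity
  obtain ⟨a, κ2A, ε8S, e0S, ha, hκ2A, h8S, he0S, hSA⟩ := hSA u ε₄ hu hu1 h40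
  set κ₂ : ℝ := min (min κ2A κ2B) (1 / 64) with hκ2
  have hκ20 : 0 < κ₂ := lt_min (lt_min hκ2A hκ2B) (by norm_num)
  have hκA : κ₂ ≤ κ2A := (min_le_left _ _).trans (min_le_left _ _)
  have hκB : κ₂ ≤ κ2B := (min_le_left _ _).trans (min_le_right _ _)
  have hκ64 : κ₂ ≤ 1 / 64 := min_le_right _ _
  set εT : ℝ := min εs (u / 32 * ε8S) with hεT
  have hT0 : 0 < εT := lt_min hs0 (by positivity)
  set π₁ : ℝ := min ε8S (εs / 4) with hπ1
  have hπ0 : 0 < π₁ := lt_min h8S (by positivity)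
  exact by
   set ι₃ : ℝ := min εs ε8S with hι₃
   have hι₃0 : 0 < ι₃ := lt_min hs0 h8S
   refine ⟨κ₂, κ₂ / 200, π₁, κ₂, εs, ι₃, εT, hκ20, by positivity, by linarith only [hκ20, hκ64], hπ0, hκ20, hs0,
     hι₃0, hT0, ?_⟩
   intro k'
   obtain ⟨b, k10B, n0B, e0B, he0B, hSB⟩ := hSB A a k'
   obtain ⟨k5, k10F, n0F, e0F, hk5, he0F, hF⟩ := hF A a b k'
   obtain ⟨k10A, n0A, e0A, he0A, hAL⟩ := hAL A a k' k5
   obtain ⟨k10S, n0S, hSA⟩ := hSA A k'
   set k₁ : ℕ := k10B + k10F + k10A + k10S + a + 4 with hk1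
   set e : ℝ := min (min (min e0S e0B) (min e0F e0A)) (u * εs / 16) with hedef
   have he0 : 0 < e := lt_min (lt_min (lt_min he0S he0B) (lt_min he0F he0A)) (by positivity)
   have heS : e ≤ e0S :=
     (min_le_left _ _).trans ((min_le_left _ _).trans (min_le_left _ _))
   have heB : e ≤ e0B :=
     (min_le_left _ _).trans ((min_le_left _ _).trans (min_le_right _ _))
   have heF : e ≤ e0F :=
     (min_le_left _ _).trans ((min_le_right _ _).trans (min_le_left _ _))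
   have heA : e ≤ e0A :=
     (min_le_left _ _).trans ((min_le_right _ _).trans (min_le_right _ _))
   have heu : e ≤ u * εs / 16 := min_le_right _ _
   refine ⟨a + 12, k₁, e, he0, ?_⟩
   intro δ hδ
   obtain ⟨X₀, hX₀⟩ := exists_large κ₂ δ (n0B + n0F + n0A + n0S + a + 1000) hκ20 hδ
   set ι : ℝ := min (δ / 3) εs with hι
   have hι0 : 0 < ι := lt_min (by positivity) hs0
   have hι1 : ι ≤ δ / 3 := min_le_left _ _
   have hι3 : ι ≤ εs := min_le_right _ _
   refine ⟨ι, X₀, hι0, ?_⟩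
   intro d hd hX h1 hTA hTB h3 h4 h6 J hJ1 hJ2
   exact by
    obtain ⟨hXa, hXb⟩ := hX₀ d.X hX
    set n : ℕ := ⌊κ₂ * d.X⌋₊ with hn
    set h : ℕ := ⌊κ₂ / 200 * d.X⌋₊ with hh
    have hX0 : (0 : ℝ) ≤ d.X := Nat.cast_nonneg _
    have hnle : (n : ℝ) ≤ κ₂ * d.X := Nat.floor_le (by positivity)
    have hngt : κ₂ * d.X < n + 1 := Nat.lt_floor_add_one _
    have hhle : (h : ℝ) ≤ κ₂ / 200 * d.X := Nat.floor_le (by positivity)
    have hhgt : κ₂ / 200 * d.X < h + 1 := Nat.lt_floor_add_one _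
    have hn1 : (n0B + n0F + n0A + n0S + a + 999 : ℝ) ≤ n := by linarith only [hXa, hngt]
    have hnall : n0B + n0F + n0A + n0S + a + 999 ≤ n := by exact_mod_cast hn1
    have hnX : 64 * n ≤ d.X := by
      have : (64 * n : ℝ) ≤ d.X := by
        have := mul_le_mul_of_nonneg_right hκ64 hX0
        linarith only [hnle, this]
      exact_mod_cast this
    have hh1 : 1 ≤ h := by
      have : (0 : ℝ) < h := by
        have : (5 : ℝ) ≤ κ₂ / 200 * d.X := by
          have h1 := Nat.cast_nonneg (α := ℝ) n0F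
          have h2 := Nat.cast_nonneg (α := ℝ) n0A
          have h3 := Nat.cast_nonneg (α := ℝ) n0S
          have h4 := Nat.cast_nonneg (α := ℝ) a
          have h5 := Nat.cast_nonneg (α := ℝ) n0B
          linarith only [hXa]
        linarith only [hκ20, hκ64, hXa, hhgt]
      exact_mod_cast this
    have hhn : 64 * h ≤ n := by
      have : (64 * h : ℝ) < n + 1 := by linarith only [hκ20, hκ64, hXa, hngt, hhle]
      have : 64 * h < n + 1 := by exact_mod_cast this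
      omega
    -- times
    exact by
     have hTs : εT ≤ εs := min_le_left _ _
     have hTS : εT ≤ u / 32 * ε8S := min_le_right _ _
     have h4n : ∀ i < n, Pr (d.Qp i) {w | |d.ta w| < (2 : ℝ) ^ (-(4 * n : ℤ))} ≤ εT := by
       intro i hi
       have := hTA i (4 * n) (by omega) (by omega)
       exact_mod_cast this
     -- the label
     obtain ⟨m, hm, hm1, hm2⟩ := hQ d A n (u / 32) εT hd (by omega) (by positivity) h4n
     have hS : Siz d n h m := ⟨hh1, hhn, hnX, fun l => (hm l).1, fun l => (hm l).2⟩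
     have hHm : H d.P (fun ω => m (d.L ω)) ≤ δ * d.X := by
       refine (H_label hd (by omega) m hm).trans (le_trans ?_ hXb)
       apply Real.log_le_log
       · have : (0 : ℝ) < n := by exact_mod_cast (by omega : 0 < n)
         positivity
       · exact_mod_cast (by omega : 7 * n ≤ d.X)
     have hRA := hA d A J m n (a + 12) k₁ e δ ι hd h1 (by linarith only [hι0, hι1]) hHm hJ2
     obtain ⟨hRB, hRB'⟩ := hB d A J m n (a + 12) k₁ e δ ι hd h1 (by linarith only [hι1]) hHm hJ2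
     -- stage A
     have hSP : SPR d m n a ε₄ := by
       refine hSA d J m n h (a + 12) k₁ e hd hS (by omega) (hnle.trans ?_) (by omega) (by omega)
         heS hRA (hJ1.mono (min_le_left _ _)) ?_ (hTB.mono ?_) (h3.mono (min_le_right _ _))
       · exact mul_le_mul_of_nonneg_right hκA hX0
       · refine hm1.trans ?_
         rw [div_le_iff₀ (by positivity)]
         linarith only [hTS]
       · refine hTS.trans ?_
         have : u / 32 ≤ 1 := by linarith only [hu1, hκ20, hκ64]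
         nlinarith only [h8S, hu1]
     have hNL : NLC d m n a εs := by
       refine (hN d A J m n h (a + 12) k₁ a e u π₁ ε₄ hd hS hu (by omega) (by omega) hRA hJ1
         hSP).mono ?_
       have h5 : π₁ ≤ εs / 4 := min_le_right _ _
       have h6 : 4 / u * (e + ε₄) ≤ εs / 2 := by
         rw [div_mul_eq_mul_div, div_le_iff₀ hu]
         rw [hε4]
         linarith only [heu]
       linarith only [hπ0, h5, h6]
     exact by
      have hMX : Pr d.P {ω | m (d.L ω) = 2 * n} ≤ εs + εs + εs := by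
        refine hM d A n a m κ₂ εs εs εs hd (by omega) ?_ h6 hNL ?_
        · have h5 : (a : ℝ) + 999 ≤ n := by
            exact_mod_cast (by omega : a + 999 ≤ n)
          linarith only [hκ20, hκ64, hXa, hngt]
        · exact (h4n 0 (by omega)).trans hTs
      have hε4A : ε₄ ≤ ε8A := by
        rw [hε4]
        have : u * εs ≤ 1 * εs := mul_le_mul_of_nonneg_right hu1 hs0.le
        linarith only [h8A, hsA, this]
      obtain ⟨Λ, hΛ⟩ := hAL d J m n h (a + 12) k₁ e hd hS (by omega) (by omega) (by omega) heA hRA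
        (hJ1.mono (by linarith only [hs0, hsA, min_le_right ε8S (εs / 4)])) (hSP.mono hε4A) (hNL.mono (by linarith only [hs0, hsA]))
        (hTA.mono (by linarith only [hs0, hsA, hTs])) (hTB.mono (by linarith only [hs0, hsA, hTs]))
      have h0 : Pr (d.Qp 0) {w | d.ta w = 0} ≤ ε9L := by
        refine le_trans ?_ ((h4n 0 (by omega)).trans (hTs.trans (by linarith only [hs0, hsL] : εs ≤ ε9L)))
        refine Pool.KAF.Pr_mono ?_ ?_
        · intro w
          unfold Dat.Qp dbl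
          exact glue_nonneg hd.law.nonneg hd.law.nonneg w
        · intro w _ hw
          have hw : d.ta w = 0 := hw
          show |d.ta w| < _
          rw [hw, abs_zero]
          positivity
      have hΛ2 := hL d A n k5 m Λ hd (by omega) hk5 (hΛ.mono (min_le_left _ _))
        (hMX.trans (by linarith only [hs0, hsL])) (fun l => (hm l).2) h0 hm2
      -- stage B
      have h1s : H1 d ε8B := by
        unfold H1 at h1 ⊢
        exact h1.trans (mul_le_mul_of_nonneg_right (by linarith only [hs0, hsB, hι3]) hX0)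
      exact by
       have hAB := hSB d J m n h (a + 12) k₁ e hd hS (by omega)
         (hnle.trans (mul_le_mul_of_nonneg_right hκB hX0)) (by omega) (by omega) heB hRB
         (hJ1.mono (by linarith only [hs0, hsB, min_le_right ε8S (εs / 4)])) (hNL.mono (by linarith only [hs0, hsB]))
         (hTA.mono (by linarith only [hs0, hsB, hTs])) (hTB.mono (by linarith only [hs0, hsB, hTs])) h1s
         (h3.mono ((min_le_left _ _).trans (by linarith only [hs0, hsB]))) h4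
       exact hF d J m n h (a + 12) k₁ e Λ hd hS (by omega) (by omega) (by omega) heF hRB hRB'
         (hJ1.mono (by linarith only [hs0, hsF, min_le_right ε8S (εs / 4)])) (hNL.mono (by linarith only [hs0, hsF]))
         (hTA.mono (by linarith only [hs0, hsF, hTs])) (hTB.mono (by linarith only [hs0, hsF, hTs])) (hΛ.mono (min_le_right _ _)) hΛ2 hAB

theorem geo_thm : OCG.GEOStmt :=
  geo_of qnt_thm OCG.rwa_thm OCG.rwb spra_thm nlc_thm nmx_thm als_thm lam_thm OCG.sprb_thm fin_thm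

/-- **Theorem OC, with the time distances as hypothesis.** -/
def OCTStmt : Prop :=
  ∀ (A : ℕ) (c ca : ℝ), 0 < c → 0 < ca → ∃ x₀ κ ε ι₃ εT : ℝ, 0 < x₀ ∧ 0 < κ ∧
    κ ≤ 1 ∧ 0 < ε ∧ 0 < ι₃ ∧ 0 < εT ∧ ∀ k' : ℕ, ∃ (π₀ ι : ℝ) (X₀ : ℕ), 0 < π₀ ∧ 0 < ι ∧
      ∀ d : Dat, d.OK A → X₀ ≤ d.X → H1 d ι → TBt d k' εT →
        d.H2 ι → d.H3 ι₃ → d.H4 ca → d.H5 c κ π₀ → d.H6 x₀ ε → False

/-- **Theorem OC for live windows.** -/
def OCGStmt : Prop :=
  ∀ (A : ℕ) (c ca : ℝ), 0 < c → 0 < ca → ∃ x₀ κ ε ι₃ η₀ : ℝ, 0 < x₀ ∧ 0 < κ ∧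
    κ ≤ 1 ∧ 0 < ε ∧ 0 < ι₃ ∧ 0 < η₀ ∧ ∀ (K : ℕ) (c' : ℝ), 1 ≤ K → 0 < c' → c' ≤ 1 →
      ∃ (π₀ ι : ℝ) (X₀ : ℕ), 0 < π₀ ∧ 0 < ι ∧
      ∀ d : Dat, d.OK A → X₀ ≤ d.X → H1 d ι → LVd d K c' η₀ →
        d.H2 ι → d.H3 ι₃ → d.H4 ca → d.H5 c κ π₀ → d.H6 x₀ ε → False

theorem oct_thm : OCTStmt := by
  intro A c ca hc hca
  obtain ⟨u, hu, hu1, hR⟩ := row_stmt_thm A c hc
  obtain ⟨κ₂, κ, π₁, x₀, ε, ι₃, εT, hκ2, hκ, hκ1, hπ, hx, hε, hι3, hT, hG⟩ :=
    OCG.geo_thm A ca u hca hu hu1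
  obtain ⟨ε₀, hε₀, hL⟩ := tim_gen εT κ₂ hT hκ2
  refine ⟨x₀, κ, ε, ι₃, ε₀, hx, hκ, hκ1, hε, hι3, hε₀, ?_⟩
  intro k'
  obtain ⟨X₃, hL⟩ := hL k'
  obtain ⟨k, k₁, e, he, hG⟩ := hG k'
  obtain ⟨δ, hδ, hR⟩ := hR k k₁ e he
  obtain ⟨π₀, X₁, hπ0, hR⟩ := hR κ π₁ hκ hκ1 hπ
  obtain ⟨ι, X₂, hι, hG⟩ := hG δ hδ
  refine ⟨π₀, min ι δ, max (max X₁ X₂) X₃, hπ0, lt_min hι hδ, ?_⟩
  intro d hd hX h1 ht h2 h3 h4 h5 h6
  obtain ⟨hTA, hTB⟩ := hL d hd.law ((le_max_right _ _).trans hX) ht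
  have hX1 : X₁ ≤ d.X := ((le_max_left _ _).trans (le_max_left _ _)).trans hX
  have hX2 : X₂ ≤ d.X := ((le_max_right _ _).trans (le_max_left _ _)).trans hX
  obtain ⟨J, hJ1, hJ2⟩ := hR d hd hX1 (h2.mono (min_le_right _ _)) h5
  have h1' : H1 d ι := by
    unfold H1 at h1 ⊢
    exact h1.trans (mul_le_mul_of_nonneg_right (min_le_left _ _) (Nat.cast_nonneg _))
  exact hG d hd hX2 h1' hTA hTB h3 h4 h6 J hJ1 hJ2

theorem ocg_thm : OCGStmt := by
  intro A c ca hc hca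
  obtain ⟨x₀, κ, ε, ι₃, εT, hx, hκ, hκ1, hε, hι3, hT, h⟩ := oct_thm A c ca hc hca
  refine ⟨x₀, κ, ε, ι₃, εT / 18, hx, hκ, hκ1, hε, hι3, by positivity, ?_⟩
  intro K c' hK hc0 hc1
  obtain ⟨k', X₁, hL⟩ := tbt_of_lv εT hT K c' hK hc0 hc1
  obtain ⟨π₀, ι, X₂, hπ, hι, h⟩ := h k'
  refine ⟨π₀, ι, max X₁ X₂, hπ, hι, ?_⟩
  intro d hd hX h1 hl h2 h3 h4 h5 h6
  exact h d hd ((le_max_right _ _).trans hX) h1
    (hL _ _ _ _ _ _ hd.law ((le_max_left _ _).trans hX) hl) h2 h3 h4 h5 h6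

end Pool.OCG
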