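import Pool.Agent.H83.OCG.OCB
import Pool.Agent.H97.OC.OCD

/-!
# Theorem OC for arbitrary time laws, in density form
-/

set_option autoImplicit false

namespace Pool.OCG

open Finset Real
open Pool.Agent.H49.Ent Pool.Agent.H32.Dense Pool.STK Pool.KA Pool.OC Pool.K2S

/-- The hypotheses of theorem OC on the position and on the frames, in the mean over the context
`b`, without the hypothesis on the rows; the hypothesis on the time is `nr`. -/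
structure OCHypT {Ω β Λ Θ : Type} [Fintype Ω] (p : Ω → ℝ) (b : Ω → β) (L : Ω → Λ) (T : Ω → Θ)
    (y om be th S nu : Ω → ℝ) (X k' : ℕ) (x₀ ι ι₃ ca ε εT : ℝ) : Prop where
  h1 : Pool.KVA.MI p T L b ≤ ι * X
  h1' : ∑ i ∈ range X, nr p (fun ω => (L ω, b ω)) th k' i ≤ εT * X
  h2 : CH p (Uni.dg X nu) (fun ω => (b ω, T ω)) -
    CH p (Uni.dg X nu) (fun ω => ((Uni.dg X y ω, (Uni.dg X om ω, Uni.dg X be ω)),
      (b ω, T ω))) ≤ ι * X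
  h3 : (1 - ι₃) * X * Real.log 2 ≤ CH p (Uni.dg X y) (fun ω => (Uni.dg X om ω, b ω))
  h4 : ca * X * Real.log 2 ≤ CH p (Uni.dg X om) b
  h6 : Pool.KAF.Pr (dbl p (fun ω => (L ω, b ω)))
    {w | |S w.1 - S w.2| < (2 : ℝ) ^ (-(x₀ * X))} ≤ ε

/-- **(OCD)** Theorem OC in density form. -/
def OCDTStmt : Prop :=
  ∀ (ε ca K : ℝ), 0 < ε → 0 < ca → 0 ≤ K → ∃ x₀ η ϖ ε₁ ι₃ εT : ℝ, 0 < x₀ ∧ 0 < η ∧
    0 < ϖ ∧ 0 < ε₁ ∧ 0 < ι₃ ∧ 0 < εT ∧ ∀ k' : ℕ, ∃ (ι : ℝ) (n₀ : ℕ), 0 < ι ∧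
    ∀ (Ω β Λ Θ : Type) [Fintype Ω] (p : Ω → ℝ) (b : ℕ → Ω → β) (L : Ω → Λ) (T : Ω → Θ)
      (y om be m0 S nu : ℕ → Ω → ℝ) (th : Ω → ℝ) (d X : ℕ), 1 ≤ d → n₀ * d ≤ X →
      (∀ r, d ∣ r → r ≤ X → OCData p (b r) L T (y r) (om r) (be r) (m0 r) th (S r) (nu r)) →
      (∀ r, d ∣ r → r ≤ X → Det p (fun ω => (b r ω, T ω)) (b 0)) →
      (∀ r, d ∣ r → r ≤ X → ∃ κ : Ω → ℝ, Det p (fun ω => (b r ω, T ω)) κ ∧
        ∀ ω, 0 < p ω → |2 ^ r * nu 0 ω - nu r ω - κ ω| * 2 ^ (X - r) ≤ K) →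
      (∀ r X' : ℕ, d ∣ r → d ∣ X' → η * X ≤ X' → r + X' ≤ X → ∀ A : Ω → Prop, ϖ ≤ Pe p A →
        OCHypT (Pool.Agent.H49.Ent.cond p A True) (b r) L T (y r) (om r) (be r) th (S r) (nu r)
          X' k' x₀ ι ι₃ ca ε₁ εT) →
      (1 - ε) * X * Real.log 2 ≤ CH p (Uni.dg X (nu 0)) (fun ω => (b 0 ω, T ω))

/-- **Theorem OC in density form.** -/
theorem ocdt_thm : OCDTStmt := by
  classical
  intro ε₀ ca K hε₀ hca hK
  obtain ⟨ε, hε⟩ : ∃ ε, ε = min ε₀ 1 := ⟨_, rfl⟩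
  have hεp : 0 < ε := by rw [hε]; exact lt_min hε₀ one_pos
  have hε1 : ε ≤ 1 := by rw [hε]; exact min_le_right _ _
  have hεε : ε ≤ ε₀ := by rw [hε]; exact min_le_left _ _
  obtain ⟨x₀, κ, ε₁, ι₃, εT, hx₀, hκ, hκ1, hε₁, hι₃, hεT, hOC⟩ :=
    ocbt_thm (ε / 32) ca (by positivity) hca
  obtain ⟨η, ϖ, n₁, hη, hϖ, hsel⟩ := Sel.sel ε κ hεp hε1 hκ
  refine ⟨x₀, η, ϖ, ε₁, ι₃, εT, hx₀, hη, hϖ, hε₁, hι₃, hεT, ?_⟩
  intro k'
  obtain ⟨ϖ₁, ι, X₁, hϖ₁, hι, hOC⟩ := hOC k'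
  obtain ⟨lK, hlK⟩ : ∃ lK, lK = Real.log (2 * (K + 2) + 1) := ⟨_, rfl⟩
  have hlK0 : 0 ≤ lK := by rw [hlK]; exact Real.log_nonneg (by linarith)
  obtain ⟨u, hu⟩ : ∃ u, u = Real.log 2 := ⟨_, rfl⟩
  have hu0 : 0 < u := by rw [hu]; exact Real.log_pos (by norm_num)
  -- the sizes of the sub-blocks
  obtain ⟨X₂, hX₂⟩ := exists_nat_ge ((X₁ + 2 / κ + 4 / κ * (64 * lK / (ε * u))) / η)
  refine ⟨ι, n₁ + X₂ + 1, hι, ?_⟩
  intro Ω β Λ Θ _ p b L T y om be m0 S nu th d X hd hX hdat hnest hlnk hhyp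
  have hXd : (n₁ + X₂ + 1) * d ≤ X := hX
  have hX1 : 1 ≤ X := by
    have : 1 * 1 ≤ (n₁ + X₂ + 1) * d := Nat.mul_le_mul (by omega) hd
    omega
  have hXX₂ : X₂ ≤ X := by
    have h1 : X₂ * 1 ≤ (n₁ + X₂ + 1) * d := Nat.mul_le_mul (by omega) hd
    omega
  have hXn₁ : n₁ * d ≤ X := (Nat.mul_le_mul_right d (by omega)).trans hXd
  have hXr : (0 : ℝ) < X := by exact_mod_cast hX1
  have hp : IsLaw p := (hdat 0 (dvd_zero _) (Nat.zero_le _)).law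
  by_contra hcon
  have hcon := not_le.1 hcon
  have hCH : CH p (Uni.dg X (nu 0)) (fun ω => (Uni.dg 0 (nu 0) ω, (b 0 ω, T ω))) ≤
      (1 - ε) * X * Real.log 2 := by
    have h1 : CH p (Uni.dg X (nu 0)) (fun ω => (Uni.dg 0 (nu 0) ω, (b 0 ω, T ω))) ≤
        CH p (Uni.dg X (nu 0)) (fun ω => (b 0 ω, T ω)) :=
      CH_mono_cond hp.nonneg fun ω ω' _ _ e => (Prod.ext_iff.mp e).2
    have h2 : (1 - ε₀) * X * Real.log 2 ≤ (1 - ε) * X * Real.log 2 := by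
      rw [← hu]
      exact mul_le_mul_of_nonneg_right (mul_le_mul_of_nonneg_right (by linarith) hXr.le) hu0.le
    linarith
  obtain ⟨r, X', A, hdr, hdX', hrX, hηX, hA, hq⟩ := hsel p (fun r => Uni.dg r (nu 0))
    (fun ω => (b 0 ω, T ω)) d X hp (Sel.nst_dg _) hd hX1 hXn₁ hCH
  have hrX' : r ≤ X := by omega
  have hApos : 0 < Pe p A := hϖ.trans_le hA
  have hqlaw : IsLaw (Pool.Agent.H49.Ent.cond p A True) := Uni.isLaw_cond' hp.nonneg A hApos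
  have hqA : ∀ ω, 0 < Pool.Agent.H49.Ent.cond p A True ω → 0 < p ω ∧ A ω := fun ω hω => by
    have := (cond_pos_iff hp.nonneg A True ω).1 hω
    exact ⟨this.1, of_eq_true this.2⟩
  obtain ⟨κf, hκf, hκb⟩ := hlnk r hdr hrX'
  have hH := hhyp r X' hdr hdX' hηX hrX A hA
  -- the size of the block
  have hX2r : (X₁ + 2 / κ + 4 / κ * (64 * lK / (ε * u))) / η ≤ X :=
    hX₂.trans (by exact_mod_cast hXX₂)
  rw [div_le_iff₀ hη] at hX2r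
  have hX'r : X₁ + 2 / κ + 4 / κ * (64 * lK / (ε * u)) ≤ (X' : ℝ) := by linarith
  have g1 : 0 ≤ 4 / κ * (64 * lK / (ε * u)) := by positivity
  have g2 : 0 < 2 / κ := by positivity
  have hX1' : X₁ ≤ X' := by
    have : (X₁ : ℝ) ≤ X' := by linarith
    exact_mod_cast this
  obtain ⟨h, hh⟩ : ∃ h, h = ⌊κ * X'⌋₊ := ⟨_, rfl⟩
  have hX'0 : (0 : ℝ) ≤ X' := Nat.cast_nonneg _
  have hκX : 2 ≤ κ * X' := by
    have : 2 / κ ≤ X' := by
      have : (0 : ℝ) ≤ X₁ := Nat.cast_nonneg _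
      linarith
    rw [div_le_iff₀ hκ] at this
    linarith
  have hhlo : κ * X' ≤ 2 * h := by
    have : κ * X' < h + 1 := by rw [hh]; exact Nat.lt_floor_add_one _
    linarith
  have hhbig : 64 * lK ≤ ε * (h * u) := by
    have h1 : 4 / κ * (64 * lK / (ε * u)) ≤ X' := by
      have : (0 : ℝ) ≤ X₁ := Nat.cast_nonneg _
      linarith
    rw [div_mul_eq_mul_div, div_le_iff₀ hκ] at h1
    have h2 : 64 * lK / (ε * u) ≤ h := by linarith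
    rw [div_le_iff₀ (by positivity)] at h2
    linarith
  refine hOC Ω β Λ Θ (Pool.Agent.H49.Ent.cond p A True) (b r) L T (y r) (om r) (be r) (m0 r) th
    (S r) (nu r) X' (Sel.OCData.mono_law (hdat r hdr hrX') hqlaw fun ω hω => (hqA ω hω).1) hX1'
    hH.h1 hH.h1' hH.h2 hH.h3 hH.h4 ?_ hH.h6
  intro j hj E hE
  rw [← hh] at hj ⊢
  have hEpos : 0 < Pe (Pool.Agent.H49.Ent.cond p A True) E := hϖ₁.trans_le hE
  have hElaw : IsLaw (Pool.Agent.H49.Ent.cond (Pool.Agent.H49.Ent.cond p A True) E True) :=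
    Uni.isLaw_cond' hqlaw.nonneg E hEpos
  have hEp : ∀ ω, 0 < Pool.Agent.H49.Ent.cond (Pool.Agent.H49.Ent.cond p A True) E True ω →
      0 < p ω ∧ A ω := fun ω hω =>
    hqA ω ((cond_pos_iff hqlaw.nonneg E True ω).1 hω).1
  have hjh : j * h ≤ (j + 1) * h := Nat.mul_le_mul_right h (by omega)
  have h1 := Sel.rows_le hElaw (fun ω => (b r ω, T ω)) (fun ω => (b 0 ω, T ω))
    (fun ω ω' hω hω' e => Prod.ext (hnest r hdr hrX' ω ω' (hEp ω hω).1 (hEp ω' hω').1 e)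
      (Prod.ext_iff.mp e).2) (x := nu 0) (x' := nu r) (κ := κf)
    (fun ω ω' hω hω' e => hκf ω ω' (hEp ω hω).1 (hEp ω' hω').1 e) hK (r := r) (a := j * h)
    (b := (j + 1) * h) hjh (fun ω hω => by
      refine le_trans (mul_le_mul_of_nonneg_left ?_ (abs_nonneg _)) (hκb ω (hEp ω hω).1)
      exact pow_le_pow_right₀ (by norm_num) (by omega))
  have h2 := hq _ hElaw hEp (j * h) ((j + 1) * h) hjh hj (by
    push_cast
    linarith)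
  refine h1.trans ?_
  have h3 : (((j + 1) * h : ℕ) : ℝ) - ((j * h : ℕ) : ℝ) = h := by
    push_cast
    ring
  rw [h3] at h2
  rw [← hlK, ← hu]
  rw [← hu] at h2
  have h4 : CH (Pool.Agent.H49.Ent.cond (Pool.Agent.H49.Ent.cond p A True) E True)
      (Uni.dg (r + (j + 1) * h) (nu 0))
      (fun ω => (Uni.dg (r + j * h) (nu 0) ω, (b 0 ω, T ω))) ≤ (1 - ε / 16) * (h * u) := h2
  have h5 : (1 - ε / 16) * (h * u) + 2 * lK ≤ (1 - ε / 32) * h * u := by linarith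
  linarith

end Pool.OCG
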