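import Pool.Agent.H43.OC.RWA
import Pool.Agent.H26.OC.RWB
import Pool.Agent.H55.OC.SPRB

/-!
# Theorem OC for arbitrary time laws: the rows which mention (H1)

The proofs of the rows RWA (helper43), RWB (helper26) and SPRB (helpers 54, 55, 29) use only the
first half of (H1): the time is nearly independent of the line. This file is a copy of these
proofs with the weaker hypothesis.
-/

set_option autoImplicit false

namespace Pool.OCG

open Finset Real
open Pool.Agent.H49.Ent Pool.Agent.H32.Dense Pool.STK Pool.KAF Pool.OCT Pool.OC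

/-- (H1) without the hypothesis on the digits of the time. -/
def H1 (d : Dat) (ι : ℝ) : Prop := Pool.KVA.MI d.P d.T d.L (fun _ => ()) ≤ ι * d.X

/-- RWA: RowA from RowOK. -/
def RWAStmt : Prop :=
  ∀ (d : Dat) (A : ℕ) (J : d.Om → Set ℕ) (m : d.Lam → ℤ) (n k k₁ : ℕ) (e δ ι : ℝ), d.OK A →
    H1 d ι → 2 * ι ≤ δ → H d.P (fun ω => m (d.L ω)) ≤ δ * d.X → RowOK d J k k₁ e δ →
    RowA d J m n k k₁ e

/-- RWB: RowB and RowB' from RowOK. -/
def RWBStmt : Prop :=
  ∀ (d : Dat) (A : ℕ) (J : d.Om → Set ℕ) (m : d.Lam → ℤ) (n k k₁ : ℕ) (e δ ι : ℝ), d.OK A →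
    H1 d ι → 3 * ι ≤ δ → H d.P (fun ω => m (d.L ω)) ≤ δ * d.X → RowOK d J k k₁ e δ →
    RowB d J m n k k₁ e ∧ RowB' d J m n k k₁ e

/-- SPRB: telescope of stage B. -/
def SPRBStmt : Prop :=
  ∀ u ca : ℝ, 0 < u → u ≤ 1 → 0 < ca → ∃ ε₈ κ₂ : ℝ, 0 < ε₈ ∧ 0 < κ₂ ∧ ∀ A a k' : ℕ,
    ∃ (b k₁₀ n₀ : ℕ) (e₀ : ℝ), 0 < e₀ ∧ ∀ (d : Dat) (J : d.Om → Set ℕ) (m : d.Lam → ℤ)
      (n h k k₁ : ℕ) (e : ℝ), d.OK A → Siz d n h m → n₀ ≤ n → (n : ℝ) ≤ κ₂ * d.X → a + 8 ≤ k →
      k₁₀ ≤ k₁ → e ≤ e₀ → RowB d J m n k k₁ e → J1 d J h u ε₈ → NLC d m n a ε₈ → TA d n ε₈ →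
      TB d n k' ε₈ → H1 d ε₈ → d.H3 ε₈ → d.H4 ca → ACTB d m n b (ca / 8)

/-- RWA. -/
theorem rwa_thm : RWAStmt := by
  intro d A J m n k k₁ e δ ι hOK hH1 hιδ hm hRow i _hi q W hW
  have hP := hOK.law
  have hP0 := hP.nonneg
  have hQl : IsLaw (d.Qp i) := isLaw_dbl hP _
  have m1 : Marg (d.Qp i) d.P (fun w => w.1) := dbl_fst hP0
  have m2 : Marg (d.Qp i) d.P (fun w => w.2) := dbl_snd hP0
  have hX0 : (0 : ℝ) ≤ d.X := Nat.cast_nonneg _
  have hLT : ∀ v, 0 < d.Qp i v → d.L v.1 = d.L v.2 ∧ d.Ti i v.1 = d.Ti i v.2 := fun v hv =>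
    Prod.ext_iff.mp (dbl_eq (b := fun ω => (d.L ω, d.Ti i ω)) hP0 hv)
  set r : d.Tau → ℤ := fun t => ⌊(2 : ℝ) ^ i * d.th t⌋ with hr
  have hTi : d.Ti i = fun ω => r (d.T ω) := rfl
  have hMI : Pool.KVA.MI (d.Qp i) (fun v => d.L v.1) (fun v => (d.T v.1, d.T v.2))
      (fun _ => ()) ≤ δ * d.X := by
    have h1 := MI_step (Q := d.P) (P := d.P) (L₁ := d.L) (t₁ := d.T) (x := d.T) (L := d.L)
      (T := d.T) (r := r) hP0 hP (fun _ => rfl) (fun _ _ _ _ h => congrArg r h)
    have h2 : Pool.KVA.MI d.P d.L d.T (fun _ => ()) = Pool.KVA.MI d.P d.T d.L (fun _ => ()) := by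
      unfold Pool.KVA.MI
      have h3 : CH d.P (fun ω => (d.L ω, d.T ω)) (fun _ => ()) =
          CH d.P (fun ω => (d.T ω, d.L ω)) (fun _ => ()) := by
        refine CH_congr hP0 ?_ ?_ (fun _ _ _ _ h => h) (fun _ _ _ _ h => h) <;>
        · intro ω ω' _ _ h
          simp only [Prod.mk.injEq] at h ⊢
          tauto
      rw [h3]
      ring
    rw [h2] at h1
    have h4 : Pool.KVA.MI d.P d.T d.L (fun _ => ()) ≤ ι * d.X := hH1
    have h5 : (2 * ι) * (d.X : ℝ) ≤ δ * d.X := mul_le_mul_of_nonneg_right hιδ hX0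
    refine le_trans h1 ?_
    linarith only [h4, h5]
  exact by
   have key := hRow (d.Om × d.Om) Unit (d.Tau × d.Tau) ℤ (fun _ => ℤ × ℤ × ℤ × ℤ) (d.Qp i)
     (fun w => w.1) (fun w => w.2) (fun _ => ()) (fun w => (d.T w.1, d.T w.2)) m
     (fun s w => d.GA m s (d.L w.1))
     (fun s w => (bt (d.GA m (s + 1) (d.L w.1)).2.2.1, bt (d.GA m (s + 1) (d.L w.1)).2.2.2, false))
     (fun w => q (m (d.L w.1)) (d.T w.1) (d.T w.2))
     {w | (m (d.L w.1), d.T w.1, d.T w.2) ∈ W} (8 * n) (d.X - 8 * n) hQl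
     (fun ω => Marg.law_self m1 ω) (fun ω => Marg.law_self m2 ω) (fun v hv => (hLT v hv).1.symm)
     (fun v v' _ _ h => Prod.ext rfl h)
     hMI
     (by rw [m1.H (fun ω => m (d.L ω))]; exact hm)
     (by
       intro s _ v v' _ _ h
       have h1 := Prod.ext_iff.mp (Prod.ext_iff.mp h).2
       have h2 : m (d.L v.1) = m (d.L v'.1) := h1.1
       have h3 : d.V (d.L v.1) = d.V (d.L v'.1) := h1.2
       unfold Dat.V at h3
       simp only [Prod.mk.injEq] at h3
       show d.GA m s (d.L v.1) = d.GA m s (d.L v'.1)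
       unfold Dat.GA Dat.yR Dat.beR
       rw [h2, h3.1, h3.2.1, h3.2.2])
     (by
       intro s _ v v' _ _ h
       have h1 := Prod.ext_iff.mp h
       have h2 : d.GA m s (d.L v.1) = d.GA m s (d.L v'.1) := h1.1
       have h3 : (bt (d.GA m (s + 1) (d.L v.1)).2.2.1, bt (d.GA m (s + 1) (d.L v.1)).2.2.2, false) =
         (bt (d.GA m (s + 1) (d.L v'.1)).2.2.1, bt (d.GA m (s + 1) (d.L v'.1)).2.2.2, false) := h1.2
       rw [GA_succ d m s (d.L v.1), GA_succ d m s (d.L v'.1)] at h2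
       simp only [Prod.mk.injEq] at h2 h3
       show d.GA m (s + 1) (d.L v.1) = d.GA m (s + 1) (d.L v'.1)
       exact Prod.ext h2.1 (Prod.ext h2.2.1 (Prod.ext (bt_inj h2.2.2.1 h3.1)
         (bt_inj h2.2.2.2 h3.2.1))))
     (by
       intro s _ v v' _ _ h
       have h1 : d.GA m (s + 1) (d.L v.1) = d.GA m (s + 1) (d.L v'.1) := h
       have h2 : d.GA m s (d.L v.1) = d.GA m s (d.L v'.1) := by
         rw [GA_succ d m s (d.L v.1), GA_succ d m s (d.L v'.1), h1]
       refine Prod.ext h2 ?_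
       show (bt (d.GA m (s + 1) (d.L v.1)).2.2.1, bt (d.GA m (s + 1) (d.L v.1)).2.2.2, false) =
         (bt (d.GA m (s + 1) (d.L v'.1)).2.2.1, bt (d.GA m (s + 1) (d.L v'.1)).2.2.2, false)
       rw [h1])
     (by
       intro v v' _ _ h
       have h1 := Prod.ext_iff.mp h
       have h2 := Prod.ext_iff.mp h1.1
       have h3 : m (d.L v.1) = m (d.L v'.1) := h1.2
       have h4 : d.T v.1 = d.T v'.1 := h2.1
       have h5 : d.T v.2 = d.T v'.2 := h2.2
       show q (m (d.L v.1)) (d.T v.1) (d.T v.2) = q (m (d.L v'.1)) (d.T v'.1) (d.T v'.2)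
       rw [h3, h4, h5])
     (by
       intro v v' _ _ h
       have h1 := Prod.ext_iff.mp h
       have h2 := Prod.ext_iff.mp h1.1
       have h3 : m (d.L v.1) = m (d.L v'.1) := h1.2
       have h4 : d.T v.1 = d.T v'.1 := h2.1
       have h5 : d.T v.2 = d.T v'.2 := h2.2
       show ((m (d.L v.1), d.T v.1, d.T v.2) ∈ W) = ((m (d.L v'.1), d.T v'.1, d.T v'.2) ∈ W)
       rw [h3, h4, h5])
     (by
       intro s v v' hs hv hv' hvW _ _ hG
       exact hW v v'.1 s hv (m1.pos hQl.nonneg hv') hvW hs hG.symm)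
     (Nat.sub_le _ _)
   exact by
    refine le_trans (Finset.sum_le_sum fun s _ => le_of_eq ?_) key
    have h := Pr_dbl_marg m1 hQl.nonneg
      (fun v => ((), m (d.L v.1), d.GA m s (d.L v.1))) (fun v => d.GA m s (d.L v))
      (fun v v' _ _ => by
        constructor
        · intro h
          exact (Prod.ext_iff.mp (Prod.ext_iff.mp h).2).2
        · intro h
          have h1 : m (d.L v.1) = m (d.L v'.1) := (Prod.ext_iff.mp h).1
          show ((), m (d.L v.1), d.GA m s (d.L v.1)) = ((), m (d.L v'.1), d.GA m s (d.L v'.1))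
          have h2 : d.GA m s (d.L v.1) = d.GA m s (d.L v'.1) := h
          rw [h1, h2])
      {w : d.Om × d.Om | (m (d.L w.1), d.T w.1, d.T w.2) ∈ W ∧
          0 ≤ (s : ℤ) + q (m (d.L w.1)) (d.T w.1) (d.T w.2) ∧
          ((s : ℤ) + q (m (d.L w.1)) (d.T w.1) (d.T w.2)).toNat ∈ J w.1}
      (fun w => {v | (2 : ℝ) ^ (-((s : ℤ) + q (m (d.L w.1)) (d.T w.1) (d.T w.2) + k₁)) ≤
            |d.ZR (d.T w.1) (d.T w.2) (d.L w.1) - d.ZR (d.T w.1) (d.T w.2) (d.L v)|})
    rw [← h]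
    congr 1
    ext z
    simp only [Set.mem_ofPred_eq]
    tauto

open Pool.OC.RWB in
theorem core {d : Dat} {A : ℕ} {J : d.Om → Set ℕ} {m : d.Lam → ℤ} {n k k₁ : ℕ} {e δ ι : ℝ} (hd : d.OK A)
    (h1 : H1 d ι) (hι : 3 * ι ≤ δ) (hm : H d.P (fun ω => m (d.L ω)) ≤ δ * d.X)
    (hR : RowOK d J k k₁ e δ) (σ σ' : d.Om × d.Om → d.Om)
    (hss : (∀ w : d.Om × d.Om, σ w = w.1 ∧ σ' w = w.2) ∨ ∀ w : d.Om × d.Om, σ w = w.2 ∧ σ' w = w.1)
    (i : ℕ) (q : ℤ → d.Tau → d.Tau → d.Tau → ℤ) (W : Set (ℤ × d.Tau × d.Tau × d.Tau))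
    (Q : (d.Om × d.Om) × d.Om → ℝ)
    (hQ : Q = glue (d.Qp 0) d.P (fun w => (d.L (σ w), d.Ti i (σ w)))
      (fun ω => (d.L ω, d.Ti i ω)))
    (hcl : ∀ w v s, 0 < Q w → 0 < d.Qp 0 v →
      (m (d.L w.1.1), d.T w.1.1, d.T w.1.2, d.T w.2) ∈ W → 8 * n ≤ s →
      d.LB m s v = d.LB m s w.1 →
      |d.ZR (d.T (σ w.1)) (d.T w.2) (d.L w.1.1) - d.ZR (d.T (σ w.1)) (d.T w.2) (d.L v.1)| ≤
        (2 : ℝ) ^ ((k : ℤ) - (s + q (m (d.L w.1.1)) (d.T w.1.1) (d.T w.1.2) (d.T w.2)))) :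
    ∑ s ∈ Finset.Ico (8 * n) (d.X - 8 * n), Ex Q (Set.indicator
      {w | (m (d.L w.1.1), d.T w.1.1, d.T w.1.2, d.T w.2) ∈ W ∧
        0 ≤ (s : ℤ) + q (m (d.L w.1.1)) (d.T w.1.1) (d.T w.1.2) (d.T w.2) ∧
        ((s : ℤ) + q (m (d.L w.1.1)) (d.T w.1.1) (d.T w.1.2) (d.T w.2)).toNat ∈ J (σ w.1)}
      (fun w => Pr (cond (d.Qp 0) (d.LB m s) (d.LB m s w.1))
        {v | (2 : ℝ) ^ (-((s : ℤ) + q (m (d.L w.1.1)) (d.T w.1.1) (d.T w.1.2) (d.T w.2) + k₁)) ≤
          |d.ZR (d.T (σ w.1)) (d.T w.2) (d.L w.1.1) -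
            d.ZR (d.T (σ w.1)) (d.T w.2) (d.L v.1)|})) ≤ e * d.X := by
  classical
  have hP := hd.law
  have hP0 := hP.nonneg
  have hq : d.Qp 0 = dbl d.P (fun ω => (d.L ω, d.Ti 0 ω)) := rfl
  have hq0 : ∀ w, 0 ≤ d.Qp 0 w := by rw [hq]; exact glue_nonneg hP0 hP0
  have hqs : ∀ w, 0 < d.Qp 0 w → 0 < d.P w.1 ∧ 0 < d.P w.2 ∧ d.L w.1 = d.L w.2 := by
    intro w hw
    rw [hq] at hw
    obtain ⟨a1, a2, a3⟩ := (glue_pos_iff hP0 hP0 w).1 hw
    exact ⟨a1, a2, congrArg Prod.fst a3⟩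
  have hσ : ∀ (S : Type) (f : d.Om → S) (x : S),
      law (d.Qp 0) (fun w => f (σ w)) x = law d.P f x := by
    intro S f x
    rcases hss with a | a
    · have e1 : (fun w => f (σ w)) = fun w : d.Om × d.Om => f w.1 := by
        funext w; rw [(a w).1]
      rw [e1, hq]
      exact law_glue_fst hP0 (fun _ => rfl) f x
    · have e1 : (fun w => f (σ w)) = fun w : d.Om × d.Om => f w.2 := by
        funext w; rw [(a w).1]
      rw [e1, hq]
      exact law_glue_snd hP0 (fun _ => rfl) f x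
  have hσ' : ∀ (S : Type) (f : d.Om → S), H (d.Qp 0) (fun w => f (σ' w)) = H d.P f := by
    intro S f
    rcases hss with a | a
    · have e1 : (fun w => f (σ' w)) = fun w : d.Om × d.Om => f w.2 := by
        funext w; rw [(a w).2]
      rw [e1, hq]
      exact H_glue_snd hP0 (fun _ => rfl) f
    · have e1 : (fun w => f (σ' w)) = fun w : d.Om × d.Om => f w.1 := by
        funext w; rw [(a w).2]
      rw [e1, hq]
      exact H_glue_fst hP0 (fun _ => rfl) f
  exact by
   have hZ : ∀ z, law (d.Qp 0) (fun w => (d.L (σ w), d.Ti i (σ w))) z =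
       law d.P (fun ω => (d.L ω, d.Ti i ω)) z := fun z => hσ _ (fun ω => (d.L ω, d.Ti i ω)) z
   have hQ0 : ∀ w, 0 ≤ Q w := by rw [hQ]; exact glue_nonneg hq0 hP0
   have hq1 : ∑ w, d.Qp 0 w = 1 := by rw [hq]; exact (sum_glue hP0 fun _ => rfl).trans hP.sum_one
   have hQ1 : ∑ w, Q w = 1 := by rw [hQ]; exact (sum_glue hq0 hZ).trans hq1
   have hQs : ∀ w, 0 < Q w → 0 < d.Qp 0 w.1 ∧ 0 < d.P w.2 ∧ d.L (σ w.1) = d.L w.2 := by
     intro w hw
     rw [hQ] at hw
     obtain ⟨a1, a2, a3⟩ := (glue_pos_iff hq0 hP0 w).1 hw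
     exact ⟨a1, a2, congrArg Prod.fst a3⟩
   have hσL : ∀ w, 0 < d.Qp 0 w → d.L (σ w) = d.L w.1 := by
     intro w hw
     rcases hss with h | h
     · rw [(h w).1]
     · rw [(h w).1]; exact (hqs w hw).2.2.symm
   have hTσ : ∀ w w' : d.Om × d.Om, d.T w.1 = d.T w'.1 → d.T w.2 = d.T w'.2 →
       d.T (σ w) = d.T (σ w') := by
     intro w w' a1 a2
     rcases hss with h | h
     · rw [(h w).1, (h w').1]; exact a1
     · rw [(h w).1, (h w').1]; exact a2
   -- the information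
   have hMI : Pool.KVA.MI Q (fun v => d.L (σ v.1)) (fun v => (d.T v.1.1, d.T v.1.2, d.T v.2))
       (fun _ => ()) ≤ δ * d.X := by
     have e1 := mi_three hP d.L d.T (d.Ti 0) (d.Ti i) (Ti_zero hd) (fun ω ω' _ _ h => by
       unfold Dat.Ti; rw [h]) σ σ' (fun S f x => hσ S f x) (fun S f => hσ' S f) hss
     rw [← hq, ← hQ] at e1
     have e2 : Pool.KVA.MI d.P d.T d.L (fun _ => ()) ≤ ι * d.X := h1
     have e3 : (0 : ℝ) ≤ d.X := Nat.cast_nonneg _
     have e4 := mul_le_mul_of_nonneg_right hι e3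
     linarith only [e1, e2, e4]
   exact by
    have hmH : H Q (fun v => m (d.L (σ v.1))) ≤ δ * d.X := by
      have e1 : H Q (fun v => m (d.L (σ v.1))) = H d.P (fun ω => m (d.L ω)) := by
        have e2 : H Q (fun v => m (d.L (σ v.1))) = H Q (fun v => m (d.L v.2)) := by
          refine le_antisymm (H_mono hQ0 fun w w' hw hw' h => ?_)
            (H_mono hQ0 fun w w' hw hw' h => ?_)
          · show m (d.L (σ w.1)) = m (d.L (σ w'.1))
            rw [(hQs w hw).2.2, (hQs w' hw').2.2]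
            exact h
          · show m (d.L w.2) = m (d.L w'.2)
            rw [← (hQs w hw).2.2, ← (hQs w' hw').2.2]
            exact h
        rw [e2, hQ]
        exact H_glue_snd hP0 hZ (fun ω => m (d.L ω))
      rw [e1]
      exact hm
    have key := hR ((d.Om × d.Om) × d.Om) (d.Tau × d.Tau) (d.Tau × d.Tau × d.Tau) ℤ
      (fun _ => ℤ × ℤ × ℤ × ℤ) Q (fun w => σ w.1) (fun w => w.2)
      (fun w => (d.T w.1.1, d.T w.1.2)) (fun w => (d.T w.1.1, d.T w.1.2, d.T w.2)) m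
      (fun s w => d.GB m s (d.T w.1.1) (sc (d.ta w.1)) (d.L (σ w.1)))
      (fun s w => dB d m s (d.T w.1.1) (sc (d.ta w.1)) (d.L (σ w.1)))
      (fun w => q (m (d.L w.1.1)) (d.T w.1.1) (d.T w.1.2) (d.T w.2))
      {w | (m (d.L w.1.1), d.T w.1.1, d.T w.1.2, d.T w.2) ∈ W} (8 * n) (d.X - 8 * n)
      ⟨hQ0, hQ1⟩ ?_ ?_ ?_ ?_ hMI hmH ?_ ?_ ?_ ?_ ?_ ?_ (Nat.sub_le _ _)
    · -- conversion
      refine le_trans (le_of_eq ?_) key
      refine Finset.sum_congr rfl fun s _ => ?_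
      rw [hQ]
      rw [ex_dbl hq0 hP0 hZ
        (fun w => (((d.T w.1.1, d.T w.1.2) : d.Tau × d.Tau), m (d.L (σ w.1)),
          d.GB m s (d.T w.1.1) (sc (d.ta w.1)) (d.L (σ w.1)))) (d.LB m s) ?_ _
        (fun w v => (2 : ℝ) ^ (-((s : ℤ) +
            q (m (d.L w.1.1)) (d.T w.1.1) (d.T w.1.2) (d.T w.2) + k₁)) ≤
            |d.ZR (d.T (σ w.1)) (d.T w.2) (d.L w.1.1) -
              d.ZR (d.T (σ w.1)) (d.T w.2) (d.L v.1)|)]
      · rw [← hQ]
        refine Pr_congr (glue_nonneg hQ0 hQ0) fun z hz => ?_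
        obtain ⟨b1, b2, -⟩ := (glue_pos_iff hQ0 hQ0 z).1 hz
        have c1 := hσL _ (hQs _ b1).1
        have c2 := hσL _ (hQs _ b2).1
        simp only [Set.mem_ofPred_eq]
        rw [c1, c2]
        tauto
      · intro w w' hw hw'
        rw [← hQ] at hw hw'
        have c1 := hσL _ (hQs _ hw).1
        have c2 := hσL _ (hQs _ hw').1
        unfold Dat.LB
        simp only [Prod.mk.injEq]
        rw [c1, c2]
        constructor
        · rintro ⟨⟨a1, a2⟩, a3, a4⟩
          exact ⟨a1, a2, a4⟩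
        · rintro ⟨a1, a2, a4⟩
          refine ⟨⟨a1, a2⟩, ?_, a4⟩
          exact congrArg Prod.fst a4
    · intro ω
      have e1 : law Q (fun w => σ w.1) ω = law (d.Qp 0) (fun w => σ w) ω := by
        rw [hQ]
        exact law_glue_fst hq0 hZ (fun w => σ w) ω
      rw [e1, hσ d.Om (fun ω => ω) ω]
      unfold law
      simp
    · intro ω
      have e1 : law Q (fun w => w.2) ω = law d.P (fun ω => ω) ω := by
        rw [hQ]
        exact law_glue_snd hP0 hZ (fun ω => ω) ω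
      rw [e1]
      unfold law
      simp
    · intro v hv
      exact (hQs v hv).2.2.symm
    · intro w w' _ _ h
      have a1 : d.T w.1.1 = d.T w'.1.1 := congrArg Prod.fst h
      have a2 : d.T w.1.2 = d.T w'.1.2 := congrArg (fun z => z.2.1) h
      have a3 : d.T w.2 = d.T w'.2 := congrArg (fun z => z.2.2) h
      exact Prod.ext (Prod.ext a1 a2) (Prod.ext (hTσ _ _ a1 a2) a3)
    · intro s _ w w' _ _ h
      have a1 : d.T w.1.1 = d.T w'.1.1 := congrArg (fun z => z.1.1) h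
      have a2 : d.T w.1.2 = d.T w'.1.2 := congrArg (fun z => z.1.2) h
      have a3 : m (d.L (σ w.1)) = m (d.L (σ w'.1)) := congrArg (fun z => z.2.1) h
      have a4 : d.V (d.L (σ w.1)) = d.V (d.L (σ w'.1)) := congrArg (fun z => z.2.2) h
      have a5 : d.ta w.1 = d.ta w'.1 := by unfold Dat.ta; rw [a1, a2]
      show d.GB m s (d.T w.1.1) (sc (d.ta w.1)) (d.L (σ w.1)) =
        d.GB m s (d.T w'.1.1) (sc (d.ta w'.1)) (d.L (σ w'.1))
      rw [a1, a5]
      exact GB_congr m s _ _ a3 a4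
    · intro s _ w w' _ _ h
      exact (GB_succ m s).1 ⟨congrArg Prod.fst h, congrArg Prod.snd h⟩
    · intro s _ w w' _ _ h
      have := (GB_succ m s).2 h
      exact Prod.ext this.1 this.2
    · intro w w' hw hw' h
      have a1 : d.T w.1.1 = d.T w'.1.1 := congrArg (fun z => z.1.1) h
      have a2 : d.T w.1.2 = d.T w'.1.2 := congrArg (fun z => z.1.2.1) h
      have a3 : d.T w.2 = d.T w'.2 := congrArg (fun z => z.1.2.2) h
      have a4 : m (d.L (σ w.1)) = m (d.L (σ w'.1)) := congrArg (fun z => z.2) h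
      rw [hσL _ (hQs _ hw).1, hσL _ (hQs _ hw').1] at a4
      show q (m (d.L w.1.1)) (d.T w.1.1) (d.T w.1.2) (d.T w.2) =
        q (m (d.L w'.1.1)) (d.T w'.1.1) (d.T w'.1.2) (d.T w'.2)
      rw [a1, a2, a3, a4]
    · intro w w' hw hw' h
      have a1 : d.T w.1.1 = d.T w'.1.1 := congrArg (fun z => z.1.1) h
      have a2 : d.T w.1.2 = d.T w'.1.2 := congrArg (fun z => z.1.2.1) h
      have a3 : d.T w.2 = d.T w'.2 := congrArg (fun z => z.1.2.2) h
      have a4 : m (d.L (σ w.1)) = m (d.L (σ w'.1)) := congrArg (fun z => z.2) h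
      rw [hσL _ (hQs _ hw).1, hσL _ (hQs _ hw').1] at a4
      show ((m (d.L w.1.1), d.T w.1.1, d.T w.1.2, d.T w.2) ∈ W) =
        ((m (d.L w'.1.1), d.T w'.1.1, d.T w'.1.2, d.T w'.2) ∈ W)
      rw [a1, a2, a3, a4]
    · intro s w w' hs hw hw' hW hx hmm hG
      have c1 := hσL _ (hQs _ hw).1
      have c2 := hσL _ (hQs _ hw').1
      have a1 : d.T w.1.1 = d.T w'.1.1 := congrArg Prod.fst hx
      have a2 : d.T w.1.2 = d.T w'.1.2 := congrArg Prod.snd hx
      have hG' : d.GB m s (d.T w.1.1) (sc (d.ta w.1)) (d.L (σ w.1)) =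
        d.GB m s (d.T w'.1.1) (sc (d.ta w'.1)) (d.L (σ w'.1)) := hG
      rw [c1, c2] at hG'
      have h3 := hcl w w'.1 s hw (hQs _ hw').1 hW hs (by
        unfold Dat.LB
        rw [a1, a2] at *
        rw [hG'])
      show |d.ZR (d.T (σ w.1)) (d.T w.2) (d.L (σ w.1)) -
        d.ZR (d.T (σ w.1)) (d.T w.2) (d.L (σ w'.1))| ≤ _
      rw [c1, c2]
      exact h3


/-- **RWB.** -/
theorem rwb : RWBStmt := by
  intro d A J m n k k₁ e δ ι hd h1 hι hm hR
  constructor
  · intro i _ q W hcl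
    exact core hd h1 hι hm hR (fun w => w.1) (fun w => w.2) (Or.inl fun w => ⟨rfl, rfl⟩) i q W
      (d.Q3 i) rfl hcl
  · intro i _ q W hcl
    exact core hd h1 hι hm hR (fun w => w.2) (fun w => w.1) (Or.inr fun w => ⟨rfl, rfl⟩) i q W
      (d.Q3' i) rfl hcl

open SprbE in
/-- Piece E of row SPRB with explicit constants. -/
theorem sprb_e3 (A : ℕ) (d : Dat) (m : d.Lam → ℤ) (n s₀ s₁ : ℕ) (ε ca : ℝ) (hd : d.OK A)
    (hm1 : ∀ l, -(4 * n : ℤ) ≤ m l) (hm2 : ∀ l, m l ≤ 2 * n) (hn : 1 ≤ n) (hs0 : s₀ ≤ 9 * n)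
    (hs1 : d.X ≤ s₁ + 9 * n) (hs1X : s₁ ≤ d.X) (hnX : 64 * n ≤ d.X) (hε : 0 ≤ ε)
    (hTA : TA d n ε) (hH1 : H1 d ε) (hH3 : d.H3 ε) (hH4 : d.H4 ca) :
    (1 + ca) * d.X * Real.log 2 - (43 * n + 4 * (ε * d.X) + (2 * A + 14) + ε * (A + 3)) ≤
      CH (d.Qp 0) (cF (d.x0 m) d.y1 d.omT s₁) (cF (d.x0 m) d.y1 d.omT s₀) := by
  classical
  have hp := hd.law
  have hq := Qp0_law hp
  have hq0 := hq.nonneg
  have hl2 : 0 < Real.log 2 := Real.log_pos (by norm_num)
  have hl21 : Real.log 2 ≤ 1 := by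
    have := Real.log_two_lt_d9
    linarith only [hl2, this]
  have hf := Qp0_fst hp
  obtain ⟨x0, hx0⟩ : ∃ x0, x0 = d.x0 m := ⟨_, rfl⟩
  obtain ⟨B0, hB0⟩ : ∃ B, B = cF (d.x0 m) d.y1 d.omT s₀ := ⟨_, rfl⟩
  obtain ⟨B1, hB1⟩ : ∃ B, B = cF (d.x0 m) d.y1 d.omT s₁ := ⟨_, rfl⟩
  obtain ⟨O, hO⟩ : ∃ O : d.Om × d.Om → ℤ, O = fun w => d.om (d.L w.1) := ⟨_, rfl⟩
  obtain ⟨Y, hY⟩ : ∃ Y : d.Om × d.Om → ℤ, Y = fun w => d.y (d.L w.1) := ⟨_, rfl⟩
  have hAr : (0 : ℝ) ≤ A := Nat.cast_nonneg A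
  have hXr : (64 : ℝ) * n ≤ d.X := by exact_mod_cast hnX
  have hnr : (1 : ℝ) ≤ n := by exact_mod_cast hn
  -- bounds on the support
  have hyb : ∀ w, 0 < d.Qp 0 w → |d.y1 w| ≤ 2 ^ (A + 1) := by
    intro w hw
    obtain ⟨h1, h2, h3⟩ := Qp0_pos hp hw
    have a1 := hd.hy w.1 h1
    have a2 := hd.hom w.1 h1
    have a3 := hd.hth (d.T w.1)
    unfold Dat.y1
    refine (abs_add_le _ _).trans ?_
    rw [abs_mul, abs_of_nonneg a3.1, pow_succ]
    have a4 : d.th (d.T w.1) * |d.omR (d.L w.1)| ≤ 1 * 2 ^ A :=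
      mul_le_mul a3.2.le a2 (abs_nonneg _) zero_le_one
    linarith only [a1, a4]
  exact by
   have hscn : ∀ w, 0 ≤ sc (d.ta w) := fun w => sc_nonneg (ta_lt hd w)
   have hob : ∀ w, 0 < d.Qp 0 w → |d.omT w| ≤ 2 ^ A := by
     intro w hw
     obtain ⟨h1, h2, h3⟩ := Qp0_pos hp hw
     have a2 := hd.hom w.1 h1
     unfold Dat.omT
     rw [abs_mul, abs_of_pos (by positivity : (0 : ℝ) < 2 ^ (-sc (d.ta w)))]
     have a4 : (2 : ℝ) ^ (-sc (d.ta w)) ≤ 1 :=
       zpow_le_one_of_nonpos₀ (by norm_num) (by linarith only [hscn, hscn w])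
     calc _ ≤ 1 * (2 : ℝ) ^ A := mul_le_mul a4 a2 (abs_nonneg _) zero_le_one
       _ = 2 ^ A := one_mul _
   -- the start
   have hstart : CH (d.Qp 0) B0 x0 ≤ (2 * s₀ + 2 * A + 10) * Real.log 2 := by
     have g0 : CH (d.Qp 0) B0 x0 ≤
         CH (d.Qp 0) (fun w => (fl (2 ^ s₀) d.y1 w, fl (2 ^ s₀) d.omT w)) x0 := by
       refine CH_mono_left hq0 ?_
       intro w w' _ _ hw
       simp only [Prod.mk.injEq] at hw
       rw [hB0]
       unfold cF
       rw [hw.1.1, hw.1.2, ← hx0, hw.2]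
     have g1 := CH_subadd hq0 (fl (2 ^ s₀) d.y1) (fl (2 ^ s₀) d.omT) x0
     have g2 := CH_le_int hq0 hq.sum_one (fl (2 ^ s₀) d.y1) x0 (fun _ => 2 ^ (s₀ + A + 2) + 1)
       (fun w w' hw hw' _ => by
         refine fl_diff (by positivity) d.y1 ?_
         have h4 := hyb w hw
         have h5 := hyb w' hw'
         refine (abs_sub _ _).trans ?_
         have e1 : (2 : ℝ) ^ (s₀ + A + 2) / 2 ^ s₀ = 2 ^ (A + 1) + 2 ^ (A + 1) := by
           rw [add_assoc, pow_add]
           field_simp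
           ring
         rw [e1]
         linarith only [h4, h5])
     have g3 := CH_le_int hq0 hq.sum_one (fl (2 ^ s₀) d.omT) x0 (fun _ => 2 ^ (s₀ + A + 1) + 1)
       (fun w w' hw hw' _ => by
         refine fl_diff (by positivity) d.omT ?_
         have h4 := hob w hw
         have h5 := hob w' hw'
         refine (abs_sub _ _).trans ?_
         have e1 : (2 : ℝ) ^ (s₀ + A + 1) / 2 ^ s₀ = 2 ^ A + 2 ^ A := by
           rw [add_assoc, pow_add]
           field_simp
           ring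
         rw [e1]
         linarith only [h4, h5])
     rw [Ex_const hq.sum_one] at g2 g3
     have f1 : Real.log (2 * (2 ^ (s₀ + A + 2) + 1) + 1) ≤ (s₀ + A + 5 : ℕ) * Real.log 2 := by
       refine log_le_pow (by positivity) ?_
       have e1 : (2 : ℝ) ^ (s₀ + A + 5) = 8 * 2 ^ (s₀ + A + 2) := by
         rw [show s₀ + A + 5 = (s₀ + A + 2) + 3 by ring, pow_add]
         norm_num
         ring
       have e2 : (1 : ℝ) ≤ 2 ^ (s₀ + A + 2) := one_le_pow₀ (by norm_num)
       rw [e1]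
       linarith only [e2]
     have f2 : Real.log (2 * (2 ^ (s₀ + A + 1) + 1) + 1) ≤ (s₀ + A + 5 : ℕ) * Real.log 2 := by
       refine log_le_pow (by positivity) ?_
       have e1 : (2 : ℝ) ^ (s₀ + A + 5) = 16 * 2 ^ (s₀ + A + 1) := by
         rw [show s₀ + A + 5 = (s₀ + A + 1) + 4 by ring, pow_add]
         norm_num
         ring
       have e2 : (1 : ℝ) ≤ 2 ^ (s₀ + A + 1) := one_le_pow₀ (by norm_num)
       rw [e1]
       linarith only [e2]
     push_cast at f1 f2
     linarith only [g0, g1, g2, g3, f1, f2]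
   -- the remaining digits of the velocity
   exact by
    have hI : (2 : ℝ) ^ d.X = 2 ^ (d.X - s₁) * 2 ^ s₁ := by
      rw [← pow_add, Nat.sub_add_cancel hs1X]
    obtain ⟨E, hE⟩ : ∃ E : Set (d.Om × d.Om), E = {w | |d.ta w| < (2 : ℝ) ^ (-((n / 4 : ℕ) : ℤ))} :=
      ⟨_, rfl⟩
    have hPE : Pr (d.Qp 0) E ≤ ε := by
      rw [hE]
      exact hTA 0 (n / 4) (by omega) (by omega)
    have hvel : CH (d.Qp 0) O B1 ≤ (((d.X - s₁ + n / 4 + 2 : ℕ) : ℝ)) * Real.log 2 +
        ε * (((A + d.X + 3 : ℕ) : ℝ) * Real.log 2) := by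
      have g1 := CH_le_int hq0 hq.sum_one O B1
        (fun w => if w ∈ E then 2 ^ (A + d.X + 1) else 2 ^ (d.X - s₁ + n / 4)) (by
          intro w w' hw hw' hB
          have hx : x0 w = x0 w' := by
            rw [hx0]
            rw [hB1] at hB
            exact (Prod.ext_iff.mp hB).1
          have ht : d.ta w = d.ta w' := by
            rw [hx0] at hx
            have h1 := (Prod.ext_iff.mp hx).1
            have h2 := (Prod.ext_iff.mp (Prod.ext_iff.mp hx).2).1
            simp only [Dat.x0] at h1 h2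
            unfold Dat.ta
            rw [h1, h2]
          obtain ⟨h1, h2, h3⟩ := Qp0_pos hp hw
          obtain ⟨h1', h2', h3'⟩ := Qp0_pos hp hw'
          have o1 := hd.hom w.1 h1
          have o2 := hd.hom w'.1 h1'
          have hXp : (0 : ℝ) < 2 ^ d.X := by positivity
          have e1 : ((O w - O w' : ℤ) : ℝ) = 2 ^ d.X * (d.omR (d.L w.1) - d.omR (d.L w'.1)) := by
            rw [hO]
            unfold Dat.omR
            push_cast
            field_simp
          rw [e1, abs_mul, abs_of_pos hXp]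
          split_ifs with hw1
          · have e2 : (2 : ℝ) ^ (A + d.X + 1) = 2 ^ d.X * (2 ^ A + 2 ^ A) := by
              rw [pow_succ, pow_add]
              ring
            rw [e2]
            refine mul_le_mul_of_nonneg_left ((abs_sub _ _).trans ?_) hXp.le
            linarith only [o1, o2]
          · have hw2 : (2 : ℝ) ^ (-((n / 4 : ℕ) : ℤ)) ≤ |d.ta w| := by
              rw [hE] at hw1
              exact not_lt.1 hw1
            have h4 := SprbE.sc_le hw2
            have h5 : fl (2 ^ s₁) d.omT w = fl (2 ^ s₁) d.omT w' := by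
              rw [hB1] at hB
              exact (Prod.ext_iff.mp (Prod.ext_iff.mp hB).2).2
            have h6 := fl_cell (by positivity) d.omT h5
            have e3 : d.omT w - d.omT w' = (2 : ℝ) ^ (-sc (d.ta w)) *
                (d.omR (d.L w.1) - d.omR (d.L w'.1)) := by
              unfold Dat.omT
              rw [← ht]
              ring
            rw [e3, abs_mul, abs_of_pos (by positivity : (0 : ℝ) < 2 ^ (-sc (d.ta w)))] at h6
            have h7 : (2 : ℝ) ^ (-((n / 4 : ℕ) : ℤ)) ≤ 2 ^ (-sc (d.ta w)) :=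
              zpow_le_zpow_right₀ (by norm_num) (by linarith only [h4])
            have h8 : (2 : ℝ) ^ (-((n / 4 : ℕ) : ℤ)) * |d.omR (d.L w.1) - d.omR (d.L w'.1)| ≤
                1 / 2 ^ s₁ := (mul_le_mul_of_nonneg_right h7 (abs_nonneg _)).trans h6
            rw [zpow_neg, zpow_natCast, inv_mul_le_iff₀ (by positivity)] at h8
            calc (2 : ℝ) ^ d.X * |d.omR (d.L w.1) - d.omR (d.L w'.1)| ≤
                2 ^ d.X * (2 ^ (n / 4) * (1 / 2 ^ s₁)) := mul_le_mul_of_nonneg_left h8 hXp.le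
              _ = 2 ^ (d.X - s₁ + n / 4) := by
                rw [hI, pow_add]
                field_simp)
      refine g1.trans ?_
      have g2 : Ex (d.Qp 0) (fun w => Real.log (2 * (if w ∈ E then (2 : ℝ) ^ (A + d.X + 1) else
          2 ^ (d.X - s₁ + n / 4)) + 1)) ≤ Ex (d.Qp 0) (fun w =>
          (((d.X - s₁ + n / 4 + 2 : ℕ) : ℝ)) * Real.log 2 +
            (if w ∈ E then ((A + d.X + 3 : ℕ) : ℝ) * Real.log 2 else 0)) := by
        refine Ex_mono hq0 fun w hw => ?_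
        by_cases hw1 : w ∈ E
        · rw [if_pos hw1, if_pos hw1]
          have h1 : Real.log (2 * (2 : ℝ) ^ (A + d.X + 1) + 1) ≤
              ((A + d.X + 3 : ℕ) : ℝ) * Real.log 2 := by
            refine log_le_pow (by positivity) ?_
            have e1 : (2 : ℝ) ^ (A + d.X + 3) = 4 * 2 ^ (A + d.X + 1) := by
              rw [show A + d.X + 3 = (A + d.X + 1) + 2 by ring, pow_add]
              norm_num
              ring
            have e2 : (1 : ℝ) ≤ 2 ^ (A + d.X + 1) := one_le_pow₀ (by norm_num)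
            rw [e1]
            linarith only [e2]
          have h2 : 0 ≤ (((d.X - s₁ + n / 4 + 2 : ℕ) : ℝ)) * Real.log 2 := by positivity
          linarith only [h1, h2]
        · rw [if_neg hw1, if_neg hw1, add_zero]
          refine log_le_pow (by positivity) ?_
          have e1 : (2 : ℝ) ^ (d.X - s₁ + n / 4 + 2) = 4 * 2 ^ (d.X - s₁ + n / 4) := by
            rw [pow_add _ (d.X - s₁ + n / 4) 2]
            norm_num
            ring
          have e2 : (1 : ℝ) ≤ 2 ^ (d.X - s₁ + n / 4) := one_le_pow₀ (by norm_num)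
          rw [e1]
          linarith only [e2]
      refine g2.trans ?_
      rw [Ex_add, Ex_const hq.sum_one, pr_ex]
      have h3 : Pr (d.Qp 0) E * (((A + d.X + 3 : ℕ) : ℝ) * Real.log 2) ≤
          ε * (((A + d.X + 3 : ℕ) : ℝ) * Real.log 2) :=
        mul_le_mul_of_nonneg_right hPE (by positivity)
      linarith only [h3]
    -- the remaining digits of the position
    exact by
     have hpos : CH (d.Qp 0) Y (fun w => (O w, B1 w)) ≤
         ((d.X - s₁ + 2 : ℕ) : ℝ) * Real.log 2 := by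
       have g1 := CH_le_int hq0 hq.sum_one Y (fun w => (O w, B1 w)) (fun _ => 2 ^ (d.X - s₁)) (by
         intro w w' hw hw' hB
         have hB2 : B1 w = B1 w' := (Prod.ext_iff.mp hB).2
         have hOO : O w = O w' := (Prod.ext_iff.mp hB).1
         rw [hB1] at hB2
         have hx : d.x0 m w = d.x0 m w' := (Prod.ext_iff.mp hB2).1
         have hT : d.T w.1 = d.T w'.1 := (Prod.ext_iff.mp hx).1
         have h5 : fl (2 ^ s₁) d.y1 w = fl (2 ^ s₁) d.y1 w' :=
           (Prod.ext_iff.mp (Prod.ext_iff.mp hB2).2).1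
         have h6 := fl_cell (by positivity) d.y1 h5
         have hom : d.omR (d.L w.1) = d.omR (d.L w'.1) := by
           unfold Dat.omR
           rw [hO] at hOO
           simp only at hOO
           rw [hOO]
         have e3 : d.y1 w - d.y1 w' = d.yR (d.L w.1) - d.yR (d.L w'.1) := by
           unfold Dat.y1
           rw [hT, hom]
           ring
         rw [e3] at h6
         have hXp : (0 : ℝ) < 2 ^ d.X := by positivity
         have e1 : ((Y w - Y w' : ℤ) : ℝ) = 2 ^ d.X * (d.yR (d.L w.1) - d.yR (d.L w'.1)) := by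
           rw [hY]
           unfold Dat.yR
           push_cast
           field_simp
         rw [e1, abs_mul, abs_of_pos hXp]
         calc (2 : ℝ) ^ d.X * |d.yR (d.L w.1) - d.yR (d.L w'.1)| ≤ 2 ^ d.X * (1 / 2 ^ s₁) :=
               mul_le_mul_of_nonneg_left h6 hXp.le
           _ = 2 ^ (d.X - s₁) := by
             rw [hI]
             field_simp)
       rw [Ex_const hq.sum_one] at g1
       refine g1.trans (log_le_pow (by positivity) ?_)
       have e1 : (2 : ℝ) ^ (d.X - s₁ + 2) = 4 * 2 ^ (d.X - s₁) := by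
         rw [pow_add]
         norm_num
         ring
       have e2 : (1 : ℝ) ≤ 2 ^ (d.X - s₁) := one_le_pow₀ (by norm_num)
       rw [e1]
       linarith only [e2]
     -- the entropy of the line data
     exact by
      have hdata : ca * d.X * Real.log 2 + (1 - ε) * d.X * Real.log 2 ≤
          H (d.Qp 0) (fun w => (Y w, O w)) := by
        have h1 : H (d.Qp 0) (fun w => (Y w, O w)) =
            H d.P (fun ω => (d.y (d.L ω), d.om (d.L ω))) := by
          rw [hO, hY]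
          exact hf.H (fun ω => (d.y (d.L ω), d.om (d.L ω)))
        have h2 : CH d.P (fun ω => d.y (d.L ω)) (fun ω => d.om (d.L ω)) =
            H d.P (fun ω => (d.y (d.L ω), d.om (d.L ω))) - H d.P (fun ω => d.om (d.L ω)) := rfl
        unfold Dat.H3 at hH3
        unfold Dat.H4 at hH4
        rw [h1]
        linarith only [hH3, hH4, h2]
      -- the times carry no information
      have hm : H (d.Qp 0) (fun w => m (d.L w.1)) ≤ 6 * n := by
        have h1 := H_le_log_card hq0 hq.sum_one (fun w => m (d.L w.1))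
          (Finset.Icc (-(4 * n : ℤ)) (2 * n)) (fun w _ => Finset.mem_Icc.2 ⟨hm1 _, hm2 _⟩)
        rw [Int.card_Icc] at h1
        have e1 : (2 * (n : ℤ) + 1 - -(4 * (n : ℤ))).toNat = 6 * n + 1 := by omega
        rw [e1] at h1
        have h2 := Real.log_le_sub_one_of_pos (x := ((6 * n + 1 : ℕ) : ℝ)) (by positivity)
        push_cast at h1 h2
        linarith only [h1, h2]
      have hinfo : H (d.Qp 0) (fun w => (Y w, O w)) - 2 * (ε * d.X) - 6 * n ≤
          CH (d.Qp 0) (fun w => (Y w, O w)) x0 := by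
        have h1 := cost hp hH1
        have h2 : Pool.KVA.MI (d.Qp 0) (fun w => (Y w, O w)) (fun w => (d.T w.1, d.T w.2))
            (fun _ => ()) ≤ 2 * (ε * d.X) := by
          refine (mi_mono_left hq0 (fun w => d.L w.1) _ _ _ ?_).trans h1
          intro w w' _ _ h
          have h3 : d.L w.1 = d.L w'.1 := (Prod.ext_iff.mp h).1
          rw [hO, hY]
          simp only [h3]
        rw [CLU.MI_eq hq0] at h2
        have h3 : CH (d.Qp 0) (fun w => (Y w, O w)) (fun _ => ()) =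
            H (d.Qp 0) (fun w => (Y w, O w)) := by
          unfold CH
          rw [H_const hq.sum_one, sub_zero]
          refine H_congr hq0 ?_ ?_
          · intro w w' _ _ h
            exact Prod.ext h rfl
          · intro w w' _ _ h
            exact (Prod.ext_iff.mp h).1
        have h4 := CH_mono_cond hq0 (X := fun w => (Y w, O w))
          (W' := fun w => (m (d.L w.1), (d.T w.1, d.T w.2))) (W := x0) (by
            intro w w' _ _ h
            simp only [Prod.mk.injEq] at h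
            rw [hx0]
            unfold Dat.x0
            rw [h.1, h.2.1, h.2.2])
        have h5 := CH_le_add hq0 (fun w => (Y w, O w)) (fun w => m (d.L w.1))
          (fun w => (d.T w.1, d.T w.2))
        have h6 := ch_le_H hq (fun w => m (d.L w.1)) (fun w => (d.T w.1, d.T w.2))
        have h7 := CH_mono_cond hq0 (X := fun w => (Y w, O w))
          (W' := fun w => ((d.T w.1, d.T w.2), ())) (W := fun w => (d.T w.1, d.T w.2)) (by
            intro w w' _ _ h
            exact (Prod.ext_iff.mp h).1)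
        linarith only [hm, h2, h3, h4, h5, h6, h7]
      -- the end
      exact by
       have k1 := CH_le_add hq0 B1 B0 x0
       have k2 := CH_mono_cond hq0 (X := B1) (W' := fun w => (B0 w, x0 w)) (W := B0)
         (fun w w' _ _ h => (Prod.ext_iff.mp h).1)
       have k3 := CH_le_add hq0 (fun w => (Y w, O w)) B1 x0
       have k4 := CH_mono_cond hq0 (X := fun w => (Y w, O w)) (W' := fun w => (B1 w, x0 w)) (W := B1)
         (fun w w' _ _ h => (Prod.ext_iff.mp h).1)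
       have k5 := CH_chain hq0 Y O B1
       rw [← hB0, ← hB1]
       have n1 : ((d.X - s₁ + n / 4 + 2 : ℕ) : ℝ) ≤ 10 * n + 2 := by
         have : d.X - s₁ + n / 4 + 2 ≤ 10 * n + 2 := by omega
         exact_mod_cast this
       have n2 : ((d.X - s₁ + 2 : ℕ) : ℝ) ≤ 9 * n + 2 := by
         have : d.X - s₁ + 2 ≤ 9 * n + 2 := by omega
         exact_mod_cast this
       have n3 : (s₀ : ℝ) ≤ 9 * n := by exact_mod_cast hs0
       have m1 := mul_le_mul_of_nonneg_right n1 hl2.le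
       have m2 := mul_le_mul_of_nonneg_right n2 hl2.le
       have m3 := mul_le_mul_of_nonneg_right (show 2 * (s₀ : ℝ) + 2 * A + 10 ≤
         18 * n + 2 * A + 10 by linarith only [n3]) hl2.le
       have m4 : ((10 * n + 2 : ℝ) + (9 * n + 2) + (18 * n + 2 * A + 10)) * Real.log 2 ≤
           ((10 * n + 2 : ℝ) + (9 * n + 2) + (18 * n + 2 * A + 10)) * 1 :=
         mul_le_mul_of_nonneg_left hl21 (by positivity)
       have hεX : 0 ≤ ε * d.X := by positivity
       have m5 : ε * (((A + d.X + 3 : ℕ) : ℝ) * Real.log 2) ≤ ε * (A + d.X + 3) := by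
         refine mul_le_mul_of_nonneg_left ?_ hε
         push_cast
         have h2 : ((A : ℝ) + d.X + 3) * Real.log 2 ≤ ((A : ℝ) + d.X + 3) * 1 :=
           mul_le_mul_of_nonneg_left hl21 (by positivity)
         linarith only [h2]
       have m6 : ε * d.X * Real.log 2 ≤ ε * d.X * 1 := mul_le_mul_of_nonneg_left hl21 hεX
       exact by
        have e1 : (1 + ca) * d.X * Real.log 2 = ca * d.X * Real.log 2 + (1 - ε) * d.X * Real.log 2 +
          ε * d.X * Real.log 2 := by ring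
        rw [e1]
        have e4 : ((10 * n + 2 : ℝ) + (9 * n + 2) + (18 * n + 2 * A + 10)) * Real.log 2 =
          (10 * n + 2) * Real.log 2 + (9 * n + 2) * Real.log 2 +
            (18 * n + 2 * A + 10) * Real.log 2 := by ring
        rw [e4] at m4
        have e5 : ε * ((A : ℝ) + d.X + 3) = ε * d.X + ε * (A + 3) := by ring
        rw [e5] at m5
        linarith only [hstart, hvel, hpos, hdata, hinfo, k1, k2, k3, k4, k5, m1, m2, m3, m4, m5, m6]

/-- **Row SPRB.** -/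
theorem sprb_thm : SPRBStmt := by
  intro u ca hu hu1 hca
  set γ : ℝ := min ca 1 with hγ
  have hγ0 : 0 < γ := lt_min hca one_pos
  have hγ1 : γ ≤ 1 := min_le_right _ _
  have hγc : γ ≤ ca := min_le_left _ _
  refine ⟨γ * u / 1000, γ / 2000, by positivity, by positivity, ?_⟩
  intro A a k'
  obtain ⟨K, hK⟩ := exists_nat_ge (16 * (a + 10) / γ)
  obtain ⟨n₁, hn₁⟩ := exists_nat_ge ((6 * A + 31) / γ)
  refine ⟨K, k' + K + 2, max (max k' (4 * (a + K + 6) + 4)) n₁, γ / 16 * u * γ / 128,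
    by positivity, ?_⟩
  intro d J m n h k k₁ e hOK hS hn hnκ hk hk₁ he hR hJ hN hTA hTB hH1 hH3 hH4
  have hl2 : 0 < Real.log 2 := Real.log_pos (by norm_num)
  have hl2' : (2 : ℝ) / 3 ≤ Real.log 2 := by
    have := Real.log_two_gt_d9
    linarith only [hl2, this]
  have hKpos : (0 : ℝ) < K := by
    refine lt_of_lt_of_le (by positivity) hK
  have hK1 : 1 ≤ K := by exact_mod_cast hKpos
  have hn1 : k' ≤ n := le_trans (le_trans (le_max_left _ _) (le_max_left _ _)) hn
  have hn2 : 4 * (a + K + 6) + 4 ≤ n := le_trans (le_trans (le_max_right _ _) (le_max_left _ _)) hn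
  have hn3 : n₁ ≤ n := le_trans (le_max_right _ _) hn
  have hnX := hS.nX
  set ε₈ : ℝ := γ * u / 1000 with hε₈
  have hε₈0 : 0 ≤ ε₈ := by positivity
  obtain ⟨chi, c, b, hchi, hb, hb0, hbs⟩ := sel_B (K := K) (k' := k') (a := a) (u := u)
    (ε := γ / 16) hOK hS hu (by positivity) hk (by omega) (by omega) hn1 hR
  have hGd := GdB_meas (k' := k') (a := a) hOK hu hε₈0 hS hJ hN hTA hTB
  set N : ℕ := (d.X - 16 * n) / K with hNdef
  have hNK : N * K ≤ d.X - 16 * n := Nat.div_mul_le_self _ _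
  exact by
   have hNK' : d.X - 16 * n < N * K + K := Nat.lt_div_mul_add (by omega)
   set L : ℝ := (1 + ca) * d.X * Real.log 2 -
     (43 * n + 4 * (ε₈ * d.X) + (2 * A + 14) + ε₈ * (A + 3)) with hL
   set M : ℝ := (11 * n + A + 5) * Real.log 2 with hM
   have hT := sprb_t (d.Om × d.Om) (d.Tau × d.Tau × ℤ) (d.Qp 0) (d.x0 m) d.y1 d.omT (d.beT m) K N
     (8 * n) chi c b (1 / 2 ^ (K + 1)) (2 ^ (a + 4)) L M (Dat.qp_law hOK 0) hK1 (by positivity)
     (by positivity) hchi (fun s h1 h2 => hb s h1 (by omega)) (fun ρ hρ =>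
       sprb_e3 A d m n (8 * n + ρ) (8 * n + ρ + N * K) ε₈ ca hOK hS.m1 hS.m2 (by omega) (by omega)
         (by omega) (by omega) hnX hε₈0 hTA hH1 hH3 hH4)
     (fun ρ hρ => sprb_M hOK hS.m2 (by omega) _)
   -- the sum on the right
   have hR1 : ∑ t ∈ range (N * K), Pr (dbl (d.Qp 0)
       (cB (d.x0 m) d.y1 d.omT (d.beT m) (8 * n + t)))
         {w | 1 / 2 ^ (8 * n + t + K) ≤ |d.omT w.1 - d.omT w.2|} ≤
       ∑ s ∈ Finset.Ico (8 * n) (d.X - 8 * n), Pr (dbl (d.Qp 0) (d.LB m s))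
     {w | (2 : ℝ) ^ (-((s : ℤ) - sc (d.ta w.1) + K)) ≤
       |d.omR (d.L w.1.1) - d.omR (d.L w.2.1)|} := by
     rw [Finset.sum_Ico_eq_sum_range]
     refine le_trans (Finset.sum_le_sum fun t _ => act_le hOK m (8 * n + t) K) ?_
     refine Finset.sum_le_sum_of_subset_of_nonneg ?_ fun t _ _ =>
       Pr_nonneg (fun w => dbl_nonneg (Dat.qp_law hOK 0).nonneg w) _
     intro t ht
     rw [Finset.mem_range] at ht ⊢
     omega
   have hR2 : ∑ t ∈ range (N * K), b (8 * n + t) ≤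
       ∑ s ∈ Finset.Ico (8 * n) (d.X - 8 * n), b s := by
     rw [Finset.sum_Ico_eq_sum_range]
     refine Finset.sum_le_sum_of_subset_of_nonneg ?_ fun t _ _ => hb0 _
     intro t ht
     rw [Finset.mem_range] at ht ⊢
     omega
   unfold ACTB
   exact by
    refine le_trans ?_ (hT.trans hR1)
    -- numbers
    have hX0 : (0 : ℝ) < d.X := by
      have : 0 < d.X := by omega
      exact_mod_cast this
    have hlogκ : Real.log (2 ^ (K + 1) * (1 / 2 ^ (K + 1) + 2 ^ (a + 4) / 2 ^ K) + 2) /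
        Real.log 2 ≤ a + 6 := by
      rw [div_le_iff₀ hl2]
      have e1 : (2 : ℝ) ^ (K + 1) * (1 / 2 ^ (K + 1) + 2 ^ (a + 4) / 2 ^ K) + 2 ≤ 2 ^ (a + 6) := by
        have e2 : (2 : ℝ) ^ (K + 1) * (1 / 2 ^ (K + 1) + 2 ^ (a + 4) / 2 ^ K) =
            1 + 2 ^ (a + 5) := by
          rw [pow_succ 2 K, pow_succ 2 (a + 4)]
          field_simp
        rw [e2, pow_succ 2 (a + 5)]
        have e3 : (16 : ℝ) ≤ 2 ^ (a + 4) := by
          calc (16 : ℝ) = 2 ^ 4 := by norm_num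
            _ ≤ 2 ^ (a + 4) := pow_le_pow_right₀ (by norm_num) (by omega)
        have e4 : (2 : ℝ) ^ (a + 5) = 2 * 2 ^ (a + 4) := by rw [pow_succ 2 (a + 4)]; ring
        linarith only [e3, e4]
      have e5 := Real.log_le_log (by positivity) e1
      rw [Real.log_pow] at e5
      push_cast at e5
      exact e5
    have hNr : (N : ℝ) * K ≤ d.X := by
      have : N * K ≤ d.X := by omega
      exact_mod_cast this
    have hN0 : (0 : ℝ) ≤ N := Nat.cast_nonneg _
    have e1 : (N : ℝ) * (K + 4 + Real.log (2 ^ (K + 1) * (1 / 2 ^ (K + 1) + 2 ^ (a + 4) / 2 ^ K) + 2) /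
        Real.log 2) ≤ d.X + γ / 16 * d.X := by
      have h1 : (N : ℝ) * (K + 4 + Real.log (2 ^ (K + 1) * (1 / 2 ^ (K + 1) +
          2 ^ (a + 4) / 2 ^ K) + 2) / Real.log 2) ≤ N * (K + 4 + (a + 6)) :=
        mul_le_mul_of_nonneg_left (by linarith only [hlogκ]) hN0
      have h2 : (N : ℝ) * (a + 10) ≤ γ / 16 * d.X := by
        have h3 : 16 * ((a : ℝ) + 10) ≤ K * γ := by
          rwa [div_le_iff₀ hγ0] at hK
        have h4 : (N : ℝ) * (16 * (a + 10)) ≤ N * (K * γ) := mul_le_mul_of_nonneg_left h3 hN0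
        have h5 : (N : ℝ) * K * γ ≤ d.X * γ := mul_le_mul_of_nonneg_right hNr hγ0.le
        linarith only [h4, h5]
      linarith only [hNr, h1, h2]
    exact by
     have e2 : 8 * (e * d.X) / (γ / 16 * u) ≤ γ / 16 * d.X := by
       rw [div_le_iff₀ (by positivity)]
       have h1 : e * d.X ≤ (γ / 16 * u * γ / 128) * d.X := mul_le_mul_of_nonneg_right he hX0.le
       linarith only [h1]
     have e3 : d.X * (Pr (d.Qp 0) (GdB d J m n h k' a u)ᶜ + γ / 16) ≤
         d.X * (18 * γ / 1000 + γ / 16) := by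
       refine mul_le_mul_of_nonneg_left ?_ hX0.le
       have h1 : 16 * ε₈ / u = 16 * γ / 1000 := by
         rw [hε₈]
         field_simp
       have h2 : ε₈ ≤ γ / 1000 := by
         rw [hε₈]
         have : γ * u ≤ γ * 1 := mul_le_mul_of_nonneg_left hu1 hγ0.le
         linarith only [this]
       rw [h1] at hGd
       linarith only [hGd, h2]
     have hε₈1 : ε₈ ≤ γ / 1000 := by
       rw [hε₈]
       have : γ * u ≤ γ * 1 := mul_le_mul_of_nonneg_left hu1 hγ0.le
       linarith only [this]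
     have e4 : (6 * (A : ℝ) + 31) ≤ γ / 64 * d.X := by
       have h1 : (6 * (A : ℝ) + 31) ≤ n₁ * γ := by
         rwa [div_le_iff₀ hγ0] at hn₁
       have h2 : (64 : ℝ) * n₁ ≤ d.X := by
         have : 64 * n₁ ≤ d.X := by omega
         exact_mod_cast this
       have h3 := mul_le_mul_of_nonneg_right h2 hγ0.le
       linarith only [h1, h3]
     have e5 : (L - M) / Real.log 2 ≥ (1 + ca) * d.X - (3 / 2 * (43 * n + 4 * (ε₈ * d.X) +
         (2 * A + 14) + ε₈ * (A + 3)) + (11 * n + A + 5)) := by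
       rw [ge_iff_le, le_div_iff₀ hl2, hL, hM]
       have h1 : 0 ≤ 43 * (n : ℝ) + 4 * (ε₈ * d.X) + (2 * A + 14) + ε₈ * (A + 3) := by positivity
       have h2 := mul_le_mul_of_nonneg_left hl2' h1
       have h3 : ((1 + ca) * d.X - (3 / 2 * (43 * n + 4 * (ε₈ * d.X) + (2 * A + 14) +
           ε₈ * (A + 3)) + (11 * n + A + 5))) * Real.log 2 = (1 + ca) * d.X * Real.log 2 -
           3 / 2 * ((43 * n + 4 * (ε₈ * d.X) + (2 * A + 14) + ε₈ * (A + 3)) * Real.log 2) -
           (11 * n + A + 5) * Real.log 2 := by ring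
       rw [h3]
       linarith only [h2]
     exact by
      have hA0 : (0 : ℝ) ≤ A := Nat.cast_nonneg _
      have e6 : ε₈ * ((A : ℝ) + 3) ≤ A + 3 := by
        have : ε₈ ≤ 1 := by linarith only [hγ1, hε₈1]
        nlinarith only [hγ1, hε₈1]
      have e7 : ε₈ * d.X ≤ γ / 1000 * d.X := mul_le_mul_of_nonneg_right hε₈1 hX0.le
      have e8 : γ * d.X ≤ ca * d.X := mul_le_mul_of_nonneg_right hγc hX0.le
      have hγX : 0 < γ * d.X := by positivity
      generalize (L - M) / Real.log 2 = Z at e5 ⊢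
      generalize Real.log (2 ^ (K + 1) * (1 / 2 ^ (K + 1) + 2 ^ (a + 4) / 2 ^ K) + 2) /
          Real.log 2 = Y at e1 ⊢
      generalize ∑ t ∈ range (N * K), b (8 * n + t) = B1 at hR2 ⊢
      generalize ∑ s ∈ Finset.Ico (8 * n) (d.X - 8 * n), b s = B2 at hR2 hbs
      generalize 8 * (e * d.X) / (γ / 16 * u) = B3 at e2 hbs
      generalize d.X * (Pr (d.Qp 0) (GdB d J m n h k' a u)ᶜ + γ / 16) = B4 at e3 hbs
      clear hGd hb hb0 hT hR1 hR hJ hN hTA hTB hH1 hH3 hH4 hchi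
      have f1 : B1 ≤ d.X * (18 * γ / 1000 + γ / 16) + γ / 16 * d.X := by linarith only [hR2, e2, e3, hbs]
      have f2 : (43 * (n : ℝ) + 4 * (ε₈ * d.X) + (2 * A + 14) + ε₈ * (A + 3)) ≤
          43 * (γ / 2000 * d.X) + 4 * (γ / 1000 * d.X) + (2 * A + 14) + (A + 3) := by linarith only [hnκ, e6, e7]
      have f3 : (11 * (n : ℝ) + A + 5) ≤ 11 * (γ / 2000 * d.X) + A + 5 := by linarith only [hnκ]
      have f4 : Z ≥ (1 + ca) * d.X - (3 / 2 * (43 * (γ / 2000 * d.X) + 4 * (γ / 1000 * d.X) +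
          (2 * A + 14) + (A + 3)) + (11 * (γ / 2000 * d.X) + A + 5)) := by linarith only [hnκ, e6, e7, e5]
      have f5 : (1 + ca) * (d.X : ℝ) = d.X + ca * d.X := by ring
      rw [f5] at f4
      have f6 : (d.X : ℝ) * (18 * γ / 1000 + γ / 16) = (18 / 1000 + 1 / 16) * (γ * d.X) := by ring
      rw [f6] at f1
      linarith only [hnκ, e4, e6, e7, e8, e5, e1, hR2, e2, e3, hbs]

end Pool.OCG
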