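import Pool.Agent.H92.M5.Tools
import Pool.Agent.H43.OC.RW
import Pool.Agent.H73.KAF.RST

/-!
# Time laws which are live in most windows

`κ i = (L, tl i)`: the line and the first `i` digits of the time. The window `v` (digits
`v K, .., (v + 1) K`) is dead for a sample if the conditional law of the next `K` digits given
`κ (v K)` has an atom `> 1 - c`. If most windows are live (not dead), then two samples of one line
and of one window are not too near: `near_le`, `ta_gen`, `tb_gen`.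
-/

set_option autoImplicit false

namespace Pool.OCG

open Finset Real
open Pool.Agent.H49.Ent Pool.Agent.H32.Dense Pool.STK Pool.KAF

section gen

variable {Ω S T : Type} [Fintype Ω]

theorem Pr_nonneg' {p : Ω → ℝ} (hp : ∀ ω, 0 ≤ p ω) (E : Set Ω) : 0 ≤ Pr p E :=
  law_nonneg hp _ _

theorem Pr_mono' {p : Ω → ℝ} (hp : ∀ ω, 0 ≤ p ω) {E E' : Set Ω}
    (h : ∀ ω, 0 < p ω → ω ∈ E → ω ∈ E') : Pr p E ≤ Pr p E' := by
  classical
  rw [Pool.KAF.Pr_eq, Pool.KAF.Pr_eq]
  refine Finset.sum_le_sum fun ω _ => ?_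
  rcases (hp ω).eq_or_lt with h0 | h0
  · rw [← h0]
    simp
  by_cases h1 : ω ∈ E
  · rw [if_pos h1, if_pos (h ω h0 h1)]
  · rw [if_neg h1]
    split_ifs <;> linarith

/-- The mass of `{κ = z, g = a}`. -/
noncomputable def ms (p : Ω → ℝ) (κ : Ω → S) (g : Ω → ℤ) (z : S) (a : ℤ) : ℝ :=
  law p (fun ω => (κ ω, g ω)) (z, a)

theorem Pr_cond_eq {p : Ω → ℝ} (κ : Ω → S) (g : Ω → ℤ) (z : S) (a : ℤ) :
    Pr (Pool.Agent.H49.Ent.cond p κ z) {ω | g ω = a} = ms p κ g z a / law p κ z := by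
  classical
  rw [Pool.KAF.Pr_eq]
  unfold ms Pool.Agent.H49.Ent.cond
  generalize law p κ z = q
  unfold law
  rw [Finset.sum_div]
  refine Finset.sum_congr rfl fun ω _ => ?_
  simp only [Set.mem_ofPred_eq, Prod.mk.injEq]
  by_cases h1 : g ω = a
  · by_cases h2 : κ ω = z
    · simp [h1, h2]
    · simp [h1, h2]
  · simp [h1]

/-- Two samples of one class at the distance `e` are not more likely than equal ones. -/
theorem shift_le {p : Ω → ℝ} (hp : IsLaw p) (κ : Ω → S) (g : Ω → ℤ) (e : ℤ) :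
    Pr (dbl p κ) {w | g w.2 = g w.1 + e} ≤ Pr (dbl p κ) {w | g w.2 = g w.1} := by
  classical
  have h0 := hp.nonneg
  -- the formula
  have key : ∀ e : ℤ, Pr (dbl p κ) {w | g w.2 = g w.1 + e} =
      ∑ x ∈ univ.image (fun ω => (κ ω, g ω)),
        ms p κ g x.1 x.2 * (ms p κ g x.1 (x.2 + e) / law p κ x.1) := by
    intro e
    rw [Pool.M5T.Pr_dbl]
    unfold Ex
    have h1 : ∀ ω, p ω * Pr (Pool.Agent.H49.Ent.cond p κ (κ ω))
        {ω' | (ω, ω') ∈ {w : Ω × Ω | g w.2 = g w.1 + e}} =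
        p ω * (fun x : S × ℤ => ms p κ g x.1 (x.2 + e) / law p κ x.1) (κ ω, g ω) := by
      intro ω
      congr 1
      exact Pr_cond_eq κ g (κ ω) (g ω + e)
    rw [Finset.sum_congr rfl fun ω _ => h1 ω]
    exact sum_mul_eq_sum_image p (fun ω => (κ ω, g ω))
      (fun x : S × ℤ => ms p κ g x.1 (x.2 + e) / law p κ x.1)
  have k0 := key 0
  have ke := key e
  simp only [add_zero] at k0
  rw [ke, k0]
  set Im := univ.image (fun ω => (κ ω, g ω)) with hIm
  have hm : ∀ z a, 0 ≤ ms p κ g z a := fun z a => law_nonneg h0 _ _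
  have hl : ∀ z, 0 ≤ law p κ z := fun z => law_nonneg h0 _ _
  set f : S × ℤ → ℝ := fun x => ms p κ g x.1 x.2 * (ms p κ g x.1 x.2 / law p κ x.1) with hf
  have hf0 : ∀ x, 0 ≤ f x := fun x => mul_nonneg (hm _ _) (div_nonneg (hm _ _) (hl _))
  have hfz : ∀ x, x ∉ Im → f x = 0 := by
    intro x hx
    have h1 : ms p κ g x.1 x.2 = 0 := law_eq_zero_of_notMem p (fun ω => (κ ω, g ω)) hx
    rw [hf]
    simp only [h1, zero_mul]
  have h1 : ∑ x ∈ Im, ms p κ g x.1 x.2 * (ms p κ g x.1 (x.2 + e) / law p κ x.1) ≤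
      ∑ x ∈ Im, (f x / 2 + f (x.1, x.2 + e) / 2) := by
    refine Finset.sum_le_sum fun x _ => ?_
    rw [hf]
    simp only
    rcases (hl x.1).eq_or_lt with h2 | h2
    · rw [← h2]
      simp
    · have h3 : 0 ≤ (ms p κ g x.1 x.2 - ms p κ g x.1 (x.2 + e)) ^ 2 / law p κ x.1 :=
        div_nonneg (sq_nonneg _) h2.le
      have h4 : (ms p κ g x.1 x.2 - ms p κ g x.1 (x.2 + e)) ^ 2 / law p κ x.1 =
          ms p κ g x.1 x.2 * (ms p κ g x.1 x.2 / law p κ x.1) +
          ms p κ g x.1 (x.2 + e) * (ms p κ g x.1 (x.2 + e) / law p κ x.1) -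
          2 * (ms p κ g x.1 x.2 * (ms p κ g x.1 (x.2 + e) / law p κ x.1)) := by
        field_simp
        ring
      linarith only [h3, h4]
  refine h1.trans ?_
  rw [Finset.sum_add_distrib, ← Finset.sum_div, ← Finset.sum_div]
  have h2 : ∑ x ∈ Im, f (x.1, x.2 + e) ≤ ∑ x ∈ Im, f x := by
    have h3 : ∑ x ∈ Im, f (x.1, x.2 + e) = ∑ y ∈ Im.image (fun x : S × ℤ => (x.1, x.2 + e)), f y := by
      refine (Finset.sum_image ?_).symm
      intro x _ y _ h
      have h4 := Prod.ext_iff.1 h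
      refine Prod.ext h4.1 ?_
      have h5 : x.2 + e = y.2 + e := h4.2
      linarith only [h4]
    rw [h3, ← Finset.sum_filter_of_ne (p := fun y => y ∈ Im) (fun y _ hy => by
      by_contra h
      exact hy (hfz y h))]
    refine Finset.sum_le_sum_of_subset_of_nonneg ?_ fun y _ _ => hf0 y
    intro y hy
    exact (Finset.mem_filter.1 hy).2
  linarith only [h2]

/-- Near samples: three times the equal ones. -/
theorem near3 {p : Ω → ℝ} (hp : IsLaw p) (κ : Ω → S) (g : Ω → ℤ) :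
    Pr (dbl p κ) {w | |g w.2 - g w.1| ≤ 1} ≤ 3 * Pr (dbl p κ) {w | g w.2 = g w.1} := by
  have h0 : ∀ w, 0 ≤ dbl p κ w := fun w => glue_nonneg hp.nonneg hp.nonneg w
  have h1 : Pr (dbl p κ) {w | |g w.2 - g w.1| ≤ 1} ≤
      Pr (dbl p κ) {w | g w.2 = g w.1} + Pr (dbl p κ) {w | g w.2 = g w.1 + 1 ∨
        g w.2 = g w.1 + (-1)} := by
    refine Pool.M5T.Pr_or h0 fun w _ hw => ?_
    have h2 : |g w.2 - g w.1| ≤ 1 := hw
    rw [abs_le] at h2
    show g w.2 = g w.1 ∨ (g w.2 = g w.1 + 1 ∨ g w.2 = g w.1 + (-1))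
    omega
  have h2 : Pr (dbl p κ) {w | g w.2 = g w.1 + 1 ∨ g w.2 = g w.1 + (-1)} ≤
      Pr (dbl p κ) {w | g w.2 = g w.1 + 1} + Pr (dbl p κ) {w | g w.2 = g w.1 + (-1)} :=
    Pool.M5T.Pr_or h0 fun w _ hw => hw
  have h3 := shift_le hp κ g 1
  have h4 := shift_le hp κ g (-1)
  linarith only [h1, h2, h3, h4]

end gen

section time

variable {Ω Λ : Type} [Fintype Ω]

/-- The first `i` digits of the time. -/
noncomputable def tl (θ : Ω → ℝ) (i : ℕ) (ω : Ω) : ℤ := ⌊(2 : ℝ) ^ i * θ ω⌋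

/-- The line and the first `i` digits of the time. -/
noncomputable def kp (L : Ω → Λ) (θ : Ω → ℝ) (i : ℕ) (ω : Ω) : Λ × ℤ := (L ω, tl θ i ω)

omit [Fintype Ω] in
theorem tl_mono {θ : Ω → ℝ} {i j : ℕ} (hij : i ≤ j) {ω ω' : Ω} (h : tl θ j ω = tl θ j ω') :
    tl θ i ω = tl θ i ω' := by
  obtain ⟨k, rfl⟩ := Nat.exists_eq_add_of_le hij
  have key : ∀ x : ℝ, ⌊(2 : ℝ) ^ i * x⌋ = ⌊(2 : ℝ) ^ (i + k) * x⌋ / ((2 ^ k : ℕ) : ℤ) := by
    intro x
    have h : (2 : ℝ) ^ i * x = ((2 : ℝ) ^ (i + k) * x) / ((2 ^ k : ℕ) : ℝ) := by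
      rw [pow_add]
      push_cast
      field_simp
    rw [h, Int.floor_div_natCast]
  unfold tl at h ⊢
  rw [key, key, h]

omit [Fintype Ω] in
theorem kp_mono {L : Ω → Λ} {θ : Ω → ℝ} {i j : ℕ} (hij : i ≤ j) {ω ω' : Ω}
    (h : kp L θ j ω = kp L θ j ω') : kp L θ i ω = kp L θ i ω' :=
  Prod.ext (Prod.ext_iff.1 h).1 (tl_mono hij (Prod.ext_iff.1 h).2)

/-- The conditional probability of the own window of level `j` given the one of level `i`. -/
noncomputable def rt (p : Ω → ℝ) (L : Ω → Λ) (θ : Ω → ℝ) (i j : ℕ) (ω : Ω) : ℝ :=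
  law p (kp L θ j) (kp L θ j ω) / law p (kp L θ i) (kp L θ i ω)

theorem rt_eq {p : Ω → ℝ} (L : Ω → Λ) (θ : Ω → ℝ) {i j : ℕ} (hij : i ≤ j) (ω : Ω) :
    Pr (Pool.Agent.H49.Ent.cond p (kp L θ i) (kp L θ i ω)) {ω' | tl θ j ω' = tl θ j ω} =
      rt p L θ i j ω := by
  classical
  rw [Pool.KAF.Pr_eq]
  unfold rt Pool.Agent.H49.Ent.cond
  generalize law p (kp L θ i) (kp L θ i ω) = q
  unfold law
  rw [Finset.sum_div]
  refine Finset.sum_congr rfl fun ω' _ => ?_
  simp only [Set.mem_ofPred_eq]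
  by_cases h : kp L θ j ω' = kp L θ j ω
  · have h1 : tl θ j ω' = tl θ j ω := (Prod.ext_iff.1 h).2
    rw [if_pos h1, if_pos (kp_mono hij h), if_pos h]
  · rw [if_neg h, zero_div]
    by_cases h1 : tl θ j ω' = tl θ j ω
    · rw [if_pos h1]
      rw [if_neg]
      intro h2
      exact h (Prod.ext (Prod.ext_iff.1 h2).1 h1)
    · rw [if_neg h1]

theorem rt_mul {p : Ω → ℝ} (hp : ∀ ω, 0 ≤ p ω) (L : Ω → Λ) (θ : Ω → ℝ) (i j k : ℕ) {ω : Ω}
    (hω : 0 < p ω) : rt p L θ i k ω = rt p L θ i j ω * rt p L θ j k ω := by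
  unfold rt
  have h1 := law_pos hp (kp L θ j) hω
  have h2 := law_pos hp (kp L θ i) hω
  field_simp

theorem rt_le_one {p : Ω → ℝ} (hp : ∀ ω, 0 ≤ p ω) (L : Ω → Λ) (θ : Ω → ℝ) {i j : ℕ}
    (hij : i ≤ j) {ω : Ω} (hω : 0 < p ω) : rt p L θ i j ω ≤ 1 := by
  unfold rt
  rw [div_le_one (law_pos hp _ hω)]
  exact law_mono_of_det hp (fun a b _ _ h => kp_mono hij h) hω

theorem rt_nonneg {p : Ω → ℝ} (hp : ∀ ω, 0 ≤ p ω) (L : Ω → Λ) (θ : Ω → ℝ) (i j : ℕ) (ω : Ω) :
    0 ≤ rt p L θ i j ω := div_nonneg (law_nonneg hp _ _) (law_nonneg hp _ _)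

/-- The window `v` is dead for the sample. -/
def dead (p : Ω → ℝ) (L : Ω → Λ) (θ : Ω → ℝ) (K : ℕ) (c : ℝ) (v : ℕ) : Set Ω :=
  {ω | ∃ a : ℤ, 1 - c < Pr (Pool.Agent.H49.Ent.cond p (kp L θ (v * K)) (kp L θ (v * K) ω))
    {ω' | tl θ ((v + 1) * K) ω' = a}}

/-- Most windows are live. -/
def LV (p : Ω → ℝ) (L : Ω → Λ) (θ : Ω → ℝ) (X K : ℕ) (c η : ℝ) : Prop :=
  ∑ v ∈ range (X / K), Pr p (dead p L θ K c v) ≤ η * (X / K : ℝ)

open Classical in
/-- The number of live windows. -/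
noncomputable def nl (p : Ω → ℝ) (L : Ω → Λ) (θ : Ω → ℝ) (K : ℕ) (c : ℝ) (v r : ℕ) (ω : Ω) : ℕ :=
  ((Finset.Ico v (v + r)).filter fun u => ω ∉ dead p L θ K c u).card

theorem rt_live {p : Ω → ℝ} (hp : ∀ ω, 0 ≤ p ω) (L : Ω → Λ) (θ : Ω → ℝ) (K : ℕ) {c : ℝ}
    (hc1 : c ≤ 1) {i v : ℕ} (hiv : i ≤ v * K) (r : ℕ) {ω : Ω} (hω : 0 < p ω) :
    rt p L θ i ((v + r) * K) ω ≤ (1 - c) ^ (nl p L θ K c v r ω) := by
  classical
  induction r with
  | zero =>
    have h1 : nl p L θ K c v 0 ω = 0 := by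
      unfold nl
      simp
    rw [h1, pow_zero]
    exact rt_le_one hp L θ hiv hω
  | succ r ih =>
    have h1 := rt_mul hp L θ i ((v + r) * K) ((v + (r + 1)) * K) hω
    have h2 : nl p L θ K c v (r + 1) ω = nl p L θ K c v r ω +
        (if ω ∈ dead p L θ K c (v + r) then 0 else 1) := by
      unfold nl
      have h3 : Finset.Ico v (v + (r + 1)) = insert (v + r) (Finset.Ico v (v + r)) := by
        ext x
        simp only [Finset.mem_insert, Finset.mem_Ico]
        omega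
      rw [h3, Finset.filter_insert]
      by_cases h4 : ω ∈ dead p L θ K c (v + r)
      · rw [if_pos h4, if_neg (fun h => h h4), add_zero]
      · rw [if_neg h4, if_pos h4, Finset.card_insert_of_notMem]
        intro h5
        have := (Finset.mem_Ico.1 (Finset.mem_filter.1 h5).1).2
        omega
    rw [h1, h2]
    have h0 : 0 ≤ 1 - c := by linarith only [hc1]
    have h5 := rt_nonneg hp L θ ((v + r) * K) ((v + (r + 1)) * K) ω
    by_cases h4 : ω ∈ dead p L θ K c (v + r)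
    · rw [if_pos h4, add_zero]
      have h6 := rt_le_one hp L θ (Nat.mul_le_mul_right K (by omega : v + r ≤ v + (r + 1))) hω
      calc _ ≤ (1 - c) ^ (nl p L θ K c v r ω) * 1 := mul_le_mul ih h6 h5 (pow_nonneg h0 _)
        _ = _ := mul_one _
    · rw [if_neg h4, pow_succ]
      refine mul_le_mul ih ?_ h5 (pow_nonneg h0 _)
      rw [← rt_eq L θ (Nat.mul_le_mul_right K (by omega : v + r ≤ v + (r + 1))) ω]
      by_contra h6
      exact h4 ⟨_, not_le.1 h6⟩

/-- Two near samples of one window: at most three times the mean of the conditional probability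
of the own window. -/
theorem near_rt {p : Ω → ℝ} (hp : IsLaw p) (L : Ω → Λ) (θ : Ω → ℝ) {i j : ℕ} (hij : i ≤ j) :
    Pr (dbl p (kp L θ i)) {w | |θ w.2 - θ w.1| < (2 : ℝ) ^ (-(j : ℤ))} ≤
      3 * Ex p (rt p L θ i j) := by
  classical
  have h0 := hp.nonneg
  have hd0 : ∀ w, 0 ≤ dbl p (kp L θ i) w := fun w => glue_nonneg h0 h0 w
  -- near implies neighbouring windows
  have h1 : Pr (dbl p (kp L θ i)) {w | |θ w.2 - θ w.1| < (2 : ℝ) ^ (-(j : ℤ))} ≤
      Pr (dbl p (kp L θ i)) {w | |tl θ j w.2 - tl θ j w.1| ≤ 1} := by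
    refine Pr_mono' hd0 fun w _ hw => ?_
    have h2 : |θ w.2 - θ w.1| < (2 : ℝ) ^ (-(j : ℤ)) := hw
    have h3 : |(2 : ℝ) ^ j * θ w.2 - (2 : ℝ) ^ j * θ w.1| < 1 := by
      rw [← mul_sub, abs_mul, abs_of_pos (by positivity : (0 : ℝ) < 2 ^ j)]
      have h4 := mul_lt_mul_of_pos_left h2 (by positivity : (0 : ℝ) < 2 ^ j)
      rw [zpow_neg, zpow_natCast, mul_inv_cancel₀ (by positivity)] at h4
      exact h4
    show |⌊(2 : ℝ) ^ j * θ w.2⌋ - ⌊(2 : ℝ) ^ j * θ w.1⌋| ≤ 1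
    generalize (2 : ℝ) ^ j * θ w.2 = x at h3 ⊢
    generalize (2 : ℝ) ^ j * θ w.1 = y at h3 ⊢
    rw [abs_lt] at h3
    have e1 := Int.floor_le x
    have e2 := Int.lt_floor_add_one x
    have e3 := Int.floor_le y
    have e4 := Int.lt_floor_add_one y
    rw [abs_le]
    constructor
    · have : (⌊y⌋ : ℝ) < ⌊x⌋ + 2 := by linarith only [h3, e2, e3]
      have h5 : ⌊y⌋ < ⌊x⌋ + 2 := by exact_mod_cast this
      omega
    · have : (⌊x⌋ : ℝ) < ⌊y⌋ + 2 := by linarith only [h3, e1, e4]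
      have h5 : ⌊x⌋ < ⌊y⌋ + 2 := by exact_mod_cast this
      omega
  have h2 := near3 hp (kp L θ i) (tl θ j)
  have h3 : Pr (dbl p (kp L θ i)) {w | tl θ j w.2 = tl θ j w.1} = Ex p (rt p L θ i j) := by
    rw [Pool.M5T.Pr_dbl]
    unfold Ex
    refine Finset.sum_congr rfl fun ω _ => ?_
    congr 1
    exact rt_eq L θ hij ω
  rw [h3] at h2
  exact h1.trans h2

/-- Two samples of one line and of one window are not near. -/
theorem near_le {p : Ω → ℝ} (hp : IsLaw p) (L : Ω → Λ) (θ : Ω → ℝ) (K : ℕ) {c : ℝ}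
    (hc0 : 0 ≤ c) (hc1 : c ≤ 1) {i j v r : ℕ} (hiv : i ≤ v * K) (hj : (v + r) * K ≤ j) (M : ℕ) :
    Pr (dbl p (kp L θ i)) {w | |θ w.2 - θ w.1| < (2 : ℝ) ^ (-(j : ℤ))} ≤
      3 * ((1 - c) ^ M + Pr p {ω | nl p L θ K c v r ω < M}) := by
  classical
  have h0 := hp.nonneg
  have hij : i ≤ j := by
    have : v * K ≤ (v + r) * K := Nat.mul_le_mul_right K (by omega)
    omega
  have h2 := near_rt hp L θ hij
  have h4 : Ex p (rt p L θ i j) ≤ (1 - c) ^ M + Pr p {ω | nl p L θ K c v r ω < M} := by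
    have h5 : Ex p (fun ω => (1 - c) ^ M + (if ω ∈ {ω | nl p L θ K c v r ω < M} then (1 : ℝ)
        else 0)) = (1 - c) ^ M + Pr p {ω | nl p L θ K c v r ω < M} := by
      rw [Ex_add, Ex_const hp.sum_one, Pool.M5T.Ex_ind]
    rw [← h5]
    refine Ex_mono h0 fun ω hω => ?_
    have h6 : rt p L θ i j ω = rt p L θ i ((v + r) * K) ω * rt p L θ ((v + r) * K) j ω :=
      rt_mul h0 L θ i _ j hω
    have h7 := rt_le_one h0 L θ hj hω
    have h8 := rt_nonneg h0 L θ i ((v + r) * K) ω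
    have h9 : rt p L θ i j ω ≤ rt p L θ i ((v + r) * K) ω := by
      rw [h6]
      exact mul_le_of_le_one_right h8 h7
    have hcc : 0 ≤ 1 - c := by linarith only [hc1]
    by_cases h10 : nl p L θ K c v r ω < M
    · rw [if_pos (show ω ∈ {ω | nl p L θ K c v r ω < M} from h10)]
      have h11 := rt_le_one h0 L θ hij hω
      have h12 := pow_nonneg hcc M
      linarith only [h11, h12]
    · rw [if_neg (show ω ∉ {ω | nl p L θ K c v r ω < M} from h10), add_zero]
      refine h9.trans ((rt_live h0 L θ K hc1 hiv r hω).trans ?_)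
      exact pow_le_pow_of_le_one hcc (by linarith only [hc0]) (not_lt.1 h10)
  linarith only [h2, h4]

open Classical in
theorem nl_lt {p : Ω → ℝ} (hp : IsLaw p) (L : Ω → Λ) (θ : Ω → ℝ) (K : ℕ) (c : ℝ) (v r M : ℕ) :
    Pr p {ω | nl p L θ K c v r ω < M} * ((r : ℝ) - M) ≤
      ∑ u ∈ Finset.Ico v (v + r), Pr p (dead p L θ K c u) := by
  have h0 := hp.nonneg
  have h1 : ∑ u ∈ Finset.Ico v (v + r), Pr p (dead p L θ K c u) =
      Ex p (fun ω => ∑ u ∈ Finset.Ico v (v + r), (if ω ∈ dead p L θ K c u then (1 : ℝ) else 0)) := by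
    unfold Ex
    have h2 : ∀ u ∈ Finset.Ico v (v + r), Pr p (dead p L θ K c u) =
        ∑ ω, p ω * (if ω ∈ dead p L θ K c u then (1 : ℝ) else 0) := fun u _ =>
      (Pool.M5T.Ex_ind p (dead p L θ K c u)).symm
    rw [Finset.sum_congr rfl h2, Finset.sum_comm]
    refine Finset.sum_congr rfl fun ω _ => ?_
    rw [Finset.mul_sum]
  rw [h1, ← Pool.M5T.Ex_ind, mul_comm, ← Ex_smul]
  refine Ex_mono h0 fun ω _ => ?_
  have h3 : ∑ u ∈ Finset.Ico v (v + r), (if ω ∈ dead p L θ K c u then (1 : ℝ) else 0) =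
      (((Finset.Ico v (v + r)).filter fun u => ω ∈ dead p L θ K c u).card : ℝ) := by
    rw [Finset.card_filter]
    push_cast
    rfl
  have h4 : ((Finset.Ico v (v + r)).filter fun u => ω ∈ dead p L θ K c u).card +
      nl p L θ K c v r ω = r := by
    unfold nl
    rw [Finset.card_filter_add_card_filter_not]
    simp
  rw [h3]
  by_cases h5 : nl p L θ K c v r ω < M
  · rw [if_pos (show ω ∈ {ω | nl p L θ K c v r ω < M} from h5), mul_one]
    have h6 : (((Finset.Ico v (v + r)).filter fun u => ω ∈ dead p L θ K c u).card : ℝ) +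
      nl p L θ K c v r ω = r := by exact_mod_cast h4
    have h7 : (nl p L θ K c v r ω : ℝ) ≤ M := by exact_mod_cast h5.le
    linarith only [h6, h7]
  · rw [if_neg (show ω ∉ {ω | nl p L θ K c v r ω < M} from h5), mul_zero]
    exact Nat.cast_nonneg _

/-- A sum along a map with small fibres. -/
theorem sum_fib {f : ℕ → ℝ} (hf : ∀ u, 0 ≤ f u) (S R : Finset ℕ) (g : ℕ → ℕ) (K : ℕ)
    (hg : ∀ i ∈ S, g i ∈ R) (hc : ∀ u ∈ R, (S.filter fun i => g i = u).card ≤ K) :
    ∑ i ∈ S, f (g i) ≤ K * ∑ u ∈ R, f u := by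
  classical
  have h1 : ∑ i ∈ S, f (g i) = ∑ u ∈ R, ∑ i ∈ S.filter (fun i => g i = u), f (g i) :=
    (Finset.sum_fiberwise_of_maps_to hg _).symm
  rw [h1, Finset.mul_sum]
  refine Finset.sum_le_sum fun u hu => ?_
  have h2 : ∑ i ∈ S.filter (fun i => g i = u), f (g i) =
      ((S.filter fun i => g i = u).card : ℝ) * f u := by
    rw [Finset.sum_congr rfl (g := fun _ => f u)]
    · rw [Finset.sum_const, nsmul_eq_mul]
    · intro i hi
      rw [(Finset.mem_filter.1 hi).2]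
  rw [h2]
  exact mul_le_mul_of_nonneg_right (by exact_mod_cast hc u hu) (hf u)

/-- Macroscopic distances. -/
theorem ta_gen {p : Ω → ℝ} (hp : IsLaw p) (L : Ω → Λ) (θ : Ω → ℝ) {X K : ℕ} (hK : 1 ≤ K)
    {c η : ℝ} (hc0 : 0 ≤ c) (hc1 : c ≤ 1) (h : LV p L θ X K c η) (M : ℕ) {g i i' : ℕ}
    (hg : 2 * K * (M + 2) ≤ g) (hi : i + g ≤ i') (hX : i' ≤ X) :
    Pr (dbl p (kp L θ i)) {w | |θ w.2 - θ w.1| < (2 : ℝ) ^ (-(i' : ℤ))} ≤
      3 * ((1 - c) ^ M + 2 * η * X / g) := by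
  classical
  have h0 := hp.nonneg
  have hK0 : (0 : ℝ) < K := by exact_mod_cast hK
  have hv : i ≤ (i / K + 1) * K := by
    have := Nat.div_add_mod i K
    have h2 := Nat.mod_lt i (by omega : 0 < K)
    nlinarith only [this, h2]
  have hv2 : (i / K) * K ≤ i := Nat.div_mul_le_self i K
  have hr1 : ((i' - i) / K) * K ≤ i' - i := Nat.div_mul_le_self _ K
  have hr2 : i' - i < ((i' - i) / K + 1) * K := by
    have := Nat.div_add_mod (i' - i) K
    have h2 := Nat.mod_lt (i' - i) (by omega : 0 < K)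
    nlinarith only [this, h2]
  have hr3 : 2 * (M + 2) ≤ (i' - i) / K := by
    rw [Nat.le_div_iff_mul_le (by omega)]
    have : 2 * (M + 2) * K = 2 * K * (M + 2) := by ring
    omega
  obtain ⟨r, hr⟩ : ∃ r, (i' - i) / K = r + 1 := ⟨(i' - i) / K - 1, by omega⟩
  have hvr : (i / K + 1 + r) * K ≤ i' := by
    have e1 : (i / K + 1 + r) * K = (i / K) * K + ((i' - i) / K) * K := by
      rw [hr]; ring
    omega
  have hin : i / K + 1 + r ≤ X / K := by
    rw [Nat.le_div_iff_mul_le (by omega)]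
    omega
  refine (near_le hp L θ K hc0 hc1 hv hvr M).trans ?_
  have h1 := nl_lt hp L θ K c (i / K + 1) r M
  have h2 : ∑ u ∈ Finset.Ico (i / K + 1) (i / K + 1 + r), Pr p (dead p L θ K c u) ≤
      η * (X / K : ℝ) := by
    refine le_trans ?_ h
    refine Finset.sum_le_sum_of_subset_of_nonneg ?_ fun u _ _ => Pr_nonneg' h0 _
    intro u hu
    have := (Finset.mem_Ico.1 hu).2
    exact Finset.mem_range.2 (by omega)
  have h3 : (g : ℝ) / (2 * K) ≤ (r : ℝ) - M := by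
    rw [div_le_iff₀ (by positivity)]
    have e1 : (g : ℝ) ≤ (i' - i : ℕ) := by exact_mod_cast (by omega : g ≤ i' - i)
    have e2 : ((i' - i : ℕ) : ℝ) < (r + 2) * K := by
      rw [hr] at hr2
      exact_mod_cast hr2
    have e3 : (2 * K * (M + 2) : ℝ) ≤ g := by exact_mod_cast hg
    nlinarith only [e1, e2, e3]
  have hg0 : (0 : ℝ) < g := by
    have e3 : (2 * K * (M + 2) : ℝ) ≤ g := by exact_mod_cast hg
    have : (0 : ℝ) < 2 * K * (M + 2) := by positivity
    linarith only [e3, this]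
  have h4 : Pr p {ω | nl p L θ K c (i / K + 1) r ω < M} ≤ 2 * η * X / g := by
    rw [le_div_iff₀ hg0]
    have h5 : Pr p {ω | nl p L θ K c (i / K + 1) r ω < M} * (g / (2 * K)) ≤ η * (X / K : ℝ) :=
      (mul_le_mul_of_nonneg_left h3 (Pr_nonneg' h0 _)).trans (h1.trans h2)
    have h6 : Pr p {ω | nl p L θ K c (i / K + 1) r ω < M} * (g / (2 * K)) * (2 * K) ≤
        η * (X / K : ℝ) * (2 * K) := mul_le_mul_of_nonneg_right h5 (by positivity)
    have h7 : Pr p {ω | nl p L θ K c (i / K + 1) r ω < M} * (g / (2 * K)) * (2 * K) =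
        Pr p {ω | nl p L θ K c (i / K + 1) r ω < M} * g := by field_simp
    have h8 : η * (X / K : ℝ) * (2 * K) = 2 * η * X := by field_simp
    rw [h7, h8] at h6
    exact h6
  linarith only [h4]

/-- Distances in the mean over the scales. -/
theorem tb_gen {p : Ω → ℝ} (hp : IsLaw p) (L : Ω → Λ) (θ : Ω → ℝ) {X K : ℕ} (hK : 1 ≤ K)
    {c η : ℝ} (hc0 : 0 ≤ c) (hc1 : c ≤ 1) (h : LV p L θ X K c η) {M : ℕ} (hM : 1 ≤ M) {a b : ℕ}
    (hab : a ≤ b) (hX : b ≤ X) :
    ∑ i ∈ Finset.Ico a b, Pr (dbl p (kp L θ i)) {w | |θ w.2 - θ w.1| <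
      (2 : ℝ) ^ (-((i : ℤ) + ((2 * M + 1) * K : ℕ)))} ≤
      3 * (1 - c) ^ M * ((b : ℝ) - a) + 6 * η * X + ((2 * M + 1) * K : ℕ) := by
  classical
  have h0 := hp.nonneg
  have hK0 : (0 : ℝ) < K := by exact_mod_cast hK
  set k' : ℕ := (2 * M + 1) * K with hk'
  set f : ℕ → ℝ := fun u => Pr p (dead p L θ K c u) with hf
  have hf0 : ∀ u, 0 ≤ f u := fun u => Pr_nonneg' h0 _
  set S := (Finset.Ico a b).filter (fun i => i + k' ≤ X) with hS
  -- the last scales
  have hsplit : ∑ i ∈ Finset.Ico a b, Pr (dbl p (kp L θ i)) {w | |θ w.2 - θ w.1| <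
      (2 : ℝ) ^ (-((i : ℤ) + (k' : ℕ)))} ≤
      ∑ i ∈ S, Pr (dbl p (kp L θ i)) {w | |θ w.2 - θ w.1| <
      (2 : ℝ) ^ (-((i : ℤ) + (k' : ℕ)))} + k' := by
    rw [← Finset.sum_filter_add_sum_filter_not (Finset.Ico a b) (fun i => i + k' ≤ X), ← hS]
    refine add_le_add le_rfl ?_
    have h1 : ∀ i ∈ (Finset.Ico a b).filter (fun i => ¬ (i + k' ≤ X)),
        Pr (dbl p (kp L θ i)) {w | |θ w.2 - θ w.1| < (2 : ℝ) ^ (-((i : ℤ) + (k' : ℕ)))} ≤ 1 := by
      intro i _
      exact Pool.KAF.Pr_le_one (Pool.OC.isLaw_dbl hp (kp L θ i)) _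
    refine (Finset.sum_le_sum h1).trans ?_
    rw [Finset.sum_const, nsmul_eq_mul, mul_one]
    have h2 : ((Finset.Ico a b).filter (fun i => ¬ (i + k' ≤ X))).card ≤ k' := by
      have h3 : (Finset.Ico a b).filter (fun i => ¬ (i + k' ≤ X)) ⊆ Finset.Ico (X - k') X := by
        intro i hi
        rw [Finset.mem_filter, Finset.mem_Ico] at hi
        rw [Finset.mem_Ico]
        omega
      refine (Finset.card_le_card h3).trans ?_
      rw [Nat.card_Ico]
      omega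
    exact_mod_cast h2
  refine hsplit.trans (add_le_add ?_ le_rfl)
  -- one scale
  have hone : ∀ i ∈ S, Pr (dbl p (kp L θ i)) {w | |θ w.2 - θ w.1| <
      (2 : ℝ) ^ (-((i : ℤ) + (k' : ℕ)))} ≤
      3 * (1 - c) ^ M + 3 / M * ∑ j ∈ range (2 * M), f (i / K + 1 + j) := by
    intro i hi
    have hv : i ≤ (i / K + 1) * K := by
      have := Nat.div_add_mod i K
      have h2 := Nat.mod_lt i (by omega : 0 < K)
      nlinarith only [this, h2]
    have hv2 : (i / K) * K ≤ i := Nat.div_mul_le_self i K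
    have hvr : (i / K + 1 + 2 * M) * K ≤ i + k' := by
      have : (i / K + 1 + 2 * M) * K = (i / K) * K + k' := by
        rw [hk']; ring
      omega
    have h1 := near_le hp L θ K hc0 hc1 hv hvr M
    have h2 := nl_lt hp L θ K c (i / K + 1) (2 * M) M
    have hM0 : (0 : ℝ) < M := by exact_mod_cast hM
    have h3 : ((2 * M : ℕ) : ℝ) - M = M := by push_cast; ring
    rw [h3] at h2
    have h4 : ∑ u ∈ Finset.Ico (i / K + 1) (i / K + 1 + 2 * M), Pr p (dead p L θ K c u) =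
        ∑ j ∈ range (2 * M), f (i / K + 1 + j) := by
      rw [Finset.sum_Ico_eq_sum_range]
      have : i / K + 1 + 2 * M - (i / K + 1) = 2 * M := by omega
      rw [this]
    rw [h4] at h2
    have h5 : Pr p {ω | nl p L θ K c (i / K + 1) (2 * M) ω < M} ≤
        (∑ j ∈ range (2 * M), f (i / K + 1 + j)) / M := by
      rw [le_div_iff₀ hM0]
      exact h2
    have h6 : (2 : ℝ) ^ (-((i : ℤ) + (k' : ℕ))) = (2 : ℝ) ^ (-((i + k' : ℕ) : ℤ)) := by
      push_cast
      rfl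
    rw [h6]
    have h7 : 3 / (M : ℝ) * ∑ j ∈ range (2 * M), f (i / K + 1 + j) =
        3 * ((∑ j ∈ range (2 * M), f (i / K + 1 + j)) / M) := by ring
    rw [h7]
    linarith only [h1, h5]
  refine (Finset.sum_le_sum hone).trans ?_
  rw [Finset.sum_add_distrib, Finset.sum_const, nsmul_eq_mul, ← Finset.mul_sum, Finset.sum_comm]
  have hc : 0 ≤ 1 - c := by linarith only [hc1]
  have h1 : (S.card : ℝ) * (3 * (1 - c) ^ M) ≤ 3 * (1 - c) ^ M * ((b : ℝ) - a) := by
    rw [mul_comm]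
    refine mul_le_mul_of_nonneg_left ?_ (by positivity)
    have h2 : S.card ≤ b - a := by
      refine (Finset.card_filter_le _ _).trans ?_
      rw [Nat.card_Ico]
    have h3 : (S.card : ℝ) ≤ ((b - a : ℕ) : ℝ) := by exact_mod_cast h2
    rw [Nat.cast_sub hab] at h3
    exact h3
  have h2 : ∀ j ∈ range (2 * M), ∑ i ∈ S, f (i / K + 1 + j) ≤ K * (η * (X / K : ℝ)) := by
    intro j hj
    have hj := Finset.mem_range.1 hj
    refine (sum_fib hf0 S (range (X / K)) (fun i => i / K + 1 + j) K ?_ ?_).trans ?_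
    · intro i hi
      have h3 := (Finset.mem_filter.1 hi).2
      rw [Finset.mem_range]
      have hv2 : (i / K) * K ≤ i := Nat.div_mul_le_self i K
      have hvr : (i / K + 1 + 2 * M) * K ≤ i + k' := by
        have : (i / K + 1 + 2 * M) * K = (i / K) * K + k' := by
          rw [hk']; ring
        omega
      have h4 : i / K + 1 + 2 * M ≤ X / K := by
        rw [Nat.le_div_iff_mul_le (by omega)]
        omega
      omega
    · intro u _
      have h3 : (S.filter fun i => i / K + 1 + j = u) ⊆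
          Finset.Ico ((u - 1 - j) * K) ((u - 1 - j) * K + K) := by
        intro i hi
        have h4 : i / K + 1 + j = u := (Finset.mem_filter.1 hi).2
        have h6 := Nat.div_add_mod i K
        have h7 := Nat.mod_lt i (by omega : 0 < K)
        generalize i / K = q at h4 h6
        have h5 : q = u - 1 - j := by omega
        rw [h5, mul_comm] at h6
        rw [Finset.mem_Ico]
        omega
      refine (Finset.card_le_card h3).trans ?_
      rw [Nat.card_Ico]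
      omega
    · exact mul_le_mul_of_nonneg_left h hK0.le
  have h3 : ∑ j ∈ range (2 * M), ∑ i ∈ S, f (i / K + 1 + j) ≤ (2 * M : ℕ) * (η * X) := by
    refine (Finset.sum_le_sum h2).trans ?_
    rw [Finset.sum_const, Finset.card_range, nsmul_eq_mul]
    have : (K : ℝ) * (η * (X / K : ℝ)) = η * X := by field_simp
    rw [this]
  have hM0 : (0 : ℝ) < M := by exact_mod_cast hM
  have h4 : 3 / (M : ℝ) * ∑ j ∈ range (2 * M), ∑ i ∈ S, f (i / K + 1 + j) ≤ 6 * η * X := by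
    refine (mul_le_mul_of_nonneg_left h3 (by positivity)).trans (le_of_eq ?_)
    push_cast
    field_simp
    ring
  linarith only [h1, h4]

end time

end Pool.OCG
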